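import Pool.Agent.H29.FewLists.AllOdd

/-!
# Assignments in which every colour belongs to at most two different lists: all `k`
-/

namespace Pool.Agent.H29.FewLists

open Finset

theorem sparse_T (k : ℕ) {T : Type} [Fintype T] [DecidableEq T] (V : Type) [Finite V]
    (G : SimpleGraph V) (hG : ClawFree G) (hcol : G.Colorable k) (A : T → Finset ℕ)
    (hA : ∀ i, k ≤ (A i).card)
    (hdeg : ∀ c, (univ.filter (fun i => c ∈ A i)).card ≤ 2) : FromT G A := by
  classical
  rcases Nat.even_or_odd k with hk | hk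
  · obtain ⟨m, hm⟩ := hk
    have hm' : k = 2 * m := by omega
    subst hm'
    exact sparse_even_T m V G hG hcol A hA hdeg
  · obtain ⟨m, rfl⟩ := hk
    have hsh : ∀ i, ∃ B ⊆ A i, B.card = 2 * m + 1 := fun i => Finset.exists_subset_card_eq (hA i)
    choose A1 hA1 hA1c using hsh
    have hdeg1 : ∀ c, (univ.filter (fun i => c ∈ A1 i)).card ≤ 2 := by
      intro c
      refine le_trans (Finset.card_le_card ?_) (hdeg c)
      intro i hi
      rw [mem_filter] at hi ⊢
      exact ⟨hi.1, hA1 i hi.2⟩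
    obtain ⟨b, hb⟩ := Infinite.exists_notMem_finset (univ.biUnion A1)
    have hb1 : (univ.filter (fun i => b ∈ A1 i)).card ≤ 1 := by
      have h1 : univ.filter (fun i => b ∈ A1 i) = ∅ := by
        rw [filter_eq_empty_iff]
        intro i _ h
        exact hb (mem_biUnion.2 ⟨i, mem_univ _, h⟩)
      rw [h1]
      simp
    obtain ⟨c⟩ := hcol
    let B : Set V := {v | (c v).1 = 0}
    have hR : (G.induce Bᶜ).Colorable (2 * m) := by
      have hge : ∀ v : (Bᶜ : Set V), 1 ≤ (c v.1).1 := by
        intro v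
        have h1 : ¬ (c v.1).1 = 0 := v.2
        omega
      refine ⟨SimpleGraph.Coloring.mk (fun v => (⟨(c v.1).1 - 1, by
        have h1 := hge v
        have h2 := (c v.1).2
        omega⟩ : Fin (2 * m))) ?_⟩
      intro u v huv h
      have h1 := c.valid (v := u.1) (w := v.1) huv
      apply h1
      have h2 := congrArg Fin.val h
      simp only at h2
      have h3 := hge u
      have h4 := hge v
      exact Fin.ext (by omega)
    intro τ
    obtain ⟨f, hf, hfp, -⟩ := all_odd m _ T rfl A1 hA1c hdeg1 b hb1 V G hG B (by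
      intro u v hu hv huv
      have h1 : (c u).1 = 0 := hu
      have h2 : (c v).1 = 0 := hv
      exact c.valid huv (Fin.ext (h1.trans h2.symm))) hR τ
    exact ⟨f, fun v => hA1 _ (hf v), hfp⟩

/-- Disjoint sets `C j` of colours that meet all the lists; the other colours belong to at most two
different lists. -/
theorem assignment_all (k r : ℕ) (V : Type) [Finite V] (G : SimpleGraph V)
    (hG : ClawFree G) (hcol : G.Colorable k) (L : V → Finset ℕ) (C : Fin r → Finset ℕ)
    (hr : r ≤ k)
    (hdisj : ∀ i j, i ≠ j → Disjoint (C i) (C j))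
    (hmeet : ∀ v j, (L v ∩ C j).Nonempty) (hL : ∀ v, k - r ≤ (L v \ univ.biUnion C).card)
    (hdeg : ∀ c ∉ univ.biUnion C, {S | S ∈ Set.range L ∧ c ∈ S}.ncard ≤ 2) :
    ∃ f : V → ℕ, (∀ v, f v ∈ L v) ∧ ∀ u v, G.Adj u v → f u ≠ f v := by
  classical
  have hfin : (Set.range L).Finite := Set.finite_range L
  set s : Finset (Finset ℕ) := hfin.toFinset with hs
  have hmem : ∀ v, L v ∈ s := fun v => by simp [hs]
  have hrange : ∀ S ∈ s, S ∈ Set.range L := by
    intro S hS
    rwa [hs, Set.Finite.mem_toFinset] at hS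
  obtain ⟨W, hW1, hW2⟩ := exists_split G k r hr hcol
  have hA : ∀ i : s, k - r ≤ (i.1 \ univ.biUnion C).card := by
    intro i
    obtain ⟨v, hv⟩ := hrange _ i.2
    rw [← hv]
    exact hL v
  have hAdeg : ∀ c, (univ.filter (fun i : s => c ∈ i.1 \ univ.biUnion C)).card ≤ 2 := by
    intro c
    by_cases hc : c ∈ univ.biUnion C
    · have : (univ.filter (fun i : s => c ∈ i.1 \ univ.biUnion C)) = ∅ := by
        rw [filter_eq_empty_iff]
        intro i _ h
        exact (mem_sdiff.1 h).2 hc
      rw [this]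
      simp
    · refine le_trans ?_ (hdeg c hc)
      have hf : {S | S ∈ Set.range L ∧ c ∈ S}.Finite := hfin.subset (fun S hS => hS.1)
      rw [Set.ncard_eq_toFinset_card _ hf]
      refine Finset.card_le_card_of_injOn (fun i => i.1) ?_ ?_
      · intro i hi
        rw [mem_coe, mem_filter] at hi
        rw [mem_coe, Set.Finite.mem_toFinset]
        exact ⟨hrange _ i.2, (mem_sdiff.1 hi.2).1⟩
      · intro i _ j _ hij
        exact Subtype.ext hij
  obtain ⟨g, hg, hgp⟩ := sparse_T (k - r) _ _ (clawFree_hereditary V G Wᶜ hG) hW2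
    (fun i : s => i.1 \ univ.biUnion C) hA hAdeg (fun v => ⟨L v.1, hmem v.1⟩)
  obtain ⟨c⟩ := hW1
  choose x hx using hmeet
  have hgL : ∀ v (hv : v ∈ Wᶜ), g ⟨v, hv⟩ ∈ L v ∧ g ⟨v, hv⟩ ∉ univ.biUnion C := by
    intro v hv
    have := hg ⟨v, hv⟩
    exact mem_sdiff.1 this
  have hne : ∀ u v (hu : u ∈ W) (hv : v ∈ Wᶜ), x u (c ⟨u, hu⟩) ≠ g ⟨v, hv⟩ := by
    intro u v hu hv h
    apply (hgL v hv).2
    rw [← h, mem_biUnion]
    exact ⟨_, mem_univ _, (mem_inter.1 (hx u (c ⟨u, hu⟩))).2⟩
  refine ⟨fun v => if hv : v ∈ W then x v (c ⟨v, hv⟩) else g ⟨v, hv⟩, fun v => ?_,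
    fun u v huv => ?_⟩
  · by_cases hv : v ∈ W
    · simp only [hv, dif_pos]
      exact (mem_inter.1 (hx v (c ⟨v, hv⟩))).1
    · simp only [hv, dif_neg, not_false_eq_true]
      exact (hgL v hv).1
  · by_cases hu : u ∈ W
    · by_cases hv : v ∈ W
      · simp only [hu, hv, dif_pos]
        intro h
        have h1 := (mem_inter.1 (hx u (c ⟨u, hu⟩))).2
        have h2 := (mem_inter.1 (hx v (c ⟨v, hv⟩))).2
        have h3 := Finset.disjoint_left.1
          (hdisj _ _ (c.valid (v := ⟨u, hu⟩) (w := ⟨v, hv⟩) huv)) h1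
        rw [h] at h3
        exact h3 h2
      · simp only [hu, hv, dif_pos, dif_neg, not_false_eq_true]
        exact hne u v hu hv
    · by_cases hv : v ∈ W
      · simp only [hu, hv, dif_pos, dif_neg, not_false_eq_true]
        exact (hne v u hv hu).symm
      · simp only [hu, hv, dif_neg, not_false_eq_true]
        exact hgp ⟨u, hu⟩ ⟨v, hv⟩ huv

/-- Every colour belongs to at most two different lists or to all lists. -/
theorem assignment_two_or_all (k : ℕ) (V : Type) [Finite V] (G : SimpleGraph V)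
    (hG : ClawFree G) (hcol : G.Colorable k) (L : V → Finset ℕ) (hL : ∀ v, k ≤ (L v).card)
    (hdeg : ∀ c, {S | S ∈ Set.range L ∧ c ∈ S}.ncard ≤ 2 ∨ ∀ v, c ∈ L v) :
    ∃ f : V → ℕ, (∀ v, f v ∈ L v) ∧ ∀ u v, G.Adj u v → f u ≠ f v := by
  classical
  rcases isEmpty_or_nonempty V with hV | ⟨⟨v0⟩⟩
  · exact ⟨fun _ => 0, fun v => isEmptyElim v, fun v => isEmptyElim v⟩
  set K : Finset ℕ := (L v0).filter (fun c => ∀ v, c ∈ L v) with hK
  have hKm : ∀ c, c ∈ K ↔ ∀ v, c ∈ L v := by
    intro c
    rw [hK, mem_filter]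
    exact ⟨fun h => h.2, fun h => ⟨h v0, h⟩⟩
  rcases Nat.lt_or_ge K.card k with hlt | hge
  · have hbi : univ.biUnion (fun j : Fin K.card => ({K.orderEmbOfFin rfl j} : Finset ℕ)) = K := by
      ext c
      rw [mem_biUnion]
      constructor
      · rintro ⟨j, -, hj⟩
        rw [mem_singleton] at hj
        rw [hj]
        exact Finset.orderEmbOfFin_mem _ _ _
      · intro hc
        have h1 : c ∈ Set.range (K.orderEmbOfFin rfl) := by
          rw [Finset.range_orderEmbOfFin]
          exact hc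
        obtain ⟨j, hj⟩ := h1
        exact ⟨j, mem_univ _, by rw [mem_singleton]; exact hj.symm⟩
    refine assignment_all k K.card V G hG hcol L (fun j => {K.orderEmbOfFin rfl j}) hlt.le
      ?_ ?_ ?_ ?_
    · intro i j hij
      rw [Finset.disjoint_singleton]
      exact fun h => hij ((K.orderEmbOfFin rfl).injective h)
    · intro v j
      refine ⟨K.orderEmbOfFin rfl j, ?_⟩
      rw [mem_inter, mem_singleton]
      exact ⟨(hKm _).1 (Finset.orderEmbOfFin_mem _ _ _) v, rfl⟩
    · intro v
      rw [hbi]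
      have h1 : K ⊆ L v := fun c hc => (hKm c).1 hc v
      rw [Finset.card_sdiff_of_subset h1]
      have := hL v
      omega
    · intro c hc
      rw [hbi] at hc
      rcases hdeg c with h | h
      · exact h
      · exact absurd ((hKm c).2 h) hc
  · obtain ⟨K', hK', hK'c⟩ := Finset.exists_subset_card_eq hge
    obtain ⟨c⟩ := hcol
    refine ⟨fun v => K'.orderEmbOfFin hK'c (c v), fun v => ?_, fun u v huv h => ?_⟩
    · exact (hKm _).1 (hK' (Finset.orderEmbOfFin_mem _ _ _)) v
    · exact c.valid huv ((K'.orderEmbOfFin hK'c).injective h)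

end Pool.Agent.H29.FewLists
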