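import Pool.Agent.H29.FewLists.Transversal

/-!
# List systems with an odd number of colours per list, every colour in at most two lists
-/

namespace Pool.Agent.H29.FewLists

open Finset

/-- `G` can be coloured from the lists `A i`, whatever the distribution of the lists is. -/
def FromT {V T : Type} (G : SimpleGraph V) (A : T → Finset ℕ) : Prop :=
  ∀ τ : V → T, ∃ f : V → ℕ, (∀ v, f v ∈ A (τ v)) ∧ ∀ u v, G.Adj u v → f u ≠ f v

theorem sparse_even_T (m : ℕ) {T : Type} [Fintype T] [DecidableEq T] (V : Type) [Finite V]
    (G : SimpleGraph V) (hG : ClawFree G) (hcol : G.Colorable (2 * m)) (A : T → Finset ℕ)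
    (hA : ∀ i, 2 * m ≤ (A i).card)
    (hdeg : ∀ c, (univ.filter (fun i => c ∈ A i)).card ≤ 2) : FromT G A := by
  classical
  intro τ
  let e := Fintype.equivFin T
  have h := sparse_even m (Fintype.card T) V G hG hcol (fun i => A (e.symm i)) (fun i => hA _)
    (by
      intro c
      refine le_trans ?_ (hdeg c)
      refine Finset.card_le_card_of_injOn (fun i => e.symm i) ?_ ?_
      · intro i hi
        rw [mem_coe, mem_filter] at hi ⊢
        exact ⟨mem_univ _, hi.2⟩
      · intro i _ j _ hij
        exact e.symm.injective hij)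
  obtain ⟨f, hf, hfp⟩ := h (fun v => e (τ v))
  refine ⟨f, fun v => ?_, hfp⟩
  have := hf v
  simpa using this

/-- In an odd set of lists with only one colour `b` in exactly one of them, a transversal set of
colours contains `b`. -/
theorem transversal_mem {T : Type} [Fintype T] [DecidableEq T] (A : T → Finset ℕ)
    (hdeg : ∀ c, (univ.filter (fun i => c ∈ A i)).card ≤ 2) (D : Finset T) (hD : Odd D.card)
    (b : ℕ) (hb : cut A D = {b}) (n : T → ℕ) (hn : ∀ i ∈ D, n i ∈ A i)
    (hn' : ∀ i ∈ D, ∀ j ∈ D, n i ∈ A j → n j = n i) : ∃ i ∈ D, n i = b := by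
  classical
  by_contra hne
  push Not at hne
  have h1 : D.card = ∑ c ∈ D.image n, (D.filter (fun i => n i = c)).card :=
    Finset.card_eq_sum_card_image n D
  have h2 : ∀ c ∈ D.image n, (D.filter (fun i => n i = c)).card = 2 := by
    intro c hc
    obtain ⟨i, hi, rfl⟩ := mem_image.1 hc
    have h3 : D.filter (fun j => n j = n i) = D.filter (fun j => n i ∈ A j) := by
      ext j
      rw [mem_filter, mem_filter]
      constructor
      · rintro ⟨hj, hji⟩
        exact ⟨hj, hji ▸ hn j hj⟩
      · rintro ⟨hj, hji⟩
        exact ⟨hj, hn' i hi j hj hji⟩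
    rw [h3]
    have h4 : 0 < (D.filter (fun j => n i ∈ A j)).card := card_pos.2 ⟨i, by simp [hi, hn i hi]⟩
    have h5 : (D.filter (fun j => n i ∈ A j)).card ≤ 2 :=
      le_trans (Finset.card_le_card (Finset.filter_subset_filter _ (subset_univ _))) (hdeg _)
    have h6 : (D.filter (fun j => n i ∈ A j)).card ≠ 1 := by
      intro h7
      have h8 : n i ∈ cut A D := by
        rw [cut, mem_filter, mem_biUnion]
        exact ⟨⟨i, hi, hn i hi⟩, h7⟩
      rw [hb, mem_singleton] at h8
      exact hne i hi h8
    omega
  rw [Finset.sum_congr rfl h2, Finset.sum_const, smul_eq_mul] at h1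
  rw [h1] at hD
  exact (Nat.not_odd_iff_even.2 (even_two.mul_left _)) hD

theorem odd_main (m : ℕ) : ∀ (n : ℕ) (T : Type) [Fintype T] [DecidableEq T],
    Fintype.card T = n → ∀ A : T → Finset ℕ, (∀ i, (A i).card = 2 * m + 1) →
      (∀ c, (univ.filter (fun i => c ∈ A i)).card ≤ 2) →
      (∀ D : Finset T, Odd D.card → (cut A D).card = 1 ∨ 2 * m + 1 ≤ (cut A D).card) →
      ∀ (V : Type) [Finite V] (G : SimpleGraph V), ClawFree G → G.Colorable (2 * m + 1) →
        FromT G A := by
  classical
  intro n
  induction n using Nat.strong_induction_on with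
  | _ n ih =>
  intro T _ _ hT A hA hdeg hcut V _ G hG hcol
  by_cases hex : ∃ D : Finset T, Odd D.card ∧ (cut A D).card < 2 * m + 1
  · -- an odd set of lists with one outgoing colour
    obtain ⟨D0, hD0⟩ := hex
    obtain ⟨D, hD, hmin⟩ := Finset.exists_min_image
      (univ.filter (fun D : Finset T => Odd D.card ∧ (cut A D).card < 2 * m + 1)) Finset.card
      ⟨D0, by simpa using hD0⟩
    rw [mem_filter] at hD
    obtain ⟨-, hDodd, hDcut⟩ := hD
    have hD1 : (cut A D).card = 1 := by
      rcases hcut D hDodd with h | h
      · exact h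
      · omega
    obtain ⟨b, hb⟩ := card_eq_one.1 hD1
    have hbm : b ∈ cut A D := by rw [hb]; simp
    obtain ⟨x, hxD, hbx, hxu⟩ := (mem_cut A D b).1 hbm
    have hDc : 2 ≤ D.card := by
      by_contra hlt
      have h1 : D.card = 1 := by
        have := card_pos.2 ⟨x, hxD⟩
        omega
      obtain ⟨y, hy⟩ := card_eq_one.1 h1
      have h2 : cut A D = A y := by
        ext c
        rw [mem_cut, hy]
        constructor
        · rintro ⟨i, hi, hic, -⟩
          rw [mem_singleton] at hi
          rwa [hi] at hic
        · intro h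
          exact ⟨y, mem_singleton_self y, h, fun j hj _ => mem_singleton.1 hj⟩
      rw [h2, hA y] at hDcut
      omega
    obtain ⟨n', hn, hn'⟩ := transversal (2 * m + 1) (Nat.succ_pos _) A hA hdeg D (by
      intro E hE hEodd hEp
      by_contra hlt
      rw [not_le] at hlt
      have h1 := hmin E (mem_filter.2 ⟨mem_univ _, hEodd, hlt⟩)
      have h2 : E = D := Finset.eq_of_subset_of_card_le hE h1
      obtain ⟨j, hj, hjx, hbj⟩ := hEp x (by rw [h2]; exact hxD) b hbx
      exact hjx (hxu j hj hbj))
    obtain ⟨x', hx', hx'b⟩ := transversal_mem A hdeg D hDodd b hb n' hn hn'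
    have hnx : n' x = b := by
      have h1 : x' = x := hxu x' hx' (by rw [← hx'b]; exact hn x' hx')
      rw [← h1]
      exact hx'b
    -- new colours
    obtain ⟨P, hPsub, hPc⟩ := ((univ.biUnion A).finite_toSet.infinite_compl).exists_subset_card_eq
      (2 * m)
    have hPA : ∀ c ∈ P, ∀ i, c ∉ A i := by
      intro c hc i hi
      exact hPsub hc (by
        rw [mem_coe, mem_biUnion]
        exact ⟨i, mem_univ _, hi⟩)
    -- the contracted system
    let A' : Option {i : T // i ∉ D} → Finset ℕ := fun o => match o with
      | none => insert b P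
      | some i => A i.1
    let g : Option {i : T // i ∉ D} → T := fun o => match o with
      | none => x
      | some i => i.1
    have hginj : Function.Injective g := by
      rintro (_ | i) (_ | j) h
      · rfl
      · exact absurd hxD ((show x = j.1 from h) ▸ j.2)
      · exact absurd hxD ((show i.1 = x from h) ▸ i.2)
      · exact congrArg some (Subtype.ext h)
    have hbP : b ∉ P := fun h => hPA b h x hbx
    have hA' : ∀ i, (A' i).card = 2 * m + 1 := by
      rintro (_ | i)
      · show (insert b P).card = 2 * m + 1
        rw [card_insert_of_notMem hbP, hPc]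
      · exact hA i.1
    have hdeg' : ∀ c, (univ.filter (fun i => c ∈ A' i)).card ≤ 2 := by
      intro c
      by_cases hc : c ∈ P
      · have h1 : univ.filter (fun i => c ∈ A' i) ⊆ {none} := by
          intro i hi
          rw [mem_filter] at hi
          rcases i with _ | i
          · simp
          · exact absurd hi.2 (hPA c hc i.1)
        have h2 := card_le_card h1
        rw [card_singleton] at h2
        omega
      · refine le_trans ?_ (hdeg c)
        refine Finset.card_le_card_of_injOn g ?_ (hginj.injOn)
        intro i hi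
        rw [mem_coe, mem_filter] at hi ⊢
        refine ⟨mem_univ _, ?_⟩
        rcases i with _ | i
        · have h1 : c ∈ insert b P := hi.2
          rw [mem_insert] at h1
          rcases h1 with h1 | h1
          · rw [h1]; exact hbx
          · exact absurd h1 hc
        · exact hi.2
    have hcut' : ∀ D' : Finset (Option {i : T // i ∉ D}), Odd D'.card →
        (cut A' D').card = 1 ∨ 2 * m + 1 ≤ (cut A' D').card := by
      intro D' hD'
      by_cases hnone : none ∈ D'
      · right
        have h1 : P ⊆ cut A' D' := by
          intro c hc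
          rw [mem_cut]
          refine ⟨none, hnone, mem_insert_of_mem hc, ?_⟩
          rintro (_ | j) _ hj
          · rfl
          · exact absurd hj (hPA c hc j.1)
        have h2 := card_le_card h1
        rw [hPc] at h2
        have h3 := cut_parity (2 * m + 1) A' hA' hdeg' ⟨m, rfl⟩ D' hD'
        rw [Nat.odd_iff] at h3
        omega
      · have h1 : cut A (D'.image g) = cut A' D' := by
          have hg : ∀ i ∈ D', A' i = A (g i) := by
            rintro (_ | i) hi
            · exact absurd hi hnone
            · rfl
          ext c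
          rw [mem_cut, mem_cut]
          constructor
          · rintro ⟨i, hi, hic, hu⟩
            obtain ⟨i, hi', rfl⟩ := mem_image.1 hi
            refine ⟨i, hi', by rw [hg i hi']; exact hic, fun j hj hjc => hginj ?_⟩
            exact hu (g j) (mem_image_of_mem g hj) (by rw [← hg j hj]; exact hjc)
          · rintro ⟨i, hi, hic, hu⟩
            refine ⟨g i, mem_image_of_mem g hi, by rw [← hg i hi]; exact hic, ?_⟩
            intro j hj hjc
            obtain ⟨j, hj', rfl⟩ := mem_image.1 hj
            rw [hu j hj' (by rw [hg j hj']; exact hjc)]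
        rw [← h1]
        apply hcut
        rw [Finset.card_image_of_injective _ hginj]
        exact hD'
    have hcardT' : Fintype.card (Option {i : T // i ∉ D}) < n := by
      rw [Fintype.card_option, Fintype.card_subtype, ← hT]
      have h1 : (univ.filter (fun i => i ∉ D)) = Dᶜ := by
        ext i
        simp
      rw [h1, Finset.card_compl]
      have := Finset.card_le_univ D
      omega
    intro τ
    obtain ⟨φ, hφ, hφp⟩ := ih _ hcardT' (Option {i : T // i ∉ D}) rfl A' hA' hdeg' hcut' V G hG hcol
      (fun v => if h : τ v ∈ D then none else some ⟨τ v, h⟩)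
    have hφD : ∀ v, τ v ∈ D → φ v = b ∨ φ v ∈ P := by
      intro v hv
      have h1 := hφ v
      simp only [hv, dif_pos] at h1
      exact mem_insert.1 h1
    have hφX : ∀ v, τ v ∉ D → φ v ∈ A (τ v) := by
      intro v hv
      have h1 := hφ v
      simp only [hv, not_false_eq_true, dif_neg] at h1
      exact h1
    let R : Set V := {v | τ v ∈ D ∧ φ v ∈ P}
    have hRcol : (G.induce R).Colorable (2 * m) := by
      have h1 : (G.induce R).Colorable (Fintype.card P) :=
        (SimpleGraph.Coloring.mk (fun v : R => (⟨φ v.1, v.2.2⟩ : P)) (by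
          intro u v huv h
          exact hφp u.1 v.1 huv (congrArg Subtype.val h))).colorable
      rwa [Fintype.card_coe, hPc] at h1
    obtain ⟨ψ, hψ, hψp⟩ := sparse_even_T m R (G.induce R) (clawFree_hereditary V G R hG) hRcol
      (fun i => (A i).erase (n' i)) (fun i => by
        have h1 := Finset.pred_card_le_card_erase (s := A i) (a := n' i)
        rw [hA i] at h1
        omega) (fun c => by
        refine le_trans (Finset.card_le_card ?_) (hdeg c)
        intro i hi
        rw [mem_filter] at hi ⊢
        exact ⟨hi.1, mem_of_mem_erase hi.2⟩) (fun v => τ v.1)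
    -- colours in a list of `D` and in a list outside of `D`
    have hX : ∀ u v c, τ u ∉ D → τ v ∈ D → c ∈ A (τ u) → c ∈ A (τ v) → c = b := by
      intro u v c hu hv hcu hcv
      have h1 : c ∈ cut A D := by
        rw [mem_cut]
        refine ⟨τ v, hv, hcv, fun j hj hjc => ?_⟩
        rcases deg_three A hdeg c (τ u) j (τ v) hcu hjc hcv with h | h | h
        · exact absurd (h ▸ hj) hu
        · exact absurd (h ▸ hv) hu
        · exact h
      rw [hb] at h1
      exact mem_singleton.1 h1
    have hMR : ∀ u v (hv : v ∈ R), τ u ∈ D → n' (τ u) ≠ ψ ⟨v, hv⟩ := by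
      intro u v hv hu h
      have h1 := hψ ⟨v, hv⟩
      rw [mem_erase] at h1
      apply h1.1
      rw [← h]
      refine (hn' (τ u) hu (τ v) hv.1 ?_).symm
      rw [h]
      exact h1.2
    have hXR : ∀ u v (hv : v ∈ R), τ u ∉ D → φ u ≠ ψ ⟨v, hv⟩ := by
      intro u v hv hu h
      have h1 := hψ ⟨v, hv⟩
      rw [mem_erase] at h1
      have h2 := hX u v (φ u) hu hv.1 (hφX u hu) (by rw [h]; exact h1.2)
      apply h1.1
      have h3 : τ v = x := hxu (τ v) hv.1 (by rw [← h2, h]; exact h1.2)
      rw [← h, h2]
      show b = n' (τ v)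
      rw [h3, hnx]
    have hXM : ∀ u v, G.Adj u v → v ∉ R → τ v ∈ D → τ u ∉ D → φ u ≠ n' (τ v) := by
      intro u v huv hv hvD hu h
      have h2 := hX u v (φ u) hu hvD (hφX u hu) (by rw [h]; exact hn _ hvD)
      have h3 : φ v = b := by
        rcases hφD v hvD with h | h
        · exact h
        · exact absurd ⟨hvD, h⟩ hv
      exact hφp u v huv (h2.trans h3.symm)
    refine ⟨fun v => if hR : v ∈ R then ψ ⟨v, hR⟩ else if τ v ∈ D then n' (τ v) else φ v,
      fun v => ?_, fun u v huv => ?_⟩
    · by_cases hR : v ∈ R
      · simp only [hR, dif_pos]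
        exact mem_of_mem_erase (hψ ⟨v, hR⟩)
      · by_cases hv : τ v ∈ D
        · simp only [hR, dif_neg, not_false_eq_true, hv, if_true]
          exact hn _ hv
        · simp only [hR, dif_neg, not_false_eq_true, hv, if_false]
          exact hφX v hv
    · by_cases hRu : u ∈ R
      · by_cases hRv : v ∈ R
        · simp only [hRu, hRv, dif_pos]
          exact hψp ⟨u, hRu⟩ ⟨v, hRv⟩ huv
        · by_cases hv : τ v ∈ D
          · simp only [hRu, hRv, dif_pos, dif_neg, not_false_eq_true, hv, if_true]
            exact (hMR v u hRu hv).symm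
          · simp only [hRu, hRv, dif_pos, dif_neg, not_false_eq_true, hv, if_false]
            exact (hXR v u hRu hv).symm
      · by_cases hu : τ u ∈ D
        · by_cases hRv : v ∈ R
          · simp only [hRu, hRv, dif_pos, dif_neg, not_false_eq_true, hu, if_true]
            exact hMR u v hRv hu
          · by_cases hv : τ v ∈ D
            · exfalso
              have h1 : φ u = b := (hφD u hu).resolve_right (fun h => hRu ⟨hu, h⟩)
              have h2 : φ v = b := (hφD v hv).resolve_right (fun h => hRv ⟨hv, h⟩)
              exact hφp u v huv (h1.trans h2.symm)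
            · simp only [hRu, hRv, dif_neg, not_false_eq_true, hu, hv, if_true, if_false]
              exact (hXM v u huv.symm hRu hu hv).symm
        · by_cases hRv : v ∈ R
          · simp only [hRu, hRv, dif_pos, dif_neg, not_false_eq_true, hu, if_false]
            exact hXR u v hRv hu
          · by_cases hv : τ v ∈ D
            · simp only [hRu, hRv, dif_neg, not_false_eq_true, hu, hv, if_true, if_false]
              exact hXM u v huv hRv hv hu
            · simp only [hRu, hRv, dif_neg, not_false_eq_true, hu, hv, if_false]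
              exact hφp u v huv
  · -- a transversal set of colours
    push Not at hex
    obtain ⟨n', hn, hn'⟩ := transversal (2 * m + 1) (Nat.succ_pos _) A hA hdeg univ
      (fun E _ hE _ => hex E hE)
    obtain ⟨S, hS1, hS2⟩ := exists_split G (2 * m + 1) 1 (by omega) hcol
    have e : 2 * m + 1 - 1 = 2 * m := by omega
    rw [e] at hS2
    intro τ
    obtain ⟨ψ, hψ, hψp⟩ := sparse_even_T m _ _ (clawFree_hereditary V G Sᶜ hG) hS2
      (fun i => (A i).erase (n' i)) (fun i => by
        have h1 := Finset.pred_card_le_card_erase (s := A i) (a := n' i)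
        rw [hA i] at h1
        omega) (fun c => by
        refine le_trans (Finset.card_le_card ?_) (hdeg c)
        intro i hi
        rw [mem_filter] at hi ⊢
        exact ⟨hi.1, mem_of_mem_erase hi.2⟩) (fun v => τ v.1)
    have hMR : ∀ u v (hv : v ∈ Sᶜ), n' (τ u) ≠ ψ ⟨v, hv⟩ := by
      intro u v hv h
      have h1 := hψ ⟨v, hv⟩
      rw [mem_erase] at h1
      apply h1.1
      rw [← h]
      refine (hn' (τ u) (mem_univ _) (τ v) (mem_univ _) ?_).symm
      rw [h]
      exact h1.2
    refine ⟨fun v => if hv : v ∈ Sᶜ then ψ ⟨v, hv⟩ else n' (τ v), fun v => ?_,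
      fun u v huv => ?_⟩
    · by_cases hv : v ∈ Sᶜ
      · simp only [hv, dif_pos]
        exact mem_of_mem_erase (hψ ⟨v, hv⟩)
      · simp only [hv, dif_neg, not_false_eq_true]
        exact hn _ (mem_univ _)
    · by_cases hu : u ∈ Sᶜ
      · by_cases hv : v ∈ Sᶜ
        · simp only [hu, hv, dif_pos]
          exact hψp ⟨u, hu⟩ ⟨v, hv⟩ huv
        · simp only [hu, hv, dif_pos, dif_neg, not_false_eq_true]
          exact (hMR v u hu).symm
      · by_cases hv : v ∈ Sᶜ
        · simp only [hu, hv, dif_pos, dif_neg, not_false_eq_true]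
          exact hMR u v hv
        · exfalso
          rw [Set.mem_compl_iff, not_not] at hu hv
          obtain ⟨c⟩ := hS1
          exact (c.valid (v := ⟨u, hu⟩) (w := ⟨v, hv⟩) huv) (Subsingleton.elim _ _)

end Pool.Agent.H29.FewLists
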