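import Pool.Agent.H29.FewLists.TwoFactorFinal
import Pool.Agent.H29.FewLists.OddSparse

/-!
# List systems with an odd number of colours per list, every colour in at most two lists: the
general case
-/

namespace Pool.Agent.H29.FewLists

open Finset

/-- The general case for odd `k = 2 m + 1`. The colour `b`, which belongs to at most one list, is
only used in the independent set `B`. -/
theorem all_odd : ∀ (m n : ℕ) (T : Type) [Fintype T] [DecidableEq T],
    Fintype.card T = n → ∀ A : T → Finset ℕ, (∀ i, (A i).card = 2 * m + 1) →
      (∀ c, (univ.filter (fun i => c ∈ A i)).card ≤ 2) →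
      ∀ b : ℕ, (univ.filter (fun i => b ∈ A i)).card ≤ 1 →
      ∀ (V : Type) [Finite V] (G : SimpleGraph V), ClawFree G →
        ∀ B : Set V, (∀ u v, u ∈ B → v ∈ B → ¬ G.Adj u v) → (G.induce Bᶜ).Colorable (2 * m) →
        ∀ τ : V → T, ∃ f : V → ℕ, (∀ v, f v ∈ A (τ v)) ∧ (∀ u v, G.Adj u v → f u ≠ f v) ∧
          ∀ v, f v = b → v ∈ B := by
  classical
  intro m
  induction m with
  | zero =>
    intro n T _ _ hT A hA hdeg b hb V _ G hG B hB hcol τ
    have hne : ∀ i, ∃ c, c ∈ A i := fun i => card_pos.1 (by rw [hA i]; norm_num)
    choose x hx using hne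
    have hall : ∀ v, v ∈ B := by
      intro v
      by_contra h
      obtain ⟨c⟩ := hcol
      exact (c ⟨v, h⟩).elim0
    exact ⟨fun v => x (τ v), fun v => hx _, fun u v huv => absurd huv (hB u v (hall u) (hall v)),
      fun v _ => hall v⟩
  | succ m ihm =>
    intro n
    induction n using Nat.strong_induction_on with
    | _ n ih =>
    intro T _ _ hT A hA hdeg b hb V _ G hG B hB hcol τ
    have hbu : ∀ i j, b ∈ A i → b ∈ A j → i = j := by
      intro i j hi hj
      exact Finset.card_le_one.1 hb i (mem_filter.2 ⟨mem_univ _, hi⟩) j
        (mem_filter.2 ⟨mem_univ _, hj⟩)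
    by_cases hex : ∃ D : Finset T, Odd D.card ∧ (cut A D).card = 1 ∧ D ≠ univ
    · -- an odd set of lists with one outgoing colour
      obtain ⟨D, hDodd, hD1, hDne⟩ := hex
      obtain ⟨b', hb'⟩ := card_eq_one.1 hD1
      have hbm : b' ∈ cut A D := by rw [hb']; simp
      obtain ⟨x, hxD, hbx, hxu⟩ := (mem_cut A D b').1 hbm
      have hDc : 2 ≤ D.card := by
        by_contra hlt
        have h1 : D.card = 1 := by
          have := card_pos.2 ⟨x, hxD⟩
          omega
        obtain ⟨y, hy⟩ := card_eq_one.1 h1
        have h2 : cut A D = A y := by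
          ext c
          rw [mem_cut, hy]
          constructor
          · rintro ⟨i, hi, hic, -⟩
            rw [mem_singleton] at hi
            rwa [hi] at hic
          · intro h
            exact ⟨y, mem_singleton_self y, h, fun j hj _ => mem_singleton.1 hj⟩
        rw [h2, hA y] at hD1
        omega
      -- new colours
      obtain ⟨P, hPsub, hPc⟩ :=
        ((insert b (univ.biUnion A)).finite_toSet.infinite_compl).exists_subset_card_eq
          (2 * (m + 1))
      have hPA : ∀ c ∈ P, ∀ i, c ∉ A i := by
        intro c hc i hi
        exact hPsub hc (by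
          rw [mem_coe, mem_insert, mem_biUnion]
          exact Or.inr ⟨i, mem_univ _, hi⟩)
      have hbP0 : b ∉ P := by
        intro hc
        exact hPsub hc (by
          rw [mem_coe, mem_insert]
          exact Or.inl rfl)
      -- the contracted system
      let A' : Option {i : T // i ∉ D} → Finset ℕ := fun o => match o with
        | none => insert b' P
        | some i => A i.1
      let g : Option {i : T // i ∉ D} → T := fun o => match o with
        | none => x
        | some i => i.1
      have hginj : Function.Injective g := by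
        rintro (_ | i) (_ | j) h
        · rfl
        · exact absurd hxD ((show x = j.1 from h) ▸ j.2)
        · exact absurd hxD ((show i.1 = x from h) ▸ i.2)
        · exact congrArg some (Subtype.ext h)
      have hbP : b' ∉ P := fun h => hPA b' h x hbx
      have hA' : ∀ i, (A' i).card = 2 * (m + 1) + 1 := by
        rintro (_ | i)
        · show (insert b' P).card = 2 * (m + 1) + 1
          rw [card_insert_of_notMem hbP, hPc]
        · exact hA i.1
      have hgA : ∀ c, c ∉ P → ∀ i, c ∈ A' i → c ∈ A (g i) := by
        intro c hc i hi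
        rcases i with _ | i
        · have h1 : c ∈ insert b' P := hi
          rw [mem_insert] at h1
          rcases h1 with h1 | h1
          · rw [h1]; exact hbx
          · exact absurd h1 hc
        · exact hi
      have hcount : ∀ c, c ∉ P → (univ.filter (fun i => c ∈ A' i)).card ≤
          (univ.filter (fun i => c ∈ A i)).card := by
        intro c hc
        refine Finset.card_le_card_of_injOn g ?_ (hginj.injOn)
        intro i hi
        rw [mem_coe, mem_filter] at hi ⊢
        exact ⟨mem_univ _, hgA c hc i hi.2⟩
      have hdeg' : ∀ c, (univ.filter (fun i => c ∈ A' i)).card ≤ 2 := by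
        intro c
        by_cases hc : c ∈ P
        · have h1 : univ.filter (fun i => c ∈ A' i) ⊆ {none} := by
            intro i hi
            rw [mem_filter] at hi
            rcases i with _ | i
            · simp
            · exact absurd hi.2 (hPA c hc i.1)
          have h2 := card_le_card h1
          rw [card_singleton] at h2
          omega
        · exact (hcount c hc).trans (hdeg c)
      have hcardT' : Fintype.card (Option {i : T // i ∉ D}) < n := by
        rw [Fintype.card_option, Fintype.card_subtype, ← hT]
        have h1 : (univ.filter (fun i => i ∉ D)) = Dᶜ := by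
          ext i
          simp
        rw [h1, Finset.card_compl]
        have := Finset.card_le_univ D
        omega
      have hcardD : Fintype.card {i : T // i ∈ D} < n := by
        rw [Fintype.card_coe, ← hT]
        exact Finset.card_lt_univ_of_notMem
          (Classical.choose_spec (not_forall.1 (fun h => hDne (Finset.eq_univ_iff_forall.2 h))))
      obtain ⟨φ, hφ, hφp, hφb⟩ := ih _ hcardT' (Option {i : T // i ∉ D}) rfl A' hA' hdeg' b
        ((hcount b hbP0).trans hb) V G hG B hB hcol
        (fun v => if h : τ v ∈ D then none else some ⟨τ v, h⟩)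
      have hφD : ∀ v, τ v ∈ D → φ v = b' ∨ φ v ∈ P := by
        intro v hv
        have h1 := hφ v
        simp only [hv, dif_pos] at h1
        exact mem_insert.1 h1
      have hφX : ∀ v, τ v ∉ D → φ v ∈ A (τ v) := by
        intro v hv
        have h1 := hφ v
        simp only [hv, not_false_eq_true, dif_neg] at h1
        exact h1
      -- the vertices with lists in `D`
      let W : Set V := {v | τ v ∈ D}
      let B' : Set W := {v | φ v.1 = b'}
      have hRcol : ((G.induce W).induce B'ᶜ).Colorable (2 * (m + 1)) := by
        have h1 : ((G.induce W).induce B'ᶜ).Colorable (Fintype.card P) :=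
          (SimpleGraph.Coloring.mk (fun v : (B'ᶜ : Set W) => (⟨φ v.1.1,
            (hφD v.1.1 v.1.2).resolve_left v.2⟩ : P)) (by
            intro u v huv h
            exact hφp u.1.1 v.1.1 huv (congrArg Subtype.val h))).colorable
        rwa [Fintype.card_coe, hPc] at h1
      obtain ⟨ψ, hψ, hψp, hψb⟩ := ih _ hcardD {i : T // i ∈ D} rfl (fun i => A i.1)
        (fun i => hA i.1) (fun c => by
          refine le_trans ?_ (hdeg c)
          refine Finset.card_le_card_of_injOn (fun i => i.1) ?_ ?_
          · intro i hi
            rw [mem_coe, mem_filter] at hi ⊢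
            exact ⟨mem_univ _, hi.2⟩
          · intro i _ j _ hij
            exact Subtype.ext hij) b' (by
          rw [Finset.card_le_one]
          intro i hi j hj
          rw [mem_filter] at hi hj
          exact Subtype.ext ((hxu i.1 i.2 hi.2).trans (hxu j.1 j.2 hj.2).symm))
        W (G.induce W) (clawFree_hereditary V G W hG) B' (by
          intro u v hu hv huv
          exact hφp u.1 v.1 huv (Eq.trans hu (Eq.symm hv))) hRcol (fun v => ⟨τ v.1, v.2⟩)
      have hX : ∀ u v c, τ u ∉ D → τ v ∈ D → c ∈ A (τ u) → c ∈ A (τ v) → c = b' := by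
        intro u v c hu hv hcu hcv
        have h1 : c ∈ cut A D := by
          rw [mem_cut]
          refine ⟨τ v, hv, hcv, fun j hj hjc => ?_⟩
          rcases deg_three A hdeg c (τ u) j (τ v) hcu hjc hcv with h | h | h
          · exact absurd (h ▸ hj) hu
          · exact absurd (h ▸ hv) hu
          · exact h
        rw [hb'] at h1
        exact mem_singleton.1 h1
      have hXD : ∀ u v (hv : v ∈ W), G.Adj u v → τ u ∉ D → φ u ≠ ψ ⟨v, hv⟩ := by
        intro u v hv huv hu h
        have h1 : φ u = b' := hX u v (φ u) hu hv (hφX u hu) (by rw [h]; exact hψ ⟨v, hv⟩)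
        have h2 : φ v = b' := hψb ⟨v, hv⟩ (h.symm.trans h1)
        exact hφp u v huv (h1.trans h2.symm)
      refine ⟨fun v => if hv : v ∈ W then ψ ⟨v, hv⟩ else φ v, fun v => ?_, fun u v huv => ?_,
        fun v => ?_⟩
      · by_cases hv : v ∈ W
        · simp only [hv, dif_pos]
          exact hψ ⟨v, hv⟩
        · simp only [hv, dif_neg, not_false_eq_true]
          exact hφX v hv
      · by_cases hu : u ∈ W
        · by_cases hv : v ∈ W
          · simp only [hu, hv, dif_pos]
            exact hψp ⟨u, hu⟩ ⟨v, hv⟩ huv
          · simp only [hu, hv, dif_pos, dif_neg, not_false_eq_true]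
            exact (hXD v u hu huv.symm hv).symm
        · by_cases hv : v ∈ W
          · simp only [hu, hv, dif_pos, dif_neg, not_false_eq_true]
            exact hXD u v hv huv hu
          · simp only [hu, hv, dif_neg, not_false_eq_true]
            exact hφp u v huv
      · by_cases hv : v ∈ W
        · simp only [hv, dif_pos]
          intro h
          have h1 : b ∈ A (τ v) := by
            rw [← h]
            exact hψ ⟨v, hv⟩
          have h2 : b ∈ cut A D := by
            rw [mem_cut]
            exact ⟨τ v, hv, h1, fun j _ hj => hbu j (τ v) hj h1⟩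
          rw [hb', mem_singleton] at h2
          have h3 : φ v = b' := hψb ⟨v, hv⟩ (h.trans h2)
          exact hφb v (h3.trans h2.symm)
        · simp only [hv, dif_neg, not_false_eq_true]
          exact hφb v
    · -- a set of colours with exactly two colours of every list
      push Not at hex
      obtain ⟨F, hbF, hF⟩ := two_part_odd (2 * m + 1) (by omega) A
        (fun i => by rw [hA i]; ring) hdeg b hb hex
      obtain ⟨c⟩ := hcol
      let S : Set V := {v | ∃ h : v ∉ B, (c ⟨v, h⟩).1 < 2}
      have hS2 : (G.induce S).Colorable (2 * 1) := by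
        refine ⟨SimpleGraph.Coloring.mk (fun v => (⟨(c ⟨v.1, v.2.choose⟩).1,
          v.2.choose_spec⟩ : Fin (2 * 1))) ?_⟩
        intro u v huv h
        have h1 := c.valid (v := ⟨u.1, u.2.choose⟩) (w := ⟨v.1, v.2.choose⟩) huv
        apply h1
        have h2 := congrArg Fin.val h
        exact Fin.ext h2
      obtain ⟨f2, hf2, hf2p⟩ := sparse_even_T 1 S (G.induce S) (clawFree_hereditary V G S hG) hS2
        (fun i => A i ∩ F) (fun i => by rw [hF i]) (fun c => by
          refine le_trans (Finset.card_le_card ?_) (hdeg c)
          intro i hi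
          rw [mem_filter] at hi ⊢
          exact ⟨hi.1, (mem_inter.1 hi.2).1⟩) (fun v => τ v.1)
      let B1 : Set (Sᶜ : Set V) := {v | v.1 ∈ B}
      have hR : ((G.induce Sᶜ).induce B1ᶜ).Colorable (2 * m) := by
        have hge : ∀ v : (B1ᶜ : Set (Sᶜ : Set V)), 2 ≤ (c ⟨v.1.1, v.2⟩).1 := by
          intro v
          by_contra hlt
          rw [not_le] at hlt
          exact v.1.2 ⟨v.2, hlt⟩
        refine ⟨SimpleGraph.Coloring.mk (fun v => (⟨(c ⟨v.1.1, v.2⟩).1 - 2, by
          have h1 := hge v
          have h2 := (c ⟨v.1.1, v.2⟩).2
          omega⟩ : Fin (2 * m))) ?_⟩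
        intro u v huv h
        have h1 := c.valid (v := ⟨u.1.1, u.2⟩) (w := ⟨v.1.1, v.2⟩) huv
        apply h1
        have h2 := congrArg Fin.val h
        simp only at h2
        have h3 := hge u
        have h4 := hge v
        exact Fin.ext (by omega)
      obtain ⟨f1, hf1, hf1p, hf1b⟩ := ihm _ T rfl (fun i => A i \ F) (fun i => by
          have h1 := Finset.card_sdiff_add_card_inter (A i) F
          have h2 := hF i
          have h3 := hA i
          omega) (fun c => by
          refine le_trans (Finset.card_le_card ?_) (hdeg c)
          intro i hi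
          rw [mem_filter] at hi ⊢
          exact ⟨hi.1, (mem_sdiff.1 hi.2).1⟩) b (by
          refine le_trans (Finset.card_le_card ?_) hb
          intro i hi
          rw [mem_filter] at hi ⊢
          exact ⟨hi.1, (mem_sdiff.1 hi.2).1⟩) (Sᶜ : Set V) (G.induce Sᶜ)
          (clawFree_hereditary V G Sᶜ hG) B1 (by
          intro u v hu hv huv
          exact hB u.1 v.1 hu hv huv) hR (fun v => τ v.1)
      have hne : ∀ u v (hu : u ∈ S) (hv : v ∈ Sᶜ), f2 ⟨u, hu⟩ ≠ f1 ⟨v, hv⟩ := by
        intro u v hu hv h
        have h1 := (mem_inter.1 (hf2 ⟨u, hu⟩)).2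
        rw [h] at h1
        exact (mem_sdiff.1 (hf1 ⟨v, hv⟩)).2 h1
      refine ⟨fun v => if hv : v ∈ S then f2 ⟨v, hv⟩ else f1 ⟨v, hv⟩, fun v => ?_,
        fun u v huv => ?_, fun v => ?_⟩
      · by_cases hv : v ∈ S
        · simp only [hv, dif_pos]
          exact (mem_inter.1 (hf2 ⟨v, hv⟩)).1
        · simp only [hv, dif_neg, not_false_eq_true]
          exact (mem_sdiff.1 (hf1 ⟨v, hv⟩)).1
      · by_cases hu : u ∈ S
        · by_cases hv : v ∈ S
          · simp only [hu, hv, dif_pos]
            exact hf2p ⟨u, hu⟩ ⟨v, hv⟩ huv
          · simp only [hu, hv, dif_pos, dif_neg, not_false_eq_true]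
            exact hne u v hu hv
        · by_cases hv : v ∈ S
          · simp only [hu, hv, dif_pos, dif_neg, not_false_eq_true]
            exact (hne v u hv hu).symm
          · simp only [hu, hv, dif_neg, not_false_eq_true]
            exact hf1p ⟨u, hu⟩ ⟨v, hv⟩ huv
      · by_cases hv : v ∈ S
        · simp only [hv, dif_pos]
          intro h
          exfalso
          apply hbF
          rw [← h]
          exact (mem_inter.1 (hf2 ⟨v, hv⟩)).2
        · simp only [hv, dif_neg, not_false_eq_true]
          intro h
          exact hf1b ⟨v, hv⟩ h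

end Pool.Agent.H29.FewLists
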