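import Pool.Agent.H29.FewLists.Systems

/-!
# Indecomposable regular multihypergraphs on four points
(generated)
-/

namespace Pool.Agent.H29.FewLists

/-- Sums over the sets which contain a given element, `t = 4`. -/
theorem sum4 (n : Finset (Fin 4) → ℕ) :
    (∑ S ∈ Finset.univ.filter (fun S : Finset (Fin 4) => (0 : Fin 4) ∈ S), n S = n {0} + n {0, 1} + n {0, 2} + n {0, 1, 2} + n {0, 3} + n {0, 1, 3} + n {0, 2, 3} + n {0, 1, 2, 3}) ∧
    (∑ S ∈ Finset.univ.filter (fun S : Finset (Fin 4) => (1 : Fin 4) ∈ S), n S = n {1} + n {0, 1} + n {1, 2} + n {0, 1, 2} + n {1, 3} + n {0, 1, 3} + n {1, 2, 3} + n {0, 1, 2, 3}) ∧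
    (∑ S ∈ Finset.univ.filter (fun S : Finset (Fin 4) => (2 : Fin 4) ∈ S), n S = n {2} + n {0, 2} + n {1, 2} + n {0, 1, 2} + n {2, 3} + n {0, 2, 3} + n {1, 2, 3} + n {0, 1, 2, 3}) ∧
    (∑ S ∈ Finset.univ.filter (fun S : Finset (Fin 4) => (3 : Fin 4) ∈ S), n S = n {3} + n {0, 3} + n {1, 3} + n {0, 1, 3} + n {2, 3} + n {0, 2, 3} + n {1, 2, 3} + n {0, 1, 2, 3}) := by
  refine ⟨?_, ?_, ?_, ?_⟩
  · rw [show Finset.univ.filter (fun S : Finset (Fin 4) => (0 : Fin 4) ∈ S) = {{0}, {0, 1}, {0, 2}, {0, 1, 2}, {0, 3}, {0, 1, 3}, {0, 2, 3}, {0, 1, 2, 3}} by decide +kernel]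
    rw [Finset.sum_insert (by decide +kernel), Finset.sum_insert (by decide +kernel), Finset.sum_insert (by decide +kernel), Finset.sum_insert (by decide +kernel), Finset.sum_insert (by decide +kernel), Finset.sum_insert (by decide +kernel), Finset.sum_insert (by decide +kernel), Finset.sum_singleton]
    ring
  · rw [show Finset.univ.filter (fun S : Finset (Fin 4) => (1 : Fin 4) ∈ S) = {{1}, {0, 1}, {1, 2}, {0, 1, 2}, {1, 3}, {0, 1, 3}, {1, 2, 3}, {0, 1, 2, 3}} by decide +kernel]
    rw [Finset.sum_insert (by decide +kernel), Finset.sum_insert (by decide +kernel), Finset.sum_insert (by decide +kernel), Finset.sum_insert (by decide +kernel), Finset.sum_insert (by decide +kernel), Finset.sum_insert (by decide +kernel), Finset.sum_insert (by decide +kernel), Finset.sum_singleton]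
    ring
  · rw [show Finset.univ.filter (fun S : Finset (Fin 4) => (2 : Fin 4) ∈ S) = {{2}, {0, 2}, {1, 2}, {0, 1, 2}, {2, 3}, {0, 2, 3}, {1, 2, 3}, {0, 1, 2, 3}} by decide +kernel]
    rw [Finset.sum_insert (by decide +kernel), Finset.sum_insert (by decide +kernel), Finset.sum_insert (by decide +kernel), Finset.sum_insert (by decide +kernel), Finset.sum_insert (by decide +kernel), Finset.sum_insert (by decide +kernel), Finset.sum_insert (by decide +kernel), Finset.sum_singleton]
    ring
  · rw [show Finset.univ.filter (fun S : Finset (Fin 4) => (3 : Fin 4) ∈ S) = {{3}, {0, 3}, {1, 3}, {0, 1, 3}, {2, 3}, {0, 2, 3}, {1, 2, 3}, {0, 1, 2, 3}} by decide +kernel]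
    rw [Finset.sum_insert (by decide +kernel), Finset.sum_insert (by decide +kernel), Finset.sum_insert (by decide +kernel), Finset.sum_insert (by decide +kernel), Finset.sum_insert (by decide +kernel), Finset.sum_insert (by decide +kernel), Finset.sum_insert (by decide +kernel), Finset.sum_singleton]
    ring

theorem pat4 (n : Finset (Fin 4) → ℕ) (ℓ : List (Finset (Fin 4))) (d : ℕ) (hd : 0 < d ∧ d ≤ 3)
    (hr : (ℓ.count ∅ = 0) ∧ ∀ i : Fin 4, ∑ S ∈ Finset.univ.filter (fun S : Finset (Fin 4) => i ∈ S), ℓ.count S = d)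
    (h : ∀ S ∈ ℓ, ℓ.count S ≤ n S) :
    ∃ (m : Finset (Fin 4) → ℕ) (d : ℕ), 0 < d ∧ d ≤ 3 ∧ Regular m d ∧ ∀ S, m S ≤ n S := by
  refine ⟨fun S => ℓ.count S, d, hd.1, hd.2, hr, fun S => ?_⟩
  by_cases hS : S ∈ ℓ
  · exact h S hS
  · show ℓ.count S ≤ n S
    rw [List.count_eq_zero_of_not_mem hS]
    exact Nat.zero_le _

theorem pat4_0 (n : Finset (Fin 4) → ℕ) (h1 : 1 ≤ n {0}) (h2 : 1 ≤ n {1}) (h4 : 1 ≤ n {2}) (h8 : 1 ≤ n {3}) :
    ∃ (m : Finset (Fin 4) → ℕ) (d : ℕ), 0 < d ∧ d ≤ 3 ∧ Regular m d ∧ ∀ S, m S ≤ n S := by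
  apply pat4 n [{0}, {1}, {2}, {3}] 1 (by decide) (by decide +kernel)
  intro S hS
  simp only [List.mem_cons, List.not_mem_nil, or_false] at hS
  rcases hS with rfl | rfl | rfl | rfl
  · exact le_of_eq_of_le (by decide +kernel) h1
  · exact le_of_eq_of_le (by decide +kernel) h2
  · exact le_of_eq_of_le (by decide +kernel) h4
  · exact le_of_eq_of_le (by decide +kernel) h8

theorem pat4_1 (n : Finset (Fin 4) → ℕ) (h15 : 1 ≤ n {0, 1, 2, 3}) :
    ∃ (m : Finset (Fin 4) → ℕ) (d : ℕ), 0 < d ∧ d ≤ 3 ∧ Regular m d ∧ ∀ S, m S ≤ n S := by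
  apply pat4 n [{0, 1, 2, 3}] 1 (by decide) (by decide +kernel)
  intro S hS
  simp only [List.mem_cons, List.not_mem_nil, or_false] at hS
  subst hS
  · exact le_of_eq_of_le (by decide +kernel) h15

theorem pat4_2 (n : Finset (Fin 4) → ℕ) (h6 : 1 ≤ n {1, 2}) (h9 : 1 ≤ n {0, 3}) :
    ∃ (m : Finset (Fin 4) → ℕ) (d : ℕ), 0 < d ∧ d ≤ 3 ∧ Regular m d ∧ ∀ S, m S ≤ n S := by
  apply pat4 n [{1, 2}, {0, 3}] 1 (by decide) (by decide +kernel)
  intro S hS
  simp only [List.mem_cons, List.not_mem_nil, or_false] at hS
  rcases hS with rfl | rfl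
  · exact le_of_eq_of_le (by decide +kernel) h6
  · exact le_of_eq_of_le (by decide +kernel) h9

theorem pat4_3 (n : Finset (Fin 4) → ℕ) (h2 : 1 ≤ n {1}) (h5 : 1 ≤ n {0, 2}) (h8 : 1 ≤ n {3}) :
    ∃ (m : Finset (Fin 4) → ℕ) (d : ℕ), 0 < d ∧ d ≤ 3 ∧ Regular m d ∧ ∀ S, m S ≤ n S := by
  apply pat4 n [{1}, {0, 2}, {3}] 1 (by decide) (by decide +kernel)
  intro S hS
  simp only [List.mem_cons, List.not_mem_nil, or_false] at hS
  rcases hS with rfl | rfl | rfl
  · exact le_of_eq_of_le (by decide +kernel) h2
  · exact le_of_eq_of_le (by decide +kernel) h5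
  · exact le_of_eq_of_le (by decide +kernel) h8

theorem pat4_4 (n : Finset (Fin 4) → ℕ) (h1 : 1 ≤ n {0}) (h4 : 1 ≤ n {2}) (h10 : 1 ≤ n {1, 3}) :
    ∃ (m : Finset (Fin 4) → ℕ) (d : ℕ), 0 < d ∧ d ≤ 3 ∧ Regular m d ∧ ∀ S, m S ≤ n S := by
  apply pat4 n [{0}, {2}, {1, 3}] 1 (by decide) (by decide +kernel)
  intro S hS
  simp only [List.mem_cons, List.not_mem_nil, or_false] at hS
  rcases hS with rfl | rfl | rfl
  · exact le_of_eq_of_le (by decide +kernel) h1
  · exact le_of_eq_of_le (by decide +kernel) h4
  · exact le_of_eq_of_le (by decide +kernel) h10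

theorem pat4_5 (n : Finset (Fin 4) → ℕ) (h1 : 1 ≤ n {0}) (h14 : 1 ≤ n {1, 2, 3}) :
    ∃ (m : Finset (Fin 4) → ℕ) (d : ℕ), 0 < d ∧ d ≤ 3 ∧ Regular m d ∧ ∀ S, m S ≤ n S := by
  apply pat4 n [{0}, {1, 2, 3}] 1 (by decide) (by decide +kernel)
  intro S hS
  simp only [List.mem_cons, List.not_mem_nil, or_false] at hS
  rcases hS with rfl | rfl
  · exact le_of_eq_of_le (by decide +kernel) h1
  · exact le_of_eq_of_le (by decide +kernel) h14

theorem pat4_6 (n : Finset (Fin 4) → ℕ) (h2 : 1 ≤ n {1}) (h13 : 1 ≤ n {0, 2, 3}) :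
    ∃ (m : Finset (Fin 4) → ℕ) (d : ℕ), 0 < d ∧ d ≤ 3 ∧ Regular m d ∧ ∀ S, m S ≤ n S := by
  apply pat4 n [{1}, {0, 2, 3}] 1 (by decide) (by decide +kernel)
  intro S hS
  simp only [List.mem_cons, List.not_mem_nil, or_false] at hS
  rcases hS with rfl | rfl
  · exact le_of_eq_of_le (by decide +kernel) h2
  · exact le_of_eq_of_le (by decide +kernel) h13

theorem pat4_7 (n : Finset (Fin 4) → ℕ) (h1 : 1 ≤ n {0}) (h2 : 1 ≤ n {1}) (h12 : 1 ≤ n {2, 3}) :
    ∃ (m : Finset (Fin 4) → ℕ) (d : ℕ), 0 < d ∧ d ≤ 3 ∧ Regular m d ∧ ∀ S, m S ≤ n S := by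
  apply pat4 n [{0}, {1}, {2, 3}] 1 (by decide) (by decide +kernel)
  intro S hS
  simp only [List.mem_cons, List.not_mem_nil, or_false] at hS
  rcases hS with rfl | rfl | rfl
  · exact le_of_eq_of_le (by decide +kernel) h1
  · exact le_of_eq_of_le (by decide +kernel) h2
  · exact le_of_eq_of_le (by decide +kernel) h12

theorem pat4_8 (n : Finset (Fin 4) → ℕ) (h3 : 1 ≤ n {0, 1}) (h4 : 1 ≤ n {2}) (h8 : 1 ≤ n {3}) :
    ∃ (m : Finset (Fin 4) → ℕ) (d : ℕ), 0 < d ∧ d ≤ 3 ∧ Regular m d ∧ ∀ S, m S ≤ n S := by
  apply pat4 n [{0, 1}, {2}, {3}] 1 (by decide) (by decide +kernel)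
  intro S hS
  simp only [List.mem_cons, List.not_mem_nil, or_false] at hS
  rcases hS with rfl | rfl | rfl
  · exact le_of_eq_of_le (by decide +kernel) h3
  · exact le_of_eq_of_le (by decide +kernel) h4
  · exact le_of_eq_of_le (by decide +kernel) h8

theorem pat4_9 (n : Finset (Fin 4) → ℕ) (h5 : 1 ≤ n {0, 2}) (h10 : 1 ≤ n {1, 3}) :
    ∃ (m : Finset (Fin 4) → ℕ) (d : ℕ), 0 < d ∧ d ≤ 3 ∧ Regular m d ∧ ∀ S, m S ≤ n S := by
  apply pat4 n [{0, 2}, {1, 3}] 1 (by decide) (by decide +kernel)
  intro S hS
  simp only [List.mem_cons, List.not_mem_nil, or_false] at hS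
  rcases hS with rfl | rfl
  · exact le_of_eq_of_le (by decide +kernel) h5
  · exact le_of_eq_of_le (by decide +kernel) h10

theorem pat4_10 (n : Finset (Fin 4) → ℕ) (h1 : 1 ≤ n {0}) (h6 : 1 ≤ n {1, 2}) (h8 : 1 ≤ n {3}) :
    ∃ (m : Finset (Fin 4) → ℕ) (d : ℕ), 0 < d ∧ d ≤ 3 ∧ Regular m d ∧ ∀ S, m S ≤ n S := by
  apply pat4 n [{0}, {1, 2}, {3}] 1 (by decide) (by decide +kernel)
  intro S hS
  simp only [List.mem_cons, List.not_mem_nil, or_false] at hS
  rcases hS with rfl | rfl | rfl
  · exact le_of_eq_of_le (by decide +kernel) h1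
  · exact le_of_eq_of_le (by decide +kernel) h6
  · exact le_of_eq_of_le (by decide +kernel) h8

theorem pat4_11 (n : Finset (Fin 4) → ℕ) (h3 : 1 ≤ n {0, 1}) (h12 : 1 ≤ n {2, 3}) :
    ∃ (m : Finset (Fin 4) → ℕ) (d : ℕ), 0 < d ∧ d ≤ 3 ∧ Regular m d ∧ ∀ S, m S ≤ n S := by
  apply pat4 n [{0, 1}, {2, 3}] 1 (by decide) (by decide +kernel)
  intro S hS
  simp only [List.mem_cons, List.not_mem_nil, or_false] at hS
  rcases hS with rfl | rfl
  · exact le_of_eq_of_le (by decide +kernel) h3
  · exact le_of_eq_of_le (by decide +kernel) h12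

theorem pat4_12 (n : Finset (Fin 4) → ℕ) (h4 : 1 ≤ n {2}) (h11 : 1 ≤ n {0, 1, 3}) :
    ∃ (m : Finset (Fin 4) → ℕ) (d : ℕ), 0 < d ∧ d ≤ 3 ∧ Regular m d ∧ ∀ S, m S ≤ n S := by
  apply pat4 n [{2}, {0, 1, 3}] 1 (by decide) (by decide +kernel)
  intro S hS
  simp only [List.mem_cons, List.not_mem_nil, or_false] at hS
  rcases hS with rfl | rfl
  · exact le_of_eq_of_le (by decide +kernel) h4
  · exact le_of_eq_of_le (by decide +kernel) h11

theorem pat4_13 (n : Finset (Fin 4) → ℕ) (h2 : 1 ≤ n {1}) (h4 : 1 ≤ n {2}) (h9 : 1 ≤ n {0, 3}) :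
    ∃ (m : Finset (Fin 4) → ℕ) (d : ℕ), 0 < d ∧ d ≤ 3 ∧ Regular m d ∧ ∀ S, m S ≤ n S := by
  apply pat4 n [{1}, {2}, {0, 3}] 1 (by decide) (by decide +kernel)
  intro S hS
  simp only [List.mem_cons, List.not_mem_nil, or_false] at hS
  rcases hS with rfl | rfl | rfl
  · exact le_of_eq_of_le (by decide +kernel) h2
  · exact le_of_eq_of_le (by decide +kernel) h4
  · exact le_of_eq_of_le (by decide +kernel) h9

theorem pat4_14 (n : Finset (Fin 4) → ℕ) (h7 : 1 ≤ n {0, 1, 2}) (h8 : 1 ≤ n {3}) :
    ∃ (m : Finset (Fin 4) → ℕ) (d : ℕ), 0 < d ∧ d ≤ 3 ∧ Regular m d ∧ ∀ S, m S ≤ n S := by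
  apply pat4 n [{0, 1, 2}, {3}] 1 (by decide) (by decide +kernel)
  intro S hS
  simp only [List.mem_cons, List.not_mem_nil, or_false] at hS
  rcases hS with rfl | rfl
  · exact le_of_eq_of_le (by decide +kernel) h7
  · exact le_of_eq_of_le (by decide +kernel) h8

theorem pat4_15 (n : Finset (Fin 4) → ℕ) (h7 : 1 ≤ n {0, 1, 2}) (h10 : 1 ≤ n {1, 3}) (h13 : 1 ≤ n {0, 2, 3}) :
    ∃ (m : Finset (Fin 4) → ℕ) (d : ℕ), 0 < d ∧ d ≤ 3 ∧ Regular m d ∧ ∀ S, m S ≤ n S := by
  apply pat4 n [{0, 1, 2}, {1, 3}, {0, 2, 3}] 2 (by decide) (by decide +kernel)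
  intro S hS
  simp only [List.mem_cons, List.not_mem_nil, or_false] at hS
  rcases hS with rfl | rfl | rfl
  · exact le_of_eq_of_le (by decide +kernel) h7
  · exact le_of_eq_of_le (by decide +kernel) h10
  · exact le_of_eq_of_le (by decide +kernel) h13

theorem pat4_16 (n : Finset (Fin 4) → ℕ) (h2 : 2 ≤ n {1}) (h5 : 1 ≤ n {0, 2}) (h9 : 1 ≤ n {0, 3}) (h12 : 1 ≤ n {2, 3}) :
    ∃ (m : Finset (Fin 4) → ℕ) (d : ℕ), 0 < d ∧ d ≤ 3 ∧ Regular m d ∧ ∀ S, m S ≤ n S := by
  apply pat4 n [{1}, {1}, {0, 2}, {0, 3}, {2, 3}] 2 (by decide) (by decide +kernel)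
  intro S hS
  simp only [List.mem_cons, List.not_mem_nil, or_false] at hS
  rcases hS with rfl | rfl | rfl | rfl | rfl
  · exact le_of_eq_of_le (by decide +kernel) h2
  · exact le_of_eq_of_le (by decide +kernel) h2
  · exact le_of_eq_of_le (by decide +kernel) h5
  · exact le_of_eq_of_le (by decide +kernel) h9
  · exact le_of_eq_of_le (by decide +kernel) h12

theorem pat4_17 (n : Finset (Fin 4) → ℕ) (h1 : 1 ≤ n {0}) (h6 : 1 ≤ n {1, 2}) (h10 : 1 ≤ n {1, 3}) (h13 : 1 ≤ n {0, 2, 3}) :
    ∃ (m : Finset (Fin 4) → ℕ) (d : ℕ), 0 < d ∧ d ≤ 3 ∧ Regular m d ∧ ∀ S, m S ≤ n S := by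
  apply pat4 n [{0}, {1, 2}, {1, 3}, {0, 2, 3}] 2 (by decide) (by decide +kernel)
  intro S hS
  simp only [List.mem_cons, List.not_mem_nil, or_false] at hS
  rcases hS with rfl | rfl | rfl | rfl
  · exact le_of_eq_of_le (by decide +kernel) h1
  · exact le_of_eq_of_le (by decide +kernel) h6
  · exact le_of_eq_of_le (by decide +kernel) h10
  · exact le_of_eq_of_le (by decide +kernel) h13

theorem pat4_18 (n : Finset (Fin 4) → ℕ) (h3 : 1 ≤ n {0, 1}) (h5 : 1 ≤ n {0, 2}) (h8 : 1 ≤ n {3}) (h14 : 1 ≤ n {1, 2, 3}) :
    ∃ (m : Finset (Fin 4) → ℕ) (d : ℕ), 0 < d ∧ d ≤ 3 ∧ Regular m d ∧ ∀ S, m S ≤ n S := by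
  apply pat4 n [{0, 1}, {0, 2}, {3}, {1, 2, 3}] 2 (by decide) (by decide +kernel)
  intro S hS
  simp only [List.mem_cons, List.not_mem_nil, or_false] at hS
  rcases hS with rfl | rfl | rfl | rfl
  · exact le_of_eq_of_le (by decide +kernel) h3
  · exact le_of_eq_of_le (by decide +kernel) h5
  · exact le_of_eq_of_le (by decide +kernel) h8
  · exact le_of_eq_of_le (by decide +kernel) h14

theorem pat4_19 (n : Finset (Fin 4) → ℕ) (h1 : 1 ≤ n {0}) (h7 : 1 ≤ n {0, 1, 2}) (h10 : 1 ≤ n {1, 3}) (h12 : 1 ≤ n {2, 3}) :
    ∃ (m : Finset (Fin 4) → ℕ) (d : ℕ), 0 < d ∧ d ≤ 3 ∧ Regular m d ∧ ∀ S, m S ≤ n S := by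
  apply pat4 n [{0}, {0, 1, 2}, {1, 3}, {2, 3}] 2 (by decide) (by decide +kernel)
  intro S hS
  simp only [List.mem_cons, List.not_mem_nil, or_false] at hS
  rcases hS with rfl | rfl | rfl | rfl
  · exact le_of_eq_of_le (by decide +kernel) h1
  · exact le_of_eq_of_le (by decide +kernel) h7
  · exact le_of_eq_of_le (by decide +kernel) h10
  · exact le_of_eq_of_le (by decide +kernel) h12

theorem pat4_20 (n : Finset (Fin 4) → ℕ) (h2 : 1 ≤ n {1}) (h7 : 1 ≤ n {0, 1, 2}) (h9 : 1 ≤ n {0, 3}) (h12 : 1 ≤ n {2, 3}) :
    ∃ (m : Finset (Fin 4) → ℕ) (d : ℕ), 0 < d ∧ d ≤ 3 ∧ Regular m d ∧ ∀ S, m S ≤ n S := by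
  apply pat4 n [{1}, {0, 1, 2}, {0, 3}, {2, 3}] 2 (by decide) (by decide +kernel)
  intro S hS
  simp only [List.mem_cons, List.not_mem_nil, or_false] at hS
  rcases hS with rfl | rfl | rfl | rfl
  · exact le_of_eq_of_le (by decide +kernel) h2
  · exact le_of_eq_of_le (by decide +kernel) h7
  · exact le_of_eq_of_le (by decide +kernel) h9
  · exact le_of_eq_of_le (by decide +kernel) h12

theorem pat4_21 (n : Finset (Fin 4) → ℕ) (h4 : 1 ≤ n {2}) (h7 : 1 ≤ n {0, 1, 2}) (h9 : 1 ≤ n {0, 3}) (h10 : 1 ≤ n {1, 3}) :
    ∃ (m : Finset (Fin 4) → ℕ) (d : ℕ), 0 < d ∧ d ≤ 3 ∧ Regular m d ∧ ∀ S, m S ≤ n S := by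
  apply pat4 n [{2}, {0, 1, 2}, {0, 3}, {1, 3}] 2 (by decide) (by decide +kernel)
  intro S hS
  simp only [List.mem_cons, List.not_mem_nil, or_false] at hS
  rcases hS with rfl | rfl | rfl | rfl
  · exact le_of_eq_of_le (by decide +kernel) h4
  · exact le_of_eq_of_le (by decide +kernel) h7
  · exact le_of_eq_of_le (by decide +kernel) h9
  · exact le_of_eq_of_le (by decide +kernel) h10

theorem pat4_22 (n : Finset (Fin 4) → ℕ) (h3 : 1 ≤ n {0, 1}) (h4 : 1 ≤ n {2}) (h9 : 1 ≤ n {0, 3}) (h14 : 1 ≤ n {1, 2, 3}) :
    ∃ (m : Finset (Fin 4) → ℕ) (d : ℕ), 0 < d ∧ d ≤ 3 ∧ Regular m d ∧ ∀ S, m S ≤ n S := by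
  apply pat4 n [{0, 1}, {2}, {0, 3}, {1, 2, 3}] 2 (by decide) (by decide +kernel)
  intro S hS
  simp only [List.mem_cons, List.not_mem_nil, or_false] at hS
  rcases hS with rfl | rfl | rfl | rfl
  · exact le_of_eq_of_le (by decide +kernel) h3
  · exact le_of_eq_of_le (by decide +kernel) h4
  · exact le_of_eq_of_le (by decide +kernel) h9
  · exact le_of_eq_of_le (by decide +kernel) h14

theorem pat4_23 (n : Finset (Fin 4) → ℕ) (h7 : 1 ≤ n {0, 1, 2}) (h11 : 1 ≤ n {0, 1, 3}) (h12 : 1 ≤ n {2, 3}) :
    ∃ (m : Finset (Fin 4) → ℕ) (d : ℕ), 0 < d ∧ d ≤ 3 ∧ Regular m d ∧ ∀ S, m S ≤ n S := by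
  apply pat4 n [{0, 1, 2}, {0, 1, 3}, {2, 3}] 2 (by decide) (by decide +kernel)
  intro S hS
  simp only [List.mem_cons, List.not_mem_nil, or_false] at hS
  rcases hS with rfl | rfl | rfl
  · exact le_of_eq_of_le (by decide +kernel) h7
  · exact le_of_eq_of_le (by decide +kernel) h11
  · exact le_of_eq_of_le (by decide +kernel) h12

theorem pat4_24 (n : Finset (Fin 4) → ℕ) (h1 : 2 ≤ n {0}) (h6 : 1 ≤ n {1, 2}) (h10 : 1 ≤ n {1, 3}) (h12 : 1 ≤ n {2, 3}) :
    ∃ (m : Finset (Fin 4) → ℕ) (d : ℕ), 0 < d ∧ d ≤ 3 ∧ Regular m d ∧ ∀ S, m S ≤ n S := by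
  apply pat4 n [{0}, {0}, {1, 2}, {1, 3}, {2, 3}] 2 (by decide) (by decide +kernel)
  intro S hS
  simp only [List.mem_cons, List.not_mem_nil, or_false] at hS
  rcases hS with rfl | rfl | rfl | rfl | rfl
  · exact le_of_eq_of_le (by decide +kernel) h1
  · exact le_of_eq_of_le (by decide +kernel) h1
  · exact le_of_eq_of_le (by decide +kernel) h6
  · exact le_of_eq_of_le (by decide +kernel) h10
  · exact le_of_eq_of_le (by decide +kernel) h12

theorem pat4_25 (n : Finset (Fin 4) → ℕ) (h3 : 1 ≤ n {0, 1}) (h5 : 1 ≤ n {0, 2}) (h6 : 1 ≤ n {1, 2}) (h8 : 2 ≤ n {3}) :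
    ∃ (m : Finset (Fin 4) → ℕ) (d : ℕ), 0 < d ∧ d ≤ 3 ∧ Regular m d ∧ ∀ S, m S ≤ n S := by
  apply pat4 n [{0, 1}, {0, 2}, {1, 2}, {3}, {3}] 2 (by decide) (by decide +kernel)
  intro S hS
  simp only [List.mem_cons, List.not_mem_nil, or_false] at hS
  rcases hS with rfl | rfl | rfl | rfl | rfl
  · exact le_of_eq_of_le (by decide +kernel) h3
  · exact le_of_eq_of_le (by decide +kernel) h5
  · exact le_of_eq_of_le (by decide +kernel) h6
  · exact le_of_eq_of_le (by decide +kernel) h8
  · exact le_of_eq_of_le (by decide +kernel) h8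

theorem pat4_26 (n : Finset (Fin 4) → ℕ) (h1 : 1 ≤ n {0}) (h6 : 1 ≤ n {1, 2}) (h11 : 1 ≤ n {0, 1, 3}) (h12 : 1 ≤ n {2, 3}) :
    ∃ (m : Finset (Fin 4) → ℕ) (d : ℕ), 0 < d ∧ d ≤ 3 ∧ Regular m d ∧ ∀ S, m S ≤ n S := by
  apply pat4 n [{0}, {1, 2}, {0, 1, 3}, {2, 3}] 2 (by decide) (by decide +kernel)
  intro S hS
  simp only [List.mem_cons, List.not_mem_nil, or_false] at hS
  rcases hS with rfl | rfl | rfl | rfl
  · exact le_of_eq_of_le (by decide +kernel) h1
  · exact le_of_eq_of_le (by decide +kernel) h6
  · exact le_of_eq_of_le (by decide +kernel) h11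
  · exact le_of_eq_of_le (by decide +kernel) h12

theorem pat4_27 (n : Finset (Fin 4) → ℕ) (h3 : 1 ≤ n {0, 1}) (h4 : 1 ≤ n {2}) (h10 : 1 ≤ n {1, 3}) (h13 : 1 ≤ n {0, 2, 3}) :
    ∃ (m : Finset (Fin 4) → ℕ) (d : ℕ), 0 < d ∧ d ≤ 3 ∧ Regular m d ∧ ∀ S, m S ≤ n S := by
  apply pat4 n [{0, 1}, {2}, {1, 3}, {0, 2, 3}] 2 (by decide) (by decide +kernel)
  intro S hS
  simp only [List.mem_cons, List.not_mem_nil, or_false] at hS
  rcases hS with rfl | rfl | rfl | rfl
  · exact le_of_eq_of_le (by decide +kernel) h3
  · exact le_of_eq_of_le (by decide +kernel) h4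
  · exact le_of_eq_of_le (by decide +kernel) h10
  · exact le_of_eq_of_le (by decide +kernel) h13

theorem pat4_28 (n : Finset (Fin 4) → ℕ) (h3 : 1 ≤ n {0, 1}) (h13 : 1 ≤ n {0, 2, 3}) (h14 : 1 ≤ n {1, 2, 3}) :
    ∃ (m : Finset (Fin 4) → ℕ) (d : ℕ), 0 < d ∧ d ≤ 3 ∧ Regular m d ∧ ∀ S, m S ≤ n S := by
  apply pat4 n [{0, 1}, {0, 2, 3}, {1, 2, 3}] 2 (by decide) (by decide +kernel)
  intro S hS
  simp only [List.mem_cons, List.not_mem_nil, or_false] at hS
  rcases hS with rfl | rfl | rfl
  · exact le_of_eq_of_le (by decide +kernel) h3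
  · exact le_of_eq_of_le (by decide +kernel) h13
  · exact le_of_eq_of_le (by decide +kernel) h14

theorem pat4_29 (n : Finset (Fin 4) → ℕ) (h5 : 1 ≤ n {0, 2}) (h11 : 1 ≤ n {0, 1, 3}) (h14 : 1 ≤ n {1, 2, 3}) :
    ∃ (m : Finset (Fin 4) → ℕ) (d : ℕ), 0 < d ∧ d ≤ 3 ∧ Regular m d ∧ ∀ S, m S ≤ n S := by
  apply pat4 n [{0, 2}, {0, 1, 3}, {1, 2, 3}] 2 (by decide) (by decide +kernel)
  intro S hS
  simp only [List.mem_cons, List.not_mem_nil, or_false] at hS
  rcases hS with rfl | rfl | rfl
  · exact le_of_eq_of_le (by decide +kernel) h5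
  · exact le_of_eq_of_le (by decide +kernel) h11
  · exact le_of_eq_of_le (by decide +kernel) h14

theorem pat4_30 (n : Finset (Fin 4) → ℕ) (h6 : 1 ≤ n {1, 2}) (h11 : 1 ≤ n {0, 1, 3}) (h13 : 1 ≤ n {0, 2, 3}) :
    ∃ (m : Finset (Fin 4) → ℕ) (d : ℕ), 0 < d ∧ d ≤ 3 ∧ Regular m d ∧ ∀ S, m S ≤ n S := by
  apply pat4 n [{1, 2}, {0, 1, 3}, {0, 2, 3}] 2 (by decide) (by decide +kernel)
  intro S hS
  simp only [List.mem_cons, List.not_mem_nil, or_false] at hS
  rcases hS with rfl | rfl | rfl
  · exact le_of_eq_of_le (by decide +kernel) h6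
  · exact le_of_eq_of_le (by decide +kernel) h11
  · exact le_of_eq_of_le (by decide +kernel) h13

theorem pat4_31 (n : Finset (Fin 4) → ℕ) (h3 : 1 ≤ n {0, 1}) (h4 : 2 ≤ n {2}) (h9 : 1 ≤ n {0, 3}) (h10 : 1 ≤ n {1, 3}) :
    ∃ (m : Finset (Fin 4) → ℕ) (d : ℕ), 0 < d ∧ d ≤ 3 ∧ Regular m d ∧ ∀ S, m S ≤ n S := by
  apply pat4 n [{0, 1}, {2}, {2}, {0, 3}, {1, 3}] 2 (by decide) (by decide +kernel)
  intro S hS
  simp only [List.mem_cons, List.not_mem_nil, or_false] at hS
  rcases hS with rfl | rfl | rfl | rfl | rfl
  · exact le_of_eq_of_le (by decide +kernel) h3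
  · exact le_of_eq_of_le (by decide +kernel) h4
  · exact le_of_eq_of_le (by decide +kernel) h4
  · exact le_of_eq_of_le (by decide +kernel) h9
  · exact le_of_eq_of_le (by decide +kernel) h10

theorem pat4_32 (n : Finset (Fin 4) → ℕ) (h3 : 1 ≤ n {0, 1}) (h6 : 1 ≤ n {1, 2}) (h8 : 1 ≤ n {3}) (h13 : 1 ≤ n {0, 2, 3}) :
    ∃ (m : Finset (Fin 4) → ℕ) (d : ℕ), 0 < d ∧ d ≤ 3 ∧ Regular m d ∧ ∀ S, m S ≤ n S := by
  apply pat4 n [{0, 1}, {1, 2}, {3}, {0, 2, 3}] 2 (by decide) (by decide +kernel)
  intro S hS
  simp only [List.mem_cons, List.not_mem_nil, or_false] at hS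
  rcases hS with rfl | rfl | rfl | rfl
  · exact le_of_eq_of_le (by decide +kernel) h3
  · exact le_of_eq_of_le (by decide +kernel) h6
  · exact le_of_eq_of_le (by decide +kernel) h8
  · exact le_of_eq_of_le (by decide +kernel) h13

theorem pat4_33 (n : Finset (Fin 4) → ℕ) (h2 : 1 ≤ n {1}) (h5 : 1 ≤ n {0, 2}) (h11 : 1 ≤ n {0, 1, 3}) (h12 : 1 ≤ n {2, 3}) :
    ∃ (m : Finset (Fin 4) → ℕ) (d : ℕ), 0 < d ∧ d ≤ 3 ∧ Regular m d ∧ ∀ S, m S ≤ n S := by
  apply pat4 n [{1}, {0, 2}, {0, 1, 3}, {2, 3}] 2 (by decide) (by decide +kernel)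
  intro S hS
  simp only [List.mem_cons, List.not_mem_nil, or_false] at hS
  rcases hS with rfl | rfl | rfl | rfl
  · exact le_of_eq_of_le (by decide +kernel) h2
  · exact le_of_eq_of_le (by decide +kernel) h5
  · exact le_of_eq_of_le (by decide +kernel) h11
  · exact le_of_eq_of_le (by decide +kernel) h12

theorem pat4_34 (n : Finset (Fin 4) → ℕ) (h7 : 1 ≤ n {0, 1, 2}) (h9 : 1 ≤ n {0, 3}) (h14 : 1 ≤ n {1, 2, 3}) :
    ∃ (m : Finset (Fin 4) → ℕ) (d : ℕ), 0 < d ∧ d ≤ 3 ∧ Regular m d ∧ ∀ S, m S ≤ n S := by
  apply pat4 n [{0, 1, 2}, {0, 3}, {1, 2, 3}] 2 (by decide) (by decide +kernel)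
  intro S hS
  simp only [List.mem_cons, List.not_mem_nil, or_false] at hS
  rcases hS with rfl | rfl | rfl
  · exact le_of_eq_of_le (by decide +kernel) h7
  · exact le_of_eq_of_le (by decide +kernel) h9
  · exact le_of_eq_of_le (by decide +kernel) h14

theorem pat4_35 (n : Finset (Fin 4) → ℕ) (h5 : 1 ≤ n {0, 2}) (h6 : 1 ≤ n {1, 2}) (h8 : 1 ≤ n {3}) (h11 : 1 ≤ n {0, 1, 3}) :
    ∃ (m : Finset (Fin 4) → ℕ) (d : ℕ), 0 < d ∧ d ≤ 3 ∧ Regular m d ∧ ∀ S, m S ≤ n S := by
  apply pat4 n [{0, 2}, {1, 2}, {3}, {0, 1, 3}] 2 (by decide) (by decide +kernel)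
  intro S hS
  simp only [List.mem_cons, List.not_mem_nil, or_false] at hS
  rcases hS with rfl | rfl | rfl | rfl
  · exact le_of_eq_of_le (by decide +kernel) h5
  · exact le_of_eq_of_le (by decide +kernel) h6
  · exact le_of_eq_of_le (by decide +kernel) h8
  · exact le_of_eq_of_le (by decide +kernel) h11

theorem pat4_36 (n : Finset (Fin 4) → ℕ) (h2 : 1 ≤ n {1}) (h5 : 1 ≤ n {0, 2}) (h9 : 1 ≤ n {0, 3}) (h14 : 1 ≤ n {1, 2, 3}) :
    ∃ (m : Finset (Fin 4) → ℕ) (d : ℕ), 0 < d ∧ d ≤ 3 ∧ Regular m d ∧ ∀ S, m S ≤ n S := by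
  apply pat4 n [{1}, {0, 2}, {0, 3}, {1, 2, 3}] 2 (by decide) (by decide +kernel)
  intro S hS
  simp only [List.mem_cons, List.not_mem_nil, or_false] at hS
  rcases hS with rfl | rfl | rfl | rfl
  · exact le_of_eq_of_le (by decide +kernel) h2
  · exact le_of_eq_of_le (by decide +kernel) h5
  · exact le_of_eq_of_le (by decide +kernel) h9
  · exact le_of_eq_of_le (by decide +kernel) h14

theorem pat4_37 (n : Finset (Fin 4) → ℕ) (h7 : 1 ≤ n {0, 1, 2}) (h11 : 1 ≤ n {0, 1, 3}) (h13 : 1 ≤ n {0, 2, 3}) (h14 : 1 ≤ n {1, 2, 3}) :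
    ∃ (m : Finset (Fin 4) → ℕ) (d : ℕ), 0 < d ∧ d ≤ 3 ∧ Regular m d ∧ ∀ S, m S ≤ n S := by
  apply pat4 n [{0, 1, 2}, {0, 1, 3}, {0, 2, 3}, {1, 2, 3}] 3 (by decide) (by decide +kernel)
  intro S hS
  simp only [List.mem_cons, List.not_mem_nil, or_false] at hS
  rcases hS with rfl | rfl | rfl | rfl
  · exact le_of_eq_of_le (by decide +kernel) h7
  · exact le_of_eq_of_le (by decide +kernel) h11
  · exact le_of_eq_of_le (by decide +kernel) h13
  · exact le_of_eq_of_le (by decide +kernel) h14

theorem pat4_38 (n : Finset (Fin 4) → ℕ) (h5 : 1 ≤ n {0, 2}) (h6 : 1 ≤ n {1, 2}) (h11 : 2 ≤ n {0, 1, 3}) (h12 : 1 ≤ n {2, 3}) :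
    ∃ (m : Finset (Fin 4) → ℕ) (d : ℕ), 0 < d ∧ d ≤ 3 ∧ Regular m d ∧ ∀ S, m S ≤ n S := by
  apply pat4 n [{0, 2}, {1, 2}, {0, 1, 3}, {0, 1, 3}, {2, 3}] 3 (by decide) (by decide +kernel)
  intro S hS
  simp only [List.mem_cons, List.not_mem_nil, or_false] at hS
  rcases hS with rfl | rfl | rfl | rfl | rfl
  · exact le_of_eq_of_le (by decide +kernel) h5
  · exact le_of_eq_of_le (by decide +kernel) h6
  · exact le_of_eq_of_le (by decide +kernel) h11
  · exact le_of_eq_of_le (by decide +kernel) h11
  · exact le_of_eq_of_le (by decide +kernel) h12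

theorem pat4_39 (n : Finset (Fin 4) → ℕ) (h3 : 1 ≤ n {0, 1}) (h6 : 1 ≤ n {1, 2}) (h10 : 1 ≤ n {1, 3}) (h13 : 2 ≤ n {0, 2, 3}) :
    ∃ (m : Finset (Fin 4) → ℕ) (d : ℕ), 0 < d ∧ d ≤ 3 ∧ Regular m d ∧ ∀ S, m S ≤ n S := by
  apply pat4 n [{0, 1}, {1, 2}, {1, 3}, {0, 2, 3}, {0, 2, 3}] 3 (by decide) (by decide +kernel)
  intro S hS
  simp only [List.mem_cons, List.not_mem_nil, or_false] at hS
  rcases hS with rfl | rfl | rfl | rfl | rfl
  · exact le_of_eq_of_le (by decide +kernel) h3
  · exact le_of_eq_of_le (by decide +kernel) h6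
  · exact le_of_eq_of_le (by decide +kernel) h10
  · exact le_of_eq_of_le (by decide +kernel) h13
  · exact le_of_eq_of_le (by decide +kernel) h13

theorem pat4_40 (n : Finset (Fin 4) → ℕ) (h3 : 1 ≤ n {0, 1}) (h5 : 1 ≤ n {0, 2}) (h9 : 1 ≤ n {0, 3}) (h14 : 2 ≤ n {1, 2, 3}) :
    ∃ (m : Finset (Fin 4) → ℕ) (d : ℕ), 0 < d ∧ d ≤ 3 ∧ Regular m d ∧ ∀ S, m S ≤ n S := by
  apply pat4 n [{0, 1}, {0, 2}, {0, 3}, {1, 2, 3}, {1, 2, 3}] 3 (by decide) (by decide +kernel)
  intro S hS
  simp only [List.mem_cons, List.not_mem_nil, or_false] at hS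
  rcases hS with rfl | rfl | rfl | rfl | rfl
  · exact le_of_eq_of_le (by decide +kernel) h3
  · exact le_of_eq_of_le (by decide +kernel) h5
  · exact le_of_eq_of_le (by decide +kernel) h9
  · exact le_of_eq_of_le (by decide +kernel) h14
  · exact le_of_eq_of_le (by decide +kernel) h14

theorem pat4_41 (n : Finset (Fin 4) → ℕ) (h7 : 2 ≤ n {0, 1, 2}) (h9 : 1 ≤ n {0, 3}) (h10 : 1 ≤ n {1, 3}) (h12 : 1 ≤ n {2, 3}) :
    ∃ (m : Finset (Fin 4) → ℕ) (d : ℕ), 0 < d ∧ d ≤ 3 ∧ Regular m d ∧ ∀ S, m S ≤ n S := by
  apply pat4 n [{0, 1, 2}, {0, 1, 2}, {0, 3}, {1, 3}, {2, 3}] 3 (by decide) (by decide +kernel)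
  intro S hS
  simp only [List.mem_cons, List.not_mem_nil, or_false] at hS
  rcases hS with rfl | rfl | rfl | rfl | rfl
  · exact le_of_eq_of_le (by decide +kernel) h7
  · exact le_of_eq_of_le (by decide +kernel) h7
  · exact le_of_eq_of_le (by decide +kernel) h9
  · exact le_of_eq_of_le (by decide +kernel) h10
  · exact le_of_eq_of_le (by decide +kernel) h12

theorem decomp4 (n : Finset (Fin 4) → ℕ) (k : ℕ) (hk : 0 < k) (hn : Regular n k) :
    ∃ (m : Finset (Fin 4) → ℕ) (d : ℕ), 0 < d ∧ d ≤ 3 ∧ Regular m d ∧ ∀ S, m S ≤ n S := by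
  obtain ⟨e0, e1, e2, e3⟩ := sum4 n
  have f0 := hn.2 0
  rw [e0] at f0
  clear e0
  have f1 := hn.2 1
  rw [e1] at f1
  clear e1
  have f2 := hn.2 2
  rw [e2] at f2
  clear e2
  have f3 := hn.2 3
  rw [e3] at f3
  clear e3
  generalize hx1 : n {0} = x1 at *
  generalize hx2 : n {1} = x2 at *
  generalize hx3 : n {0, 1} = x3 at *
  generalize hx4 : n {2} = x4 at *
  generalize hx5 : n {0, 2} = x5 at *
  generalize hx6 : n {1, 2} = x6 at *
  generalize hx7 : n {0, 1, 2} = x7 at *
  generalize hx8 : n {3} = x8 at *
  generalize hx9 : n {0, 3} = x9 at *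
  generalize hx10 : n {1, 3} = x10 at *
  generalize hx11 : n {0, 1, 3} = x11 at *
  generalize hx12 : n {2, 3} = x12 at *
  generalize hx13 : n {0, 2, 3} = x13 at *
  generalize hx14 : n {1, 2, 3} = x14 at *
  generalize hx15 : n {0, 1, 2, 3} = x15 at *
  rcases Nat.eq_zero_or_pos x15 with z15 | p15
  · rcases Nat.eq_zero_or_pos x1 with z1 | p1
    · rcases Nat.eq_zero_or_pos x3 with z3 | p3
      · rcases Nat.eq_zero_or_pos x7 with z7 | p7
        · rcases Nat.eq_zero_or_pos x5 with z5 | p5
          · rcases Nat.eq_zero_or_pos x2 with z2 | p2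
            · rcases Nat.eq_zero_or_pos x6 with z6 | p6
              · rcases Nat.eq_zero_or_pos x4 with z4 | p4
                · exact absurd hk (by omega)
                · rcases Nat.eq_zero_or_pos x11 with z11 | p11
                  · exact absurd hk (by omega)
                  · exact pat4_12 n (by omega) (by omega)
              · rcases Nat.eq_zero_or_pos x9 with z9 | p9
                · rcases Nat.eq_zero_or_pos x11 with z11 | p11
                  · exact absurd hk (by omega)
                  · rcases Nat.eq_zero_or_pos x4 with z4 | p4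
                    · rcases Nat.eq_zero_or_pos x13 with z13 | p13
                      · exact absurd hk (by omega)
                      · exact pat4_30 n (by omega) (by omega) (by omega)
                    · exact pat4_12 n (by omega) (by omega)
                · exact pat4_2 n (by omega) (by omega)
            · rcases Nat.eq_zero_or_pos x13 with z13 | p13
              · rcases Nat.eq_zero_or_pos x4 with z4 | p4
                · exact absurd hk (by omega)
                · rcases Nat.eq_zero_or_pos x9 with z9 | p9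
                  · exact absurd hk (by omega)
                  · exact pat4_13 n (by omega) (by omega) (by omega)
              · exact pat4_6 n (by omega) (by omega)
          · rcases Nat.eq_zero_or_pos x10 with z10 | p10
            · rcases Nat.eq_zero_or_pos x2 with z2 | p2
              · rcases Nat.eq_zero_or_pos x11 with z11 | p11
                · exact absurd hk (by omega)
                · rcases Nat.eq_zero_or_pos x4 with z4 | p4
                  · rcases Nat.eq_zero_or_pos x14 with z14 | p14
                    · rcases Nat.eq_zero_or_pos x6 with z6 | p6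
                      · exact absurd hk (by omega)
                      · rcases Nat.eq_zero_or_pos x8 with z8 | p8
                        · rcases Nat.eq_zero_or_pos x9 with z9 | p9
                          · rcases Nat.eq_zero_or_pos x13 with z13 | p13
                            · rcases Nat.eq_zero_or_pos x12 with z12 | p12
                              · exact absurd hk (by omega)
                              · rcases Nat.lt_or_ge x11 2 with q11 | r11
                                · exact absurd hk (by omega)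
                                · exact pat4_38 n (by omega) (by omega) (by omega) (by omega)
                            · exact pat4_30 n (by omega) (by omega) (by omega)
                          · exact pat4_2 n (by omega) (by omega)
                        · exact pat4_35 n (by omega) (by omega) (by omega) (by omega)
                    · exact pat4_29 n (by omega) (by omega) (by omega)
                  · exact pat4_12 n (by omega) (by omega)
              · rcases Nat.eq_zero_or_pos x8 with z8 | p8
                · rcases Nat.eq_zero_or_pos x13 with z13 | p13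
                  · rcases Nat.eq_zero_or_pos x9 with z9 | p9
                    · rcases Nat.eq_zero_or_pos x11 with z11 | p11
                      · exact absurd hk (by omega)
                      · rcases Nat.eq_zero_or_pos x12 with z12 | p12
                        · exact absurd hk (by omega)
                        · exact pat4_33 n (by omega) (by omega) (by omega) (by omega)
                    · rcases Nat.eq_zero_or_pos x4 with z4 | p4
                      · rcases Nat.eq_zero_or_pos x14 with z14 | p14
                        · rcases Nat.eq_zero_or_pos x6 with z6 | p6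
                          · rcases Nat.eq_zero_or_pos x12 with z12 | p12
                            · exact absurd hk (by omega)
                            · rcases Nat.eq_zero_or_pos x11 with z11 | p11
                              · rcases Nat.lt_or_ge x2 2 with q2 | r2
                                · exact absurd hk (by omega)
                                · exact pat4_16 n (by omega) (by omega) (by omega) (by omega)
                              · exact pat4_33 n (by omega) (by omega) (by omega) (by omega)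
                          · exact pat4_2 n (by omega) (by omega)
                        · exact pat4_36 n (by omega) (by omega) (by omega) (by omega)
                      · exact pat4_13 n (by omega) (by omega) (by omega)
                  · exact pat4_6 n (by omega) (by omega)
                · exact pat4_3 n (by omega) (by omega) (by omega)
            · exact pat4_9 n (by omega) (by omega)
        · rcases Nat.eq_zero_or_pos x8 with z8 | p8
          · rcases Nat.eq_zero_or_pos x9 with z9 | p9
            · rcases Nat.eq_zero_or_pos x11 with z11 | p11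
              · rcases Nat.eq_zero_or_pos x10 with z10 | p10
                · exact absurd hk (by omega)
                · rcases Nat.eq_zero_or_pos x13 with z13 | p13
                  · exact absurd hk (by omega)
                  · exact pat4_15 n (by omega) (by omega) (by omega)
              · rcases Nat.eq_zero_or_pos x12 with z12 | p12
                · rcases Nat.eq_zero_or_pos x4 with z4 | p4
                  · rcases Nat.eq_zero_or_pos x13 with z13 | p13
                    · exact absurd hk (by omega)
                    · rcases Nat.eq_zero_or_pos x10 with z10 | p10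
                      · rcases Nat.eq_zero_or_pos x14 with z14 | p14
                        · exact absurd hk (by omega)
                        · exact pat4_37 n (by omega) (by omega) (by omega) (by omega)
                      · exact pat4_15 n (by omega) (by omega) (by omega)
                  · exact pat4_12 n (by omega) (by omega)
                · exact pat4_23 n (by omega) (by omega) (by omega)
            · rcases Nat.eq_zero_or_pos x14 with z14 | p14
              · rcases Nat.eq_zero_or_pos x6 with z6 | p6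
                · rcases Nat.eq_zero_or_pos x2 with z2 | p2
                  · rcases Nat.eq_zero_or_pos x10 with z10 | p10
                    · exact absurd hk (by omega)
                    · rcases Nat.eq_zero_or_pos x4 with z4 | p4
                      · rcases Nat.eq_zero_or_pos x5 with z5 | p5
                        · rcases Nat.eq_zero_or_pos x13 with z13 | p13
                          · rcases Nat.eq_zero_or_pos x12 with z12 | p12
                            · exact absurd hk (by omega)
                            · rcases Nat.eq_zero_or_pos x11 with z11 | p11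
                              · rcases Nat.lt_or_ge x7 2 with q7 | r7
                                · exact absurd hk (by omega)
                                · exact pat4_41 n (by omega) (by omega) (by omega) (by omega)
                              · exact pat4_23 n (by omega) (by omega) (by omega)
                          · exact pat4_15 n (by omega) (by omega) (by omega)
                        · exact pat4_9 n (by omega) (by omega)
                      · exact pat4_21 n (by omega) (by omega) (by omega) (by omega)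
                  · rcases Nat.eq_zero_or_pos x4 with z4 | p4
                    · rcases Nat.eq_zero_or_pos x12 with z12 | p12
                      · exact absurd hk (by omega)
                      · exact pat4_20 n (by omega) (by omega) (by omega) (by omega)
                    · exact pat4_13 n (by omega) (by omega) (by omega)
                · exact pat4_2 n (by omega) (by omega)
              · exact pat4_34 n (by omega) (by omega) (by omega)
          · exact pat4_14 n (by omega) (by omega)
      · rcases Nat.eq_zero_or_pos x12 with z12 | p12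
        · rcases Nat.eq_zero_or_pos x13 with z13 | p13
          · rcases Nat.eq_zero_or_pos x4 with z4 | p4
            · rcases Nat.eq_zero_or_pos x5 with z5 | p5
              · exact absurd hk (by omega)
              · rcases Nat.eq_zero_or_pos x8 with z8 | p8
                · rcases Nat.eq_zero_or_pos x10 with z10 | p10
                  · rcases Nat.eq_zero_or_pos x9 with z9 | p9
                    · exact absurd hk (by omega)
                    · rcases Nat.eq_zero_or_pos x14 with z14 | p14
                      · exact absurd hk (by omega)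
                      · rcases Nat.eq_zero_or_pos x2 with z2 | p2
                        · rcases Nat.eq_zero_or_pos x6 with z6 | p6
                          · rcases Nat.eq_zero_or_pos x7 with z7 | p7
                            · rcases Nat.eq_zero_or_pos x11 with z11 | p11
                              · rcases Nat.lt_or_ge x14 2 with q14 | r14
                                · exact absurd hk (by omega)
                                · exact pat4_40 n (by omega) (by omega) (by omega) (by omega)
                              · exact pat4_29 n (by omega) (by omega) (by omega)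
                            · exact pat4_34 n (by omega) (by omega) (by omega)
                          · exact pat4_2 n (by omega) (by omega)
                        · exact pat4_36 n (by omega) (by omega) (by omega) (by omega)
                  · exact pat4_9 n (by omega) (by omega)
                · rcases Nat.eq_zero_or_pos x14 with z14 | p14
                  · rcases Nat.eq_zero_or_pos x2 with z2 | p2
                    · rcases Nat.eq_zero_or_pos x7 with z7 | p7
                      · rcases Nat.eq_zero_or_pos x10 with z10 | p10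
                        · rcases Nat.eq_zero_or_pos x6 with z6 | p6
                          · exact absurd hk (by omega)
                          · rcases Nat.eq_zero_or_pos x9 with z9 | p9
                            · rcases Nat.eq_zero_or_pos x11 with z11 | p11
                              · rcases Nat.lt_or_ge x8 2 with q8 | r8
                                · exact absurd hk (by omega)
                                · exact pat4_25 n (by omega) (by omega) (by omega) (by omega)
                              · exact pat4_35 n (by omega) (by omega) (by omega) (by omega)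
                            · exact pat4_2 n (by omega) (by omega)
                        · exact pat4_9 n (by omega) (by omega)
                      · exact pat4_14 n (by omega) (by omega)
                    · exact pat4_3 n (by omega) (by omega) (by omega)
                  · exact pat4_18 n (by omega) (by omega) (by omega) (by omega)
            · rcases Nat.eq_zero_or_pos x8 with z8 | p8
              · rcases Nat.eq_zero_or_pos x11 with z11 | p11
                · rcases Nat.eq_zero_or_pos x9 with z9 | p9
                  · exact absurd hk (by omega)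
                  · rcases Nat.eq_zero_or_pos x14 with z14 | p14
                    · rcases Nat.eq_zero_or_pos x2 with z2 | p2
                      · rcases Nat.eq_zero_or_pos x6 with z6 | p6
                        · rcases Nat.eq_zero_or_pos x10 with z10 | p10
                          · exact absurd hk (by omega)
                          · rcases Nat.eq_zero_or_pos x5 with z5 | p5
                            · rcases Nat.eq_zero_or_pos x7 with z7 | p7
                              · rcases Nat.lt_or_ge x4 2 with q4 | r4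
                                · exact absurd hk (by omega)
                                · exact pat4_31 n (by omega) (by omega) (by omega) (by omega)
                              · exact pat4_21 n (by omega) (by omega) (by omega) (by omega)
                            · exact pat4_9 n (by omega) (by omega)
                        · exact pat4_2 n (by omega) (by omega)
                      · exact pat4_13 n (by omega) (by omega) (by omega)
                    · exact pat4_22 n (by omega) (by omega) (by omega) (by omega)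
                · exact pat4_12 n (by omega) (by omega)
              · exact pat4_8 n (by omega) (by omega) (by omega)
          · rcases Nat.eq_zero_or_pos x14 with z14 | p14
            · rcases Nat.eq_zero_or_pos x2 with z2 | p2
              · rcases Nat.eq_zero_or_pos x6 with z6 | p6
                · rcases Nat.eq_zero_or_pos x4 with z4 | p4
                  · exact absurd hk (by omega)
                  · rcases Nat.eq_zero_or_pos x10 with z10 | p10
                    · exact absurd hk (by omega)
                    · exact pat4_27 n (by omega) (by omega) (by omega) (by omega)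
                · rcases Nat.eq_zero_or_pos x8 with z8 | p8
                  · rcases Nat.eq_zero_or_pos x11 with z11 | p11
                    · rcases Nat.eq_zero_or_pos x9 with z9 | p9
                      · rcases Nat.eq_zero_or_pos x10 with z10 | p10
                        · exact absurd hk (by omega)
                        · rcases Nat.eq_zero_or_pos x4 with z4 | p4
                          · rcases Nat.eq_zero_or_pos x5 with z5 | p5
                            · rcases Nat.eq_zero_or_pos x7 with z7 | p7
                              · rcases Nat.lt_or_ge x13 2 with q13 | r13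
                                · exact absurd hk (by omega)
                                · exact pat4_39 n (by omega) (by omega) (by omega) (by omega)
                              · exact pat4_15 n (by omega) (by omega) (by omega)
                            · exact pat4_9 n (by omega) (by omega)
                          · exact pat4_27 n (by omega) (by omega) (by omega) (by omega)
                      · exact pat4_2 n (by omega) (by omega)
                    · exact pat4_30 n (by omega) (by omega) (by omega)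
                  · exact pat4_32 n (by omega) (by omega) (by omega) (by omega)
              · exact pat4_6 n (by omega) (by omega)
            · exact pat4_28 n (by omega) (by omega) (by omega)
        · exact pat4_11 n (by omega) (by omega)
    · rcases Nat.eq_zero_or_pos x14 with z14 | p14
      · rcases Nat.eq_zero_or_pos x6 with z6 | p6
        · rcases Nat.eq_zero_or_pos x2 with z2 | p2
          · rcases Nat.eq_zero_or_pos x10 with z10 | p10
            · exact absurd hk (by omega)
            · rcases Nat.eq_zero_or_pos x4 with z4 | p4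
              · rcases Nat.eq_zero_or_pos x5 with z5 | p5
                · rcases Nat.eq_zero_or_pos x7 with z7 | p7
                  · exact absurd hk (by omega)
                  · rcases Nat.eq_zero_or_pos x12 with z12 | p12
                    · exact absurd hk (by omega)
                    · exact pat4_19 n (by omega) (by omega) (by omega) (by omega)
                · exact pat4_9 n (by omega) (by omega)
              · exact pat4_4 n (by omega) (by omega) (by omega)
          · rcases Nat.eq_zero_or_pos x12 with z12 | p12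
            · rcases Nat.eq_zero_or_pos x4 with z4 | p4
              · exact absurd hk (by omega)
              · rcases Nat.eq_zero_or_pos x8 with z8 | p8
                · rcases Nat.eq_zero_or_pos x10 with z10 | p10
                  · exact absurd hk (by omega)
                  · exact pat4_4 n (by omega) (by omega) (by omega)
                · exact pat4_0 n (by omega) (by omega) (by omega) (by omega)
            · exact pat4_7 n (by omega) (by omega) (by omega)
        · rcases Nat.eq_zero_or_pos x8 with z8 | p8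
          · rcases Nat.eq_zero_or_pos x9 with z9 | p9
            · rcases Nat.eq_zero_or_pos x10 with z10 | p10
              · rcases Nat.eq_zero_or_pos x11 with z11 | p11
                · exact absurd hk (by omega)
                · rcases Nat.eq_zero_or_pos x12 with z12 | p12
                  · exact absurd hk (by omega)
                  · exact pat4_26 n (by omega) (by omega) (by omega) (by omega)
              · rcases Nat.eq_zero_or_pos x13 with z13 | p13
                · rcases Nat.eq_zero_or_pos x12 with z12 | p12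
                  · exact absurd hk (by omega)
                  · rcases Nat.eq_zero_or_pos x11 with z11 | p11
                    · rcases Nat.eq_zero_or_pos x2 with z2 | p2
                      · rcases Nat.eq_zero_or_pos x3 with z3 | p3
                        · rcases Nat.eq_zero_or_pos x4 with z4 | p4
                          · rcases Nat.eq_zero_or_pos x5 with z5 | p5
                            · rcases Nat.eq_zero_or_pos x7 with z7 | p7
                              · rcases Nat.lt_or_ge x1 2 with q1 | r1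
                                · exact absurd hk (by omega)
                                · exact pat4_24 n (by omega) (by omega) (by omega) (by omega)
                              · exact pat4_19 n (by omega) (by omega) (by omega) (by omega)
                            · exact pat4_9 n (by omega) (by omega)
                          · exact pat4_4 n (by omega) (by omega) (by omega)
                        · exact pat4_11 n (by omega) (by omega)
                      · exact pat4_7 n (by omega) (by omega) (by omega)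
                    · exact pat4_26 n (by omega) (by omega) (by omega) (by omega)
                · exact pat4_17 n (by omega) (by omega) (by omega) (by omega)
            · exact pat4_2 n (by omega) (by omega)
          · exact pat4_10 n (by omega) (by omega) (by omega)
      · exact pat4_5 n (by omega) (by omega)
  · exact pat4_1 n (by omega)

end Pool.Agent.H29.FewLists
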