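import Pool.Agent.H29.FewLists.Three
import Pool.Agent.H29.FewLists.Four

/-!
# Claw-free graphs and line graphs
-/

namespace Pool.Agent.H29.FewLists

open Finset

/-- No vertex has three pairwise nonadjacent neighbours. -/
def ClawFree {V : Type} (G : SimpleGraph V) : Prop :=
  ∀ v a b c : V, G.Adj v a → G.Adj v b → G.Adj v c → a ≠ b → a ≠ c → b ≠ c →
    G.Adj a b ∨ G.Adj a c ∨ G.Adj b c

theorem clawFree_hereditary : Hereditary (fun _ G => ClawFree G) := by
  intro V G S h v a b c h1 h2 h3 h4 h5 h6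
  exact h v a b c h1 h2 h3 (fun h => h4 (Subtype.ext h)) (fun h => h5 (Subtype.ext h))
    (fun h => h6 (Subtype.ext h))

theorem clawFree_case (t k : ℕ) (hk : k ≤ 2) : Case (fun _ G => ClawFree G) t k := by
  classical
  intro V _ G hG hcol A hA τ
  obtain ⟨c⟩ := hcol
  rcases (show k = 0 ∨ k = 1 ∨ k = 2 by omega) with rfl | rfl | rfl
  · exact ⟨fun v => (c v).elim0, fun v => (c v).elim0, fun v => (c v).elim0⟩
  · have h : ∀ i, ∃ x, x ∈ A i := fun i => Finset.card_pos.1 (hA i)
    choose x hx using h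
    refine ⟨fun v => x (τ v), fun v => hx _, fun u v huv => ?_⟩
    exact absurd (Subsingleton.elim (c u) (c v)) (c.valid huv)
  · refine two_choosable G ?_ (fun v => decide (c v = 0)) ?_ (fun v => A (τ v)) (fun v => hA _)
    · intro v
      by_contra hlt
      rw [not_le] at hlt
      obtain ⟨a, ha, b, hb, d, hd, hab, had, hbd⟩ := (Set.two_lt_ncard (Set.toFinite _)).1 hlt
      have key : ∀ x y, G.Adj v x → G.Adj v y → ¬ G.Adj x y := by
        intro x y hx hy hxy
        have h1 := c.valid hx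
        have h2 := c.valid hy
        have h3 := c.valid hxy
        revert h1 h2 h3
        generalize c v = p; generalize c x = q; generalize c y = r
        revert p q r
        decide
      rcases hG v a b d ha hb hd hab had hbd with h | h | h
      · exact key a b ha hb h
      · exact key a d ha hd h
      · exact key b d hb hd h
    · intro u v huv h
      have h1 := c.valid huv
      revert h h1
      generalize c u = p; generalize c v = q
      revert p q
      decide

/-- Claw-free graphs and three lists. -/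
theorem clawFree_three : ∀ k, Case (fun _ G => ClawFree G) 3 k :=
  case_of_decomposition _ clawFree_hereditary 3 2 (fun n k hk hn => decomp3 n k hk hn)
    (fun k hk => clawFree_case 3 k hk)

/-- `G` is isomorphic to the line graph of a finite simple graph. -/
def IsLineGraph (V : Type) (G : SimpleGraph V) : Prop :=
  ∃ (W : Type) (_ : Fintype W) (K : SimpleGraph W), Nonempty (G ≃g K.lineGraph)

theorem lineGraph_clawFree {W : Type} (K : SimpleGraph W) : ClawFree K.lineGraph := by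
  intro v a b c h1 h2 h3 h4 h5 h6
  rw [SimpleGraph.lineGraph_adj_iff_exists] at h1 h2 h3
  simp only [SimpleGraph.lineGraph_adj_iff_exists]
  obtain ⟨-, x, hx, hxa⟩ := h1
  obtain ⟨-, y, hy, hyb⟩ := h2
  obtain ⟨-, z, hz, hzc⟩ := h3
  have hxyz : x = y ∨ x = z ∨ y = z := by
    by_contra hne
    push Not at hne
    obtain ⟨h7, h8, h9⟩ := hne
    obtain ⟨e, he⟩ := v
    simp only at hx hy hz
    induction e with
    | _ p q =>
      rw [Sym2.mem_iff] at hx hy hz
      rcases hx with rfl | rfl <;> rcases hy with rfl | rfl <;> rcases hz with rfl | rfl <;>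
        simp_all
  rcases hxyz with rfl | rfl | rfl
  · exact Or.inl ⟨h4, x, hxa, hyb⟩
  · exact Or.inr (Or.inl ⟨h5, x, hxa, hzc⟩)
  · exact Or.inr (Or.inr ⟨h6, y, hyb, hzc⟩)

theorem isLineGraph_hereditary : Hereditary IsLineGraph := by
  classical
  rintro V G S ⟨W, _, K, ⟨φ⟩⟩
  refine ⟨W, inferInstance, SimpleGraph.fromEdgeSet {e | ∃ v : S, ((φ v.1).1 : Sym2 W) = e}, ?_⟩
  have hedge : ∀ v : S, ((φ v.1).1 : Sym2 W) ∈
      (SimpleGraph.fromEdgeSet {e | ∃ v : S, ((φ v.1).1 : Sym2 W) = e}).edgeSet := by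
    intro v
    rw [SimpleGraph.edgeSet_fromEdgeSet]
    refine ⟨⟨v, rfl⟩, ?_⟩
    exact fun h => K.not_isDiag_of_mem_edgeSet (φ v.1).2 h
  let ψ : S → (SimpleGraph.fromEdgeSet {e | ∃ v : S, ((φ v.1).1 : Sym2 W) = e}).edgeSet :=
    fun v => ⟨((φ v.1).1 : Sym2 W), hedge v⟩
  have hinj : Function.Injective ψ := by
    intro u v huv
    have h1 : (ψ u).1 = (ψ v).1 := by rw [huv]
    exact Subtype.ext (φ.injective (Subtype.ext h1))
  have hsurj : Function.Surjective ψ := by
    rintro ⟨e, he⟩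
    have he' := he
    rw [SimpleGraph.edgeSet_fromEdgeSet] at he'
    obtain ⟨v, hv⟩ := he'.1
    exact ⟨v, Subtype.ext hv⟩
  refine ⟨⟨Equiv.ofBijective ψ ⟨hinj, hsurj⟩, ?_⟩⟩
  intro u v
  have h1 : G.Adj u.1 v.1 ↔ K.lineGraph.Adj (φ u.1) (φ v.1) := (φ.map_rel_iff').symm
  have h2 : (G.induce S).Adj u v ↔ G.Adj u.1 v.1 := Iff.rfl
  rw [h2, h1, SimpleGraph.lineGraph_adj_iff_exists, SimpleGraph.lineGraph_adj_iff_exists]
  constructor
  · rintro ⟨h3, x, h4, h5⟩
    exact ⟨fun h => h3 (by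
      have h6 : u = v := Subtype.ext (φ.injective h)
      rw [h6]), x, h4, h5⟩
  · rintro ⟨h3, x, h4, h5⟩
    refine ⟨fun h => h3 ?_, x, h4, h5⟩
    have h6 : u = v := hinj h
    rw [h6]

/-- The edges of `G` can be coloured from the lists `L`. -/
def ListColourable {V : Type} (G : SimpleGraph V) (L : G.edgeSet → Finset ℕ) : Prop :=
  ∃ f : G.edgeSet → ℕ, (∀ e, f e ∈ L e) ∧ ∀ e e', G.lineGraph.Adj e e' → f e ≠ f e'

/-- `G` can be edge-coloured from all lists each of which contains one of `t` given sets of at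
least `k` colours, if it is `k`-edge-colourable. -/
def FewLists (t k : ℕ) {V : Type} (G : SimpleGraph V) : Prop :=
  G.lineGraph.Colorable k →
    ∀ A : Fin t → Finset ℕ, (∀ i, k ≤ (A i).card) →
      ∀ L : G.edgeSet → Finset ℕ, (∀ e, ∃ i, A i ⊆ L e) → ListColourable G L

/-- `H` is isomorphic to the line graph of a spanning subgraph of `G`. -/
def IsSubLineGraph {V : Type} (G : SimpleGraph V) (W : Type) (H : SimpleGraph W) : Prop :=
  ∃ K ≤ G, Nonempty (H ≃g K.lineGraph)

theorem isSubLineGraph_hereditary {V : Type} (G : SimpleGraph V) :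
    Hereditary (IsSubLineGraph G) := by
  classical
  rintro V G S ⟨K, hK, ⟨φ⟩⟩
  have hKle : SimpleGraph.fromEdgeSet {e | ∃ v : S, ((φ v.1).1 : Sym2 _) = e} ≤ K := by
    intro a b hab
    rw [SimpleGraph.fromEdgeSet_adj] at hab
    obtain ⟨⟨v, hv⟩, -⟩ := hab
    have h1 := (φ v.1).2
    rw [hv] at h1
    exact h1
  refine ⟨SimpleGraph.fromEdgeSet {e | ∃ v : S, ((φ v.1).1 : Sym2 _) = e}, hKle.trans hK, ?_⟩
  have hedge : ∀ v : S, ((φ v.1).1 : Sym2 _) ∈
      (SimpleGraph.fromEdgeSet {e | ∃ v : S, ((φ v.1).1 : Sym2 _) = e}).edgeSet := by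
    intro v
    rw [SimpleGraph.edgeSet_fromEdgeSet]
    refine ⟨⟨v, rfl⟩, ?_⟩
    exact fun h => K.not_isDiag_of_mem_edgeSet (φ v.1).2 h
  let ψ : S → (SimpleGraph.fromEdgeSet {e | ∃ v : S, ((φ v.1).1 : Sym2 _) = e}).edgeSet :=
    fun v => ⟨((φ v.1).1 : Sym2 _), hedge v⟩
  have hinj : Function.Injective ψ := by
    intro u v huv
    have h1 : (ψ u).1 = (ψ v).1 := by rw [huv]
    exact Subtype.ext (φ.injective (Subtype.ext h1))
  have hsurj : Function.Surjective ψ := by
    rintro ⟨e, he⟩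
    have he' := he
    rw [SimpleGraph.edgeSet_fromEdgeSet] at he'
    obtain ⟨v, hv⟩ := he'.1
    exact ⟨v, Subtype.ext hv⟩
  refine ⟨⟨Equiv.ofBijective ψ ⟨hinj, hsurj⟩, ?_⟩⟩
  intro u v
  have h1 : G.Adj u.1 v.1 ↔ K.lineGraph.Adj (φ u.1) (φ v.1) := (φ.map_rel_iff').symm
  have h2 : (G.induce S).Adj u v ↔ G.Adj u.1 v.1 := Iff.rfl
  rw [h2, h1, SimpleGraph.lineGraph_adj_iff_exists, SimpleGraph.lineGraph_adj_iff_exists]
  constructor
  · rintro ⟨h3, x, h4, h5⟩
    exact ⟨fun h => h3 (by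
      have h6 : u = v := Subtype.ext (φ.injective h)
      rw [h6]), x, h4, h5⟩
  · rintro ⟨h3, x, h4, h5⟩
    refine ⟨fun h => h3 ?_, x, h4, h5⟩
    have h6 : u = v := hinj h
    rw [h6]

theorem case_of_fewLists {V : Type} [Finite V] (G : SimpleGraph V) (t k : ℕ)
    (h : ∀ K ≤ G, FewLists t k K) : Case (IsSubLineGraph G) t k := by
  classical
  rintro W _ H ⟨K, hK, ⟨φ⟩⟩ hcol A hA τ
  have hcol' : K.lineGraph.Colorable k := hcol.of_hom φ.symm.toHom
  obtain ⟨f, hf, hfp⟩ := h K hK hcol' A hA (fun e => A (τ (φ.symm e))) (fun e => ⟨_, subset_rfl⟩)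
  refine ⟨fun v => f (φ v), fun v => ?_, fun u v huv => ?_⟩
  · have := hf (φ v)
    simp only [RelIso.symm_apply_apply] at this
    exact this
  · exact hfp _ _ (φ.map_rel_iff'.2 huv)

theorem fewLists_of_case {V : Type} [Finite V] (G : SimpleGraph V) (t k : ℕ)
    (h : Case (IsSubLineGraph G) t k) : FewLists t k G := by
  classical
  intro hcol A hA L hL
  choose τ hτ using hL
  obtain ⟨f, hf, hfp⟩ := h G.edgeSet G.lineGraph ⟨G, le_rfl, ⟨SimpleGraph.Iso.refl⟩⟩
    hcol A hA τ
  exact ⟨f, fun e => hτ e (hf e), fun e e' => hfp e e'⟩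

theorem fewLists_three {V : Type} [Finite V] (G : SimpleGraph V) (k : ℕ) : FewLists 3 k G := by
  refine fewLists_of_case G 3 k ?_
  rintro W _ H ⟨K, hK, ⟨φ⟩⟩ hcol A hA
  refine clawFree_three k W H ?_ hcol A hA
  intro v a b c h1 h2 h3 h4 h5 h6
  have := lineGraph_clawFree K (φ v) (φ a) (φ b) (φ c) (φ.map_rel_iff'.2 h1)
    (φ.map_rel_iff'.2 h2) (φ.map_rel_iff'.2 h3) (fun h => h4 (φ.injective h))
    (fun h => h5 (φ.injective h)) (fun h => h6 (φ.injective h))
  rcases this with h | h | h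
  · exact Or.inl (φ.map_rel_iff'.1 h)
  · exact Or.inr (Or.inl (φ.map_rel_iff'.1 h))
  · exact Or.inr (Or.inr (φ.map_rel_iff'.1 h))

theorem fewLists_small {V : Type} [Finite V] (G : SimpleGraph V) (t k : ℕ) (hk : k ≤ 2) :
    Case (IsSubLineGraph G) t k := by
  rintro W _ H ⟨K, hK, ⟨φ⟩⟩ hcol A hA
  refine clawFree_case t k hk W H ?_ hcol A hA
  intro v a b c h1 h2 h3 h4 h5 h6
  have := lineGraph_clawFree K (φ v) (φ a) (φ b) (φ c) (φ.map_rel_iff'.2 h1)
    (φ.map_rel_iff'.2 h2) (φ.map_rel_iff'.2 h3) (fun h => h4 (φ.injective h))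
    (fun h => h5 (φ.injective h)) (fun h => h6 (φ.injective h))
  rcases this with h | h | h
  · exact Or.inl (φ.map_rel_iff'.1 h)
  · exact Or.inr (Or.inl (φ.map_rel_iff'.1 h))
  · exact Or.inr (Or.inr (φ.map_rel_iff'.1 h))

/-- For a graph `G` and lists taken from four sets, the case `k = 3` for all subgraphs
suffices. -/
theorem fewLists_four {V : Type} [Finite V] (G : SimpleGraph V)
    (h : ∀ K ≤ G, FewLists 4 3 K) (k : ℕ) : FewLists 4 k G := by
  refine fewLists_of_case G 4 k (case_of_decomposition _ (isSubLineGraph_hereditary G) 4 3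
    (fun n k hk hn => decomp4 n k hk hn) (fun k hk => ?_) k)
  rcases (show k ≤ 2 ∨ k = 3 by omega) with h1 | rfl
  · exact fewLists_small G 4 k h1
  · exact case_of_fewLists G 4 3 h

/-- For every `t` there is `D` such that for every graph `G` and lists taken from `t` sets, the
cases `k ≤ D` for the subgraphs suffice. -/
theorem fewLists_bound (t : ℕ) : ∃ D : ℕ, ∀ (V : Type) [Finite V] (G : SimpleGraph V),
    (∀ K ≤ G, ∀ k ≤ D, FewLists t k K) → ∀ k, FewLists t k G := by
  obtain ⟨D, hD⟩ := exists_bound t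
  refine ⟨D, fun V _ G h k => ?_⟩
  exact fewLists_of_case G t k (case_of_decomposition _ (isSubLineGraph_hereditary G) t D hD
    (fun k hk => case_of_fewLists G t k (fun K hK => h K hK k hk)) k)

end Pool.Agent.H29.FewLists
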