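import Pool.Agent.H29.FewLists.AllAssign

/-!
# Assignments in which every colour belongs to at most two different lists or to all lists
-/

namespace Pool.Agent.H29.FewLists

open Finset

/-- Disjoint sets `C j` of colours that meet all the lists; the other colours belong to at most two
different lists or to all lists. -/
theorem assignment_full (k r : ℕ) (V : Type) [Finite V] (G : SimpleGraph V)
    (hG : ClawFree G) (hcol : G.Colorable k) (L : V → Finset ℕ) (C : Fin r → Finset ℕ)
    (hr : r ≤ k)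
    (hdisj : ∀ i j, i ≠ j → Disjoint (C i) (C j))
    (hmeet : ∀ v j, (L v ∩ C j).Nonempty) (hL : ∀ v, k - r ≤ (L v \ univ.biUnion C).card)
    (hdeg : ∀ c ∉ univ.biUnion C, {S | S ∈ Set.range L ∧ c ∈ S}.ncard ≤ 2 ∨ ∀ v, c ∈ L v) :
    ∃ f : V → ℕ, (∀ v, f v ∈ L v) ∧ ∀ u v, G.Adj u v → f u ≠ f v := by
  classical
  obtain ⟨W, hW1, hW2⟩ := exists_split G k r hr hcol
  have hfin : (Set.range L).Finite := Set.finite_range L
  obtain ⟨g, hg, hgp⟩ := assignment_two_or_all (k - r) _ _ (clawFree_hereditary V G Wᶜ hG) hW2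
    (fun v => L v.1 \ univ.biUnion C) (fun v => hL v.1) (by
      intro c
      by_cases hc : c ∈ univ.biUnion C
      · left
        have h1 : {S | S ∈ Set.range (fun v : (Wᶜ : Set V) => L v.1 \ univ.biUnion C) ∧ c ∈ S} =
            ∅ := by
          ext S
          simp only [Set.mem_setOf_eq, Set.mem_empty_iff_false, iff_false]
          rintro ⟨⟨v, rfl⟩, h⟩
          exact (mem_sdiff.1 h).2 hc
        rw [h1]
        simp
      · rcases hdeg c hc with h | h
        · left
          have hf : {S | S ∈ Set.range L ∧ c ∈ S}.Finite := hfin.subset (fun S hS => hS.1)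
          refine le_trans ?_ h
          refine le_trans (Set.ncard_le_ncard (t := (fun S => S \ univ.biUnion C) ''
            {S | S ∈ Set.range L ∧ c ∈ S}) ?_ (hf.image _)) (Set.ncard_image_le hf)
          rintro _ ⟨⟨v, rfl⟩, h'⟩
          exact ⟨L v.1, ⟨⟨v.1, rfl⟩, (mem_sdiff.1 h').1⟩, rfl⟩
        · right
          intro v
          exact mem_sdiff.2 ⟨h v.1, hc⟩)
  obtain ⟨c⟩ := hW1
  choose x hx using hmeet
  have hgL : ∀ v (hv : v ∈ Wᶜ), g ⟨v, hv⟩ ∈ L v ∧ g ⟨v, hv⟩ ∉ univ.biUnion C := by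
    intro v hv
    have := hg ⟨v, hv⟩
    exact mem_sdiff.1 this
  have hne : ∀ u v (hu : u ∈ W) (hv : v ∈ Wᶜ), x u (c ⟨u, hu⟩) ≠ g ⟨v, hv⟩ := by
    intro u v hu hv h
    apply (hgL v hv).2
    rw [← h, mem_biUnion]
    exact ⟨_, mem_univ _, (mem_inter.1 (hx u (c ⟨u, hu⟩))).2⟩
  refine ⟨fun v => if hv : v ∈ W then x v (c ⟨v, hv⟩) else g ⟨v, hv⟩, fun v => ?_,
    fun u v huv => ?_⟩
  · by_cases hv : v ∈ W
    · simp only [hv, dif_pos]
      exact (mem_inter.1 (hx v (c ⟨v, hv⟩))).1
    · simp only [hv, dif_neg, not_false_eq_true]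
      exact (hgL v hv).1
  · by_cases hu : u ∈ W
    · by_cases hv : v ∈ W
      · simp only [hu, hv, dif_pos]
        intro h
        have h1 := (mem_inter.1 (hx u (c ⟨u, hu⟩))).2
        have h2 := (mem_inter.1 (hx v (c ⟨v, hv⟩))).2
        have h3 := Finset.disjoint_left.1
          (hdisj _ _ (c.valid (v := ⟨u, hu⟩) (w := ⟨v, hv⟩) huv)) h1
        rw [h] at h3
        exact h3 h2
      · simp only [hu, hv, dif_pos, dif_neg, not_false_eq_true]
        exact hne u v hu hv
    · by_cases hv : v ∈ W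
      · simp only [hu, hv, dif_pos, dif_neg, not_false_eq_true]
        exact (hne v u hv hu).symm
      · simp only [hu, hv, dif_neg, not_false_eq_true]
        exact hgp ⟨u, hu⟩ ⟨v, hv⟩ huv

end Pool.Agent.H29.FewLists
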