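import Pool.Agent.H29.FewLists.OddSparse

/-!
# Assignments in which every colour belongs to at most two different lists
-/

namespace Pool.Agent.H29.FewLists

open Finset

theorem sparse_three_T {T : Type} [Fintype T] [DecidableEq T] (V : Type) [Finite V]
    (G : SimpleGraph V) (hG : ClawFree G) (hcol : G.Colorable 3) (A : T → Finset ℕ)
    (hA : ∀ i, 3 ≤ (A i).card)
    (hdeg : ∀ c, (univ.filter (fun i => c ∈ A i)).card ≤ 2) : FromT G A := by
  classical
  have hsh : ∀ i, ∃ B ⊆ A i, B.card = 3 := fun i => Finset.exists_subset_card_eq (hA i)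
  choose B hB hBc using hsh
  have hdegB : ∀ c, (univ.filter (fun i => c ∈ B i)).card ≤ 2 := by
    intro c
    refine le_trans (Finset.card_le_card ?_) (hdeg c)
    intro i hi
    rw [mem_filter] at hi ⊢
    exact ⟨hi.1, hB i hi.2⟩
  have h := odd_main 1 _ T rfl B hBc hdegB (fun D hD => by
    have h3 := cut_parity 3 B hBc hdegB ⟨1, rfl⟩ D hD
    rw [Nat.odd_iff] at h3
    omega) V G hG hcol
  intro τ
  obtain ⟨f, hf, hfp⟩ := h τ
  exact ⟨f, fun v => hB _ (hf v), hfp⟩

theorem sparse_all_T (k : ℕ) (hk : Even k ∨ k = 3) {T : Type} [Fintype T] [DecidableEq T]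
    (V : Type) [Finite V] (G : SimpleGraph V) (hG : ClawFree G) (hcol : G.Colorable k)
    (A : T → Finset ℕ) (hA : ∀ i, k ≤ (A i).card)
    (hdeg : ∀ c, (univ.filter (fun i => c ∈ A i)).card ≤ 2) : FromT G A := by
  rcases hk with hk | rfl
  · obtain ⟨m, hm⟩ := hk
    have hm' : k = 2 * m := by omega
    subst hm'
    exact sparse_even_T m V G hG hcol A hA hdeg
  · exact sparse_three_T V G hG hcol A hA hdeg

/-- Disjoint sets `C j` of colours that meet all the lists; the other colours belong to at most two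
different lists. -/
theorem assignment_general (k r : ℕ) (V : Type) [Finite V] (G : SimpleGraph V)
    (hG : ClawFree G) (hcol : G.Colorable k) (L : V → Finset ℕ) (C : Fin r → Finset ℕ)
    (hr : r ≤ k) (hev : Even (k - r) ∨ k - r = 3)
    (hdisj : ∀ i j, i ≠ j → Disjoint (C i) (C j))
    (hmeet : ∀ v j, (L v ∩ C j).Nonempty) (hL : ∀ v, k - r ≤ (L v \ univ.biUnion C).card)
    (hdeg : ∀ c ∉ univ.biUnion C, {S | S ∈ Set.range L ∧ c ∈ S}.ncard ≤ 2) :
    ∃ f : V → ℕ, (∀ v, f v ∈ L v) ∧ ∀ u v, G.Adj u v → f u ≠ f v := by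
  classical
  have hfin : (Set.range L).Finite := Set.finite_range L
  set s : Finset (Finset ℕ) := hfin.toFinset with hs
  have hmem : ∀ v, L v ∈ s := fun v => by simp [hs]
  have hrange : ∀ S ∈ s, S ∈ Set.range L := by
    intro S hS
    rwa [hs, Set.Finite.mem_toFinset] at hS
  obtain ⟨W, hW1, hW2⟩ := exists_split G k r hr hcol
  have hA : ∀ i : s, k - r ≤ (i.1 \ univ.biUnion C).card := by
    intro i
    obtain ⟨v, hv⟩ := hrange _ i.2
    rw [← hv]
    exact hL v
  have hAdeg : ∀ c, (univ.filter (fun i : s => c ∈ i.1 \ univ.biUnion C)).card ≤ 2 := by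
    intro c
    by_cases hc : c ∈ univ.biUnion C
    · have : (univ.filter (fun i : s => c ∈ i.1 \ univ.biUnion C)) = ∅ := by
        rw [filter_eq_empty_iff]
        intro i _ h
        exact (mem_sdiff.1 h).2 hc
      rw [this]
      simp
    · refine le_trans ?_ (hdeg c hc)
      have hf : {S | S ∈ Set.range L ∧ c ∈ S}.Finite := hfin.subset (fun S hS => hS.1)
      rw [Set.ncard_eq_toFinset_card _ hf]
      refine Finset.card_le_card_of_injOn (fun i => i.1) ?_ ?_
      · intro i hi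
        rw [mem_coe, mem_filter] at hi
        rw [mem_coe, Set.Finite.mem_toFinset]
        exact ⟨hrange _ i.2, (mem_sdiff.1 hi.2).1⟩
      · intro i _ j _ hij
        exact Subtype.ext hij
  obtain ⟨g, hg, hgp⟩ := sparse_all_T (k - r) hev _ _ (clawFree_hereditary V G Wᶜ hG) hW2
    (fun i : s => i.1 \ univ.biUnion C) hA hAdeg (fun v => ⟨L v.1, hmem v.1⟩)
  obtain ⟨c⟩ := hW1
  choose x hx using hmeet
  have hgL : ∀ v (hv : v ∈ Wᶜ), g ⟨v, hv⟩ ∈ L v ∧ g ⟨v, hv⟩ ∉ univ.biUnion C := by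
    intro v hv
    have := hg ⟨v, hv⟩
    exact mem_sdiff.1 this
  have hne : ∀ u v (hu : u ∈ W) (hv : v ∈ Wᶜ), x u (c ⟨u, hu⟩) ≠ g ⟨v, hv⟩ := by
    intro u v hu hv h
    apply (hgL v hv).2
    rw [← h, mem_biUnion]
    exact ⟨_, mem_univ _, (mem_inter.1 (hx u (c ⟨u, hu⟩))).2⟩
  refine ⟨fun v => if hv : v ∈ W then x v (c ⟨v, hv⟩) else g ⟨v, hv⟩, fun v => ?_,
    fun u v huv => ?_⟩
  · by_cases hv : v ∈ W
    · simp only [hv, dif_pos]
      exact (mem_inter.1 (hx v (c ⟨v, hv⟩))).1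
    · simp only [hv, dif_neg, not_false_eq_true]
      exact (hgL v hv).1
  · by_cases hu : u ∈ W
    · by_cases hv : v ∈ W
      · simp only [hu, hv, dif_pos]
        intro h
        have h1 := (mem_inter.1 (hx u (c ⟨u, hu⟩))).2
        have h2 := (mem_inter.1 (hx v (c ⟨v, hv⟩))).2
        have h3 := Finset.disjoint_left.1
          (hdisj _ _ (c.valid (v := ⟨u, hu⟩) (w := ⟨v, hv⟩) huv)) h1
        rw [h] at h3
        exact h3 h2
      · simp only [hu, hv, dif_pos, dif_neg, not_false_eq_true]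
        exact hne u v hu hv
    · by_cases hv : v ∈ W
      · simp only [hu, hv, dif_pos, dif_neg, not_false_eq_true]
        exact (hne v u hv hu).symm
      · simp only [hu, hv, dif_neg, not_false_eq_true]
        exact hgp ⟨u, hu⟩ ⟨v, hv⟩ huv

/-- Odd `k`, with a condition on odd sets of lists. -/
theorem assignment_odd (k : ℕ) (hk : Odd k) (V : Type) [Finite V] (G : SimpleGraph V)
    (hG : ClawFree G) (hcol : G.Colorable k) (L : V → Finset ℕ) (hL : ∀ v, (L v).card = k)
    (hdeg : ∀ c, {S | S ∈ Set.range L ∧ c ∈ S}.ncard ≤ 2)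
    (hcut : ∀ D : Finset (Finset ℕ), (∀ S ∈ D, S ∈ Set.range L) → Odd D.card →
      {c | ∃! S, S ∈ D ∧ c ∈ S}.ncard = 1 ∨ k ≤ {c | ∃! S, S ∈ D ∧ c ∈ S}.ncard) :
    ∃ f : V → ℕ, (∀ v, f v ∈ L v) ∧ ∀ u v, G.Adj u v → f u ≠ f v := by
  classical
  have hfin : (Set.range L).Finite := Set.finite_range L
  set s : Finset (Finset ℕ) := hfin.toFinset with hs
  have hmem : ∀ v, L v ∈ s := fun v => by simp [hs]
  have hrange : ∀ S ∈ s, S ∈ Set.range L := by
    intro S hS
    rwa [hs, Set.Finite.mem_toFinset] at hS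
  obtain ⟨m, rfl⟩ := hk
  have h := odd_main m _ s rfl (fun i => i.1) (by
    intro i
    obtain ⟨v, hv⟩ := hrange _ i.2
    show i.1.card = 2 * m + 1
    rw [← hv]
    exact hL v) (by
    intro c
    refine le_trans ?_ (hdeg c)
    have hf : {S | S ∈ Set.range L ∧ c ∈ S}.Finite := hfin.subset (fun S hS => hS.1)
    rw [Set.ncard_eq_toFinset_card _ hf]
    refine Finset.card_le_card_of_injOn (fun i => i.1) ?_ ?_
    · intro i hi
      rw [mem_coe, mem_filter] at hi
      rw [mem_coe, Set.Finite.mem_toFinset]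
      exact ⟨hrange _ i.2, hi.2⟩
    · intro i _ j _ hij
      exact Subtype.ext hij) (by
    intro D hD
    have h1 := hcut (D.map (Function.Embedding.subtype _)) (by
      intro S hS
      rw [mem_map] at hS
      obtain ⟨i, -, rfl⟩ := hS
      exact hrange _ i.2) (by rwa [card_map])
    have h2 : {c | ∃! S, S ∈ D.map (Function.Embedding.subtype _) ∧ c ∈ S} =
        ((cut (fun i : s => i.1) D : Finset ℕ) : Set ℕ) := by
      ext c
      rw [mem_coe, mem_cut, Set.mem_setOf_eq]
      constructor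
      · rintro ⟨S, ⟨hS, hSc⟩, hu⟩
        rw [mem_map] at hS
        obtain ⟨i, hi, rfl⟩ := hS
        refine ⟨i, hi, hSc, fun j hj hjc => ?_⟩
        have := hu j.1 ⟨mem_map.2 ⟨j, hj, rfl⟩, hjc⟩
        exact Subtype.ext this
      · rintro ⟨i, hi, hic, hu⟩
        refine ⟨i.1, ⟨mem_map.2 ⟨i, hi, rfl⟩, hic⟩, ?_⟩
        rintro S ⟨hS, hSc⟩
        rw [mem_map] at hS
        obtain ⟨j, hj, rfl⟩ := hS
        rw [hu j hj hSc]
        rfl
    rw [h2, Set.ncard_coe_finset] at h1
    exact h1) V G hG hcol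
  exact h (fun v => ⟨L v, hmem v⟩)

end Pool.Agent.H29.FewLists
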