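import Pool.Agent.H29.FewLists.Base

/-!
# Petersen's theorem on 2-factors for multigraphs, and list systems in which every colour belongs
to at most two lists
-/

namespace Pool.Agent.H29.FewLists

open Finset

/-- Petersen: a multigraph (edges `e` with ends `s e`, `t e`) that is regular of degree `2 m > 0`
has a spanning subgraph that is regular of degree two. -/
theorem petersen {V E : Type} [Fintype V] [Fintype E] [DecidableEq V] [DecidableEq E]
    (s t : E → V) (m : ℕ) (hm : 0 < m)
    (hdeg : ∀ v, (univ.filter (fun e => s e = v)).card + (univ.filter (fun e => t e = v)).card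
      = 2 * m) :
    ∃ P : Finset E, ∀ v, (P.filter (fun e => s e = v)).card + (P.filter (fun e => t e = v)).card
      = 2 := by
  -- the number of the edges
  have hE : Fintype.card E = m * Fintype.card V := by
    have h1 : Fintype.card E = ∑ v : V, (univ.filter (fun e => s e = v)).card := by
      have := Finset.card_eq_sum_card_fiberwise (s := (univ : Finset E)) (t := (univ : Finset V))
        (f := s) (fun x _ => by simp)
      simpa using this
    have h2 : Fintype.card E = ∑ v : V, (univ.filter (fun e => t e = v)).card := by
      have := Finset.card_eq_sum_card_fiberwise (s := (univ : Finset E)) (t := (univ : Finset V))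
        (f := t) (fun x _ => by simp)
      simpa using this
    have h3 : Fintype.card E + Fintype.card E = ∑ v : V, 2 * m := by
      nth_rw 1 [h1]
      nth_rw 1 [h2]
      rw [← Finset.sum_add_distrib]
      exact Finset.sum_congr rfl (fun v _ => hdeg v)
    rw [Finset.sum_const, Finset.card_univ, smul_eq_mul] at h3
    nlinarith [h3]
  -- the orientation
  obtain ⟨f, hfinj, hf⟩ : ∃ f : E → V × Fin m, Function.Injective f ∧
      ∀ e, f e ∈ (({s e, t e} : Finset V) ×ˢ (univ : Finset (Fin m))) := by
    rw [← Finset.all_card_le_biUnion_card_iff_exists_injective]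
    intro X
    have h0 : X.biUnion (fun e => ({s e, t e} : Finset V) ×ˢ (univ : Finset (Fin m))) =
        (X.biUnion (fun e => ({s e, t e} : Finset V))) ×ˢ (univ : Finset (Fin m)) := by
      ext ⟨v, j⟩
      simp only [mem_biUnion, mem_product, mem_univ, and_true]
    rw [h0, Finset.card_product, Finset.card_univ, Fintype.card_fin]
    set W := X.biUnion (fun e => ({s e, t e} : Finset V)) with hW
    have h1 : X.card = ∑ v ∈ W, (X.filter (fun e => s e = v)).card :=
      Finset.card_eq_sum_card_fiberwise (fun e he => by
        rw [hW, mem_coe, mem_biUnion]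
        exact ⟨e, he, by simp⟩)
    have h2 : X.card = ∑ v ∈ W, (X.filter (fun e => t e = v)).card :=
      Finset.card_eq_sum_card_fiberwise (fun e he => by
        rw [hW, mem_coe, mem_biUnion]
        exact ⟨e, he, by simp⟩)
    have h3 : X.card + X.card ≤ ∑ v ∈ W, 2 * m := by
      nth_rw 1 [h1]
      nth_rw 1 [h2]
      rw [← Finset.sum_add_distrib]
      refine Finset.sum_le_sum (fun v _ => ?_)
      rw [← hdeg v]
      exact Nat.add_le_add (Finset.card_le_card (Finset.filter_subset_filter _ (subset_univ _)))
        (Finset.card_le_card (Finset.filter_subset_filter _ (subset_univ _)))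
    rw [Finset.sum_const, smul_eq_mul] at h3
    nlinarith [h3]
  set o : E → V := fun e => (f e).1 with ho
  have hoe : ∀ e, o e = s e ∨ o e = t e := by
    intro e
    have := hf e
    rw [mem_product] at this
    simpa using this.1
  set i : E → V := fun e => if o e = s e then t e else s e with hi
  have hio : ∀ (P : Finset E) (v : V), (P.filter (fun e => o e = v)).card +
      (P.filter (fun e => i e = v)).card = (P.filter (fun e => s e = v)).card +
      (P.filter (fun e => t e = v)).card := by
    intro P v
    simp only [Finset.card_filter]
    rw [← Finset.sum_add_distrib, ← Finset.sum_add_distrib]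
    refine Finset.sum_congr rfl (fun e _ => ?_)
    rcases hoe e with h | h
    · have : i e = t e := by rw [hi]; simp [h]
      rw [h, this]
    · by_cases h' : o e = s e
      · have : i e = t e := by rw [hi]; simp [h']
        rw [h', this]
      · have : i e = s e := by rw [hi]; simp [h']
        rw [h, this, add_comm]
  have hout_le : ∀ v, (univ.filter (fun e => o e = v)).card ≤ m := by
    intro v
    have h1 : (univ.filter (fun e => o e = v)).card ≤ (univ : Finset (Fin m)).card := by
      refine Finset.card_le_card_of_injOn (fun e => (f e).2) (fun e _ => mem_univ _) ?_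
      intro e he e' he' h
      rw [mem_coe, mem_filter] at he he'
      exact hfinj (Prod.ext (he.2.trans he'.2.symm) h)
    simpa using h1
  have hout_sum : ∑ v : V, (univ.filter (fun e => o e = v)).card = ∑ v : V, m := by
    have h1 : Fintype.card E = ∑ v : V, (univ.filter (fun e => o e = v)).card := by
      have := Finset.card_eq_sum_card_fiberwise (s := (univ : Finset E)) (t := (univ : Finset V))
        (f := o) (fun x _ => by simp)
      simpa using this
    rw [← h1, hE, Finset.sum_const, Finset.card_univ, smul_eq_mul, mul_comm]
  have hout : ∀ v, (univ.filter (fun e => o e = v)).card = m := by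
    intro v
    exact (Finset.sum_eq_sum_iff_of_le (fun v _ => hout_le v)).1 hout_sum v (mem_univ v)
  have hin : ∀ v, (univ.filter (fun e => i e = v)).card = m := by
    intro v
    have h1 := hio univ v
    rw [hdeg v, hout v] at h1
    omega
  -- the 2-factor
  obtain ⟨g, hginj, hg⟩ : ∃ g : V → V, Function.Injective g ∧
      ∀ v, g v ∈ (univ.filter (fun e => o e = v)).image i := by
    rw [← Finset.all_card_le_biUnion_card_iff_exists_injective]
    intro S
    set W := S.biUnion (fun v => (univ.filter (fun e => o e = v)).image i) with hW
    have h1 : (univ.filter (fun e => o e ∈ S)).card = m * S.card := by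
      have := Finset.card_eq_sum_card_fiberwise (s := univ.filter (fun e => o e ∈ S)) (t := S)
        (f := o) (fun x hx => by
          rw [mem_coe, mem_filter] at hx
          exact hx.2)
      rw [this]
      have h2 : ∀ v ∈ S, ((univ.filter (fun e => o e ∈ S)).filter (fun e => o e = v)).card = m := by
        intro v hv
        rw [← hout v]
        congr 1
        ext e
        simp only [mem_filter, mem_univ, true_and]
        constructor
        · exact fun h => h.2
        · exact fun h => ⟨h ▸ hv, h⟩
      rw [Finset.sum_congr rfl h2, Finset.sum_const, smul_eq_mul, mul_comm]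
    have h2 : (univ.filter (fun e => i e ∈ W)).card = m * W.card := by
      have := Finset.card_eq_sum_card_fiberwise (s := univ.filter (fun e => i e ∈ W)) (t := W)
        (f := i) (fun x hx => by
          rw [mem_coe, mem_filter] at hx
          exact hx.2)
      rw [this]
      have h2 : ∀ v ∈ W, ((univ.filter (fun e => i e ∈ W)).filter (fun e => i e = v)).card = m := by
        intro v hv
        rw [← hin v]
        congr 1
        ext e
        simp only [mem_filter, mem_univ, true_and]
        constructor
        · exact fun h => h.2
        · exact fun h => ⟨h ▸ hv, h⟩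
      rw [Finset.sum_congr rfl h2, Finset.sum_const, smul_eq_mul, mul_comm]
    have h3 : (univ.filter (fun e => o e ∈ S)).card ≤ (univ.filter (fun e => i e ∈ W)).card := by
      refine Finset.card_le_card ?_
      intro e he
      rw [mem_filter] at he ⊢
      refine ⟨mem_univ _, ?_⟩
      rw [hW, mem_biUnion]
      exact ⟨o e, he.2, mem_image.2 ⟨e, by simp, rfl⟩⟩
    rw [h1, h2] at h3
    exact Nat.le_of_mul_le_mul_left h3 hm
  have hch : ∀ v, ∃ e, o e = v ∧ i e = g v := by
    intro v
    obtain ⟨e, he, he'⟩ := mem_image.1 (hg v)
    exact ⟨e, by simpa using he, he'⟩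
  choose w hw1 hw2 using hch
  have hgb : Function.Bijective g := Finite.injective_iff_bijective.1 hginj
  refine ⟨univ.image w, fun v => ?_⟩
  rw [← hio]
  have h1 : ((univ.image w).filter (fun e => o e = v)) = {w v} := by
    ext e
    simp only [mem_filter, mem_image, mem_univ, true_and, mem_singleton]
    constructor
    · rintro ⟨⟨u, rfl⟩, h⟩
      rw [hw1] at h
      rw [h]
    · rintro rfl
      exact ⟨⟨v, rfl⟩, hw1 v⟩
  obtain ⟨u, hu⟩ := hgb.2 v
  have h2 : ((univ.image w).filter (fun e => i e = v)) = {w u} := by
    ext e
    simp only [mem_filter, mem_image, mem_univ, true_and, mem_singleton]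
    constructor
    · rintro ⟨⟨u', rfl⟩, h⟩
      rw [hw2, ← hu] at h
      rw [hginj h]
    · rintro rfl
      exact ⟨⟨u, rfl⟩, by rw [hw2, hu]⟩
  rw [h1, h2, card_singleton, card_singleton]

end Pool.Agent.H29.FewLists
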