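import Pool.Agent.H29.FewLists.Petersen

/-!
# List systems in which every colour belongs to at most two lists
-/

namespace Pool.Agent.H29.FewLists

open Finset

/-- If all the lists have `2 m > 0` colours and every colour belongs to at most two of them, then
some set of colours has exactly two colours in common with every list. -/
theorem two_part {t m : ℕ} (hm : 0 < m) (A : Fin t → Finset ℕ) (hA : ∀ i, (A i).card = 2 * m)
    (hdeg : ∀ c, (univ.filter (fun i => c ∈ A i)).card ≤ 2) :
    ∃ P : Finset ℕ, ∀ i, (A i ∩ P).card = 2 := by
  classical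
  rcases Nat.eq_zero_or_pos t with rfl | ht
  · exact ⟨∅, fun i => i.elim0⟩
  have hne : Nonempty (Fin t) := ⟨⟨0, ht⟩⟩
  set U : Finset ℕ := univ.biUnion A with hU
  have hab : ∀ c, c ∈ U → ∃ a b : Fin t, ∀ i, c ∈ A i ↔ (i = a ∨ i = b) := by
    intro c hc
    have h1 : 0 < (univ.filter (fun i => c ∈ A i)).card := by
      obtain ⟨i, -, hi⟩ := mem_biUnion.1 hc
      exact card_pos.2 ⟨i, by simp [hi]⟩
    have h2 := hdeg c
    rcases (show (univ.filter (fun i => c ∈ A i)).card = 1 ∨
      (univ.filter (fun i => c ∈ A i)).card = 2 by omega) with h | h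
    · obtain ⟨a, ha⟩ := card_eq_one.1 h
      refine ⟨a, a, fun i => ?_⟩
      have h3 : i ∈ univ.filter (fun i => c ∈ A i) ↔ i ∈ ({a} : Finset (Fin t)) := by rw [ha]
      simpa using h3
    · obtain ⟨a, b, -, hab⟩ := card_eq_two.1 h
      refine ⟨a, b, fun i => ?_⟩
      have h3 : i ∈ univ.filter (fun i => c ∈ A i) ↔ i ∈ ({a, b} : Finset (Fin t)) := by rw [hab]
      simpa using h3
  choose! a b hab using hab
  -- the doubled multigraph
  set F : Finset (ℕ × Bool) := (U ×ˢ (univ : Finset Bool)).filter
    (fun x => x.2 = false ∨ a x.1 ≠ b x.1) with hF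
  have hFm : ∀ x, x ∈ F ↔ x.1 ∈ U ∧ (x.2 = false ∨ a x.1 ≠ b x.1) := by
    intro x
    rw [hF, mem_filter, mem_product]
    simp
  set s : ℕ × Bool → Fin t × Bool := fun x => (a x.1, x.2) with hs
  set d : ℕ × Bool → Fin t × Bool := fun x =>
    if a x.1 = b x.1 then (a x.1, true) else (b x.1, x.2) with hd
  set ed : ℕ → Bool → ℕ × Bool := fun c β => if a c = b c then (c, false) else (c, β) with hed
  -- counting
  have key : ∀ (P : Finset (ℕ × Bool)), P ⊆ F → ∀ (i : Fin t) (β : Bool),
      (P.filter (fun x => s x = (i, β))).card + (P.filter (fun x => d x = (i, β))).card =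
        ((A i).filter (fun c => ed c β ∈ P)).card := by
    intro P hP i β
    rw [← Finset.card_union_of_disjoint]
    · refine Finset.card_bij (fun x _ => x.1) ?_ ?_ ?_
      · intro x hx
        rw [mem_union, mem_filter, mem_filter] at hx
        rw [mem_filter]
        have hxP : x ∈ P := by
          rcases hx with h | h
          · exact h.1
          · exact h.1
        obtain ⟨hxU, hx2⟩ := (hFm x).1 (hP hxP)
        rcases hx with ⟨-, h⟩ | ⟨-, h⟩
        · rw [hs] at h
          simp only [Prod.mk.injEq] at h
          refine ⟨(hab x.1 hxU i).2 (Or.inl h.1.symm), ?_⟩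
          rw [hed]
          by_cases hc : a x.1 = b x.1
          · have h3 : x.2 = false := by
              rcases hx2 with h | h
              · exact h
              · exact absurd hc h
            simp only [hc, if_true]
            rw [← h3]
            exact hxP
          · simp only [hc, if_false]
            rw [← h.2]
            exact hxP
        · rw [hd] at h
          by_cases hc : a x.1 = b x.1
          · simp only [hc, if_true, Prod.mk.injEq] at h
            refine ⟨(hab x.1 hxU i).2 (Or.inr h.1.symm), ?_⟩
            have h3 : x.2 = false := by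
              rcases hx2 with h | h
              · exact h
              · exact absurd hc h
            rw [hed]
            simp only [hc, if_true]
            rw [← h3]
            exact hxP
          · simp only [hc, if_false, Prod.mk.injEq] at h
            refine ⟨(hab x.1 hxU i).2 (Or.inr h.1.symm), ?_⟩
            rw [hed]
            simp only [hc, if_false]
            rw [← h.2]
            exact hxP
      · intro x hx y hy hxy
        rw [mem_union, mem_filter, mem_filter] at hx hy
        have hxP : x ∈ P := by
          rcases hx with h | h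
          · exact h.1
          · exact h.1
        have hyP : y ∈ P := by
          rcases hy with h | h
          · exact h.1
          · exact h.1
        obtain ⟨-, hx2⟩ := (hFm x).1 (hP hxP)
        obtain ⟨-, hy2⟩ := (hFm y).1 (hP hyP)
        refine Prod.ext hxy ?_
        by_cases hc : a x.1 = b x.1
        · have hc' : a y.1 = b y.1 := by rw [← hxy]; exact hc
          have h1 : x.2 = false := hx2.resolve_right (fun h => h hc)
          have h2 : y.2 = false := hy2.resolve_right (fun h => h hc')
          rw [h1, h2]
        · have hc' : ¬ a y.1 = b y.1 := by rw [← hxy]; exact hc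
          have e1 : x.2 = β := by
            rcases hx with ⟨-, h⟩ | ⟨-, h⟩
            · exact congrArg Prod.snd h
            · rw [hd] at h
              simp only [hc, if_false] at h
              exact congrArg Prod.snd h
          have e2 : y.2 = β := by
            rcases hy with ⟨-, h⟩ | ⟨-, h⟩
            · exact congrArg Prod.snd h
            · rw [hd] at h
              simp only [hc', if_false] at h
              exact congrArg Prod.snd h
          rw [e1, e2]
      · intro c hc
        rw [mem_filter] at hc
        have hcU : c ∈ U := by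
          rw [hU, mem_biUnion]
          exact ⟨i, mem_univ _, hc.1⟩
        refine ⟨ed c β, ?_, ?_⟩
        · rw [mem_union, mem_filter, mem_filter]
          by_cases hcab : a c = b c
          · have h1 : i = a c := by
              rcases (hab c hcU i).1 hc.1 with h | h
              · exact h
              · rw [h, hcab]
            have h2 : ed c β = (c, false) := by rw [hed]; simp [hcab]
            rcases β with _ | _
            · left
              refine ⟨hc.2, ?_⟩
              rw [h2, hs, h1]
            · right
              refine ⟨hc.2, ?_⟩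
              rw [h2, hd, h1]
              simp [hcab]
          · have h2 : ed c β = (c, β) := by rw [hed]; simp [hcab]
            rcases (hab c hcU i).1 hc.1 with h | h
            · left
              refine ⟨hc.2, ?_⟩
              rw [h2, hs, h]
            · right
              refine ⟨hc.2, ?_⟩
              rw [h2, hd, h]
              simp [hcab]
        · rw [hed]
          by_cases hcab : a c = b c <;> simp [hcab]
    · rw [Finset.disjoint_left]
      intro x hx hx'
      rw [mem_filter] at hx hx'
      obtain ⟨-, hx2⟩ := (hFm x).1 (hP hx.1)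
      have h1 := hx.2.trans hx'.2.symm
      rw [hs, hd] at h1
      by_cases hc : a x.1 = b x.1
      · simp only [hc, if_true, Prod.mk.injEq, true_and] at h1
        have h3 : x.2 = false := hx2.resolve_right (fun h => h hc)
        rw [h3] at h1
        exact absurd h1 (by decide)
      · simp only [hc, if_false, Prod.mk.injEq] at h1
        exact h1.1.elim
  -- apply Petersen's theorem
  obtain ⟨Q, hQ⟩ := petersen (V := Fin t × Bool) (E := F) (fun x => s x.1) (fun x => d x.1) m hm
    (by
      rintro ⟨i, β⟩
      have h1 := key F subset_rfl i β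
      have h2 : ((A i).filter (fun c => ed c β ∈ F)) = A i := by
        rw [Finset.filter_eq_self]
        intro c hc
        have hcU : c ∈ U := by
          rw [hU, mem_biUnion]
          exact ⟨i, mem_univ _, hc⟩
        rw [hFm, hed]
        by_cases hcab : a c = b c
        · simp [hcab, hcU]
        · simp [hcab, hcU]
      rw [h2, hA i] at h1
      have h3 : ∀ (p : ℕ × Bool → Fin t × Bool), (univ.filter (fun x : F => p x.1 = (i, β))).card =
          (F.filter (fun x => p x = (i, β))).card := by
        intro p
        rw [← Finset.card_map (Function.Embedding.subtype _)]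
        congr 1
        ext x
        simp only [mem_map, mem_filter, mem_univ, true_and, Function.Embedding.coe_subtype]
        constructor
        · rintro ⟨y, hy, rfl⟩
          exact ⟨y.2, hy⟩
        · rintro ⟨hx, hy⟩
          exact ⟨⟨x, hx⟩, hy, rfl⟩
      rw [h3, h3]
      exact h1)
  set P : Finset (ℕ × Bool) := Q.map (Function.Embedding.subtype _) with hP
  have hPF : P ⊆ F := by
    intro x hx
    rw [hP, mem_map] at hx
    obtain ⟨y, -, rfl⟩ := hx
    exact y.2
  refine ⟨U.filter (fun c => ed c false ∈ P), fun i => ?_⟩
  have h1 := key P hPF i false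
  have h3 : ∀ (p : ℕ × Bool → Fin t × Bool), (Q.filter (fun x => p x.1 = (i, false))).card =
      (P.filter (fun x => p x = (i, false))).card := by
    intro p
    rw [← Finset.card_map (Function.Embedding.subtype _)]
    congr 1
    ext x
    simp only [hP, mem_map, mem_filter, Function.Embedding.coe_subtype]
    constructor
    · rintro ⟨y, ⟨hy, hy'⟩, rfl⟩
      exact ⟨⟨y, hy, rfl⟩, hy'⟩
    · rintro ⟨⟨y, hy, rfl⟩, hy'⟩
      exact ⟨y, ⟨hy, hy'⟩, rfl⟩
  have h4 := hQ (i, false)
  rw [h3, h3, h1] at h4
  rw [← h4]
  congr 1
  ext c
  simp only [mem_inter, mem_filter]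
  constructor
  · rintro ⟨h5, -, h6⟩
    exact ⟨h5, h6⟩
  · rintro ⟨h5, h6⟩
    refine ⟨h5, ?_, h6⟩
    rw [hU, mem_biUnion]
    exact ⟨i, mem_univ _, h5⟩

/-- Claw-free graphs, an even number of colours, every colour in at most two of the lists. -/
theorem sparse_even : ∀ (m : ℕ) (t : ℕ) (V : Type) [Finite V] (G : SimpleGraph V), ClawFree G →
    G.Colorable (2 * m) → ∀ A : Fin t → Finset ℕ, (∀ i, 2 * m ≤ (A i).card) →
      (∀ c, (univ.filter (fun i => c ∈ A i)).card ≤ 2) → FromSystem G A := by
  classical
  intro m
  induction m with
  | zero =>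
    intro t V _ G hG hcol A hA hdeg
    exact clawFree_case t 0 (by norm_num) V G hG hcol A (fun i => Nat.zero_le _)
  | succ m ih =>
    intro t V _ G hG hcol A hA hdeg
    have hsh : ∀ i, ∃ B ⊆ A i, B.card = 2 * (m + 1) :=
      fun i => Finset.exists_subset_card_eq (hA i)
    choose B hB hBc using hsh
    have hdegB : ∀ c, (univ.filter (fun i => c ∈ B i)).card ≤ 2 := by
      intro c
      refine le_trans (Finset.card_le_card ?_) (hdeg c)
      intro i hi
      rw [mem_filter] at hi ⊢
      exact ⟨hi.1, hB i hi.2⟩
    obtain ⟨P, hP⟩ := two_part (Nat.succ_pos m) B hBc hdegB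
    obtain ⟨S, hS1, hS2⟩ := exists_split G (2 * (m + 1)) 2 (by omega) hcol
    refine fromSystem_split G S A (fun i => B i ∩ P) (fun i => B i \ P) ?_ ?_ ?_ ?_ ?_
    · intro i; exact Finset.inter_subset_left.trans (hB i)
    · intro i; exact Finset.sdiff_subset.trans (hB i)
    · intro i j
      rw [Finset.disjoint_left]
      intro c hc hc'
      rw [Finset.mem_inter] at hc
      rw [Finset.mem_sdiff] at hc'
      exact hc'.2 hc.2
    · exact clawFree_case t 2 le_rfl _ _ (clawFree_hereditary V G S hG) hS1 _
        (fun i => (hP i).ge)
    · have e : 2 * (m + 1) - 2 = 2 * m := by omega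
      rw [e] at hS2
      refine ih t _ _ (clawFree_hereditary V G Sᶜ hG) hS2 _ (fun i => ?_) (fun c => ?_)
      · have h1 := Finset.card_sdiff_add_card_inter (B i) P
        have h2 := hP i
        have h3 := hBc i
        omega
      · refine le_trans (Finset.card_le_card ?_) (hdegB c)
        intro i hi
        rw [mem_filter] at hi ⊢
        exact ⟨hi.1, (mem_sdiff.1 hi.2).1⟩

/-- Disjoint sets `C j` of colours that meet all the lists, the other colours belong to at most
two lists. -/
theorem sparse_general (k r t : ℕ) (V : Type) [Finite V] (G : SimpleGraph V)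
    (hG : ClawFree G) (hcol : G.Colorable k) (A : Fin t → Finset ℕ) (C : Fin r → Finset ℕ)
    (hr : r ≤ k) (hev : Even (k - r)) (hdisj : ∀ i j, i ≠ j → Disjoint (C i) (C j))
    (hmeet : ∀ i j, (A i ∩ C j).Nonempty) (hA : ∀ i, k ≤ (A i \ univ.biUnion C).card + r)
    (hdeg : ∀ c ∉ univ.biUnion C, (univ.filter (fun i => c ∈ A i)).card ≤ 2) :
    FromSystem G A := by
  classical
  obtain ⟨S, hS1, hS2⟩ := exists_split G k r hr hcol
  obtain ⟨m, hm⟩ := hev
  have hm' : k - r = 2 * m := by omega
  rw [hm'] at hS2
  refine fromSystem_split G S A (fun i => A i ∩ univ.biUnion C) (fun i => A i \ univ.biUnion C)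
    (fun i => inter_subset_left) (fun i => sdiff_subset) ?_ ?_ ?_
  · intro i j
    rw [Finset.disjoint_left]
    intro c hc hc'
    rw [Finset.mem_inter] at hc
    rw [Finset.mem_sdiff] at hc'
    exact hc'.2 hc.2
  · obtain ⟨c⟩ := hS1
    choose x hx using hmeet
    intro τ
    refine ⟨fun v => x (τ v) (c v), fun v => ?_, ?_⟩
    · have h := mem_inter.1 (hx (τ v) (c v))
      rw [mem_inter, mem_biUnion]
      exact ⟨h.1, c v, mem_univ _, h.2⟩
    · intro u v huv h
      have h1 := (mem_inter.1 (hx (τ u) (c u))).2
      have h2 := (mem_inter.1 (hx (τ v) (c v))).2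
      have h3 := Finset.disjoint_left.1 (hdisj _ _ (c.valid huv)) h1
      apply h3
      have h4 : x (τ u) (c u) = x (τ v) (c v) := h
      rw [h4]
      exact h2
  · refine sparse_even m t _ _ (clawFree_hereditary V G Sᶜ hG) hS2 _ (fun i => ?_) (fun c => ?_)
    · have h1 := hA i
      omega
    · by_cases hc : c ∈ univ.biUnion C
      · have : (univ.filter (fun i => c ∈ A i \ univ.biUnion C)) = ∅ := by
          rw [filter_eq_empty_iff]
          intro i _ h
          exact (mem_sdiff.1 h).2 hc
        rw [this]
        simp
      · refine le_trans (Finset.card_le_card ?_) (hdeg c hc)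
        intro i hi
        rw [mem_filter] at hi ⊢
        exact ⟨hi.1, (mem_sdiff.1 hi.2).1⟩

/-- The same for a list assignment. -/
theorem sparse_assignment (k r : ℕ) (V : Type) [Finite V] (G : SimpleGraph V)
    (hG : ClawFree G) (hcol : G.Colorable k) (L : V → Finset ℕ) (C : Fin r → Finset ℕ)
    (hr : r ≤ k) (hev : Even (k - r)) (hdisj : ∀ i j, i ≠ j → Disjoint (C i) (C j))
    (hmeet : ∀ v j, (L v ∩ C j).Nonempty) (hL : ∀ v, k ≤ (L v \ univ.biUnion C).card + r)
    (hdeg : ∀ c ∉ univ.biUnion C, {S | S ∈ Set.range L ∧ c ∈ S}.ncard ≤ 2) :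
    ∃ f : V → ℕ, (∀ v, f v ∈ L v) ∧ ∀ u v, G.Adj u v → f u ≠ f v := by
  classical
  have hfin : (Set.range L).Finite := Set.finite_range L
  set s : Finset (Finset ℕ) := hfin.toFinset with hs
  have hmem : ∀ v, L v ∈ s := fun v => by simp [hs]
  have hrange : ∀ S ∈ s, S ∈ Set.range L := by
    intro S hS
    rwa [hs, Set.Finite.mem_toFinset] at hS
  have h1 : FromSystem G (fun i : Fin s.card => (s.equivFin.symm i : Finset ℕ)) := by
    refine sparse_general k r s.card V G hG hcol _ C hr hev hdisj ?_ ?_ ?_
    · intro i j
      obtain ⟨v, hv⟩ := hrange _ (s.equivFin.symm i).2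
      rw [← hv]
      exact hmeet v j
    · intro i
      obtain ⟨v, hv⟩ := hrange _ (s.equivFin.symm i).2
      rw [← hv]
      exact hL v
    · intro c hc
      refine le_trans ?_ (hdeg c hc)
      have hf : {S | S ∈ Set.range L ∧ c ∈ S}.Finite := hfin.subset (fun S hS => hS.1)
      rw [Set.ncard_eq_toFinset_card _ hf]
      refine Finset.card_le_card_of_injOn (fun i => (s.equivFin.symm i : Finset ℕ)) ?_ ?_
      · intro i hi
        rw [mem_coe, mem_filter] at hi
        rw [mem_coe, Set.Finite.mem_toFinset]
        exact ⟨hrange _ (s.equivFin.symm i).2, hi.2⟩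
      · intro i _ j _ hij
        exact s.equivFin.symm.injective (Subtype.ext hij)
  obtain ⟨f, hf, hfp⟩ := h1 (fun v => s.equivFin ⟨L v, hmem v⟩)
  refine ⟨f, fun v => ?_, hfp⟩
  have := hf v
  simpa using this

end Pool.Agent.H29.FewLists
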