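import Pool.Agent.H29.FewLists.TwoClasses

/-!
# List systems

`A : Fin t → Finset ℕ` is a system of `t` lists.
-/

namespace Pool.Agent.H29.FewLists

open Finset

/-- `G` can be properly coloured whenever every vertex gets one of the lists `A i`. -/
def FromSystem {V : Type} {t : ℕ} (G : SimpleGraph V) (A : Fin t → Finset ℕ) : Prop :=
  ∀ τ : V → Fin t, ∃ f : V → ℕ, (∀ v, f v ∈ A (τ v)) ∧ ∀ u v, G.Adj u v → f u ≠ f v

/-- A class of finite graphs, closed under taking induced subgraphs. -/
def Hereditary (C : (V : Type) → SimpleGraph V → Prop) : Prop :=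
  ∀ (V : Type) (G : SimpleGraph V) (S : Set V), C V G → C S (G.induce S)

/-- All `k`-colourable finite graphs of the class can be coloured from all systems of `t`
lists of at least `k` colours. -/
def Case (C : (V : Type) → SimpleGraph V → Prop) (t k : ℕ) : Prop :=
  ∀ (V : Type) [Finite V] (G : SimpleGraph V), C V G → G.Colorable k →
    ∀ A : Fin t → Finset ℕ, (∀ i, k ≤ (A i).card) → FromSystem G A

/-- Splitting the colours and the vertices. -/
theorem fromSystem_split {V : Type} {t : ℕ} (G : SimpleGraph V) (S : Set V)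
    (A B C : Fin t → Finset ℕ) (hB : ∀ i, B i ⊆ A i) (hC : ∀ i, C i ⊆ A i)
    (hBC : ∀ i j, Disjoint (B i) (C j))
    (h1 : FromSystem (G.induce S) B) (h2 : FromSystem (G.induce Sᶜ) C) : FromSystem G A := by
  classical
  intro τ
  obtain ⟨f, hf, hfp⟩ := h1 (fun v => τ v)
  obtain ⟨g, hg, hgp⟩ := h2 (fun v => τ v)
  refine ⟨fun v => if h : v ∈ S then f ⟨v, h⟩ else g ⟨v, h⟩, ?_, ?_⟩
  · intro v
    by_cases h : v ∈ S
    · simpa [h] using hB _ (hf ⟨v, h⟩)
    · simpa [h] using hC _ (hg ⟨v, h⟩)
  · intro u v huv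
    by_cases hu : u ∈ S <;> by_cases hv : v ∈ S
    · simpa [hu, hv] using hfp ⟨u, hu⟩ ⟨v, hv⟩ huv
    · have := Finset.disjoint_left.1 (hBC (τ u) (τ v)) (hf ⟨u, hu⟩)
      simp only [hu, hv, dite_true, dite_false]
      intro h
      rw [h] at this
      exact this (hg ⟨v, hv⟩)
    · have := Finset.disjoint_left.1 (hBC (τ v) (τ u)) (hf ⟨v, hv⟩)
      simp only [hu, hv, dite_true, dite_false]
      intro h
      rw [← h] at this
      exact this (hg ⟨u, hu⟩)
    · simpa [hu, hv] using hgp ⟨u, hu⟩ ⟨v, hv⟩ huv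

/-- The part of a `k`-coloured graph with the first `d` colours is `d`-colourable, the rest is
`(k - d)`-colourable. -/
theorem exists_split {V : Type} (G : SimpleGraph V) (k d : ℕ) (hd : d ≤ k)
    (hG : G.Colorable k) :
    ∃ S : Set V, (G.induce S).Colorable d ∧ (G.induce Sᶜ).Colorable (k - d) := by
  obtain ⟨c⟩ := hG
  refine ⟨{v | (c v).1 < d}, ?_, ?_⟩
  · refine ⟨SimpleGraph.Coloring.mk (fun v => (⟨(c v.1).1, v.2⟩ : Fin d)) ?_⟩
    intro u v huv h
    have h1 := c.valid (v := u.1) (w := v.1) huv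
    apply h1
    have h4 := congrArg (fun x : Fin d => x.1) h
    exact Fin.ext h4
  · refine ⟨SimpleGraph.Coloring.mk (fun v => (⟨(c v.1).1 - d, by
        have h1 := v.2
        have h2 := (c v.1).2
        simp only [Set.mem_compl_iff, Set.mem_ofPred_eq, not_lt] at h1
        omega⟩ : Fin (k - d))) ?_⟩
    intro u v huv h
    have h1 := c.valid (v := u.1) (w := v.1) huv
    apply h1
    have h2 := u.2
    have h3 := v.2
    simp only [Set.mem_compl_iff, Set.mem_ofPred_eq, not_lt] at h2 h3
    have h4 := congrArg (fun x : Fin (k - d) => x.1) h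
    simp only at h4
    exact Fin.ext (by omega)

/-- The type of a colour: the set of the indices of the lists which contain it. -/
def ctype {t : ℕ} (A : Fin t → Finset ℕ) (c : ℕ) : Finset (Fin t) :=
  Finset.univ.filter (fun i => c ∈ A i)

/-- The number of the colours of a given type. -/
def mult {t : ℕ} (A : Fin t → Finset ℕ) (S : Finset (Fin t)) : ℕ :=
  ((Finset.univ.biUnion A).filter (fun c => ctype A c = S)).card

/-- `m` is regular of degree `d`. -/
def Regular {t : ℕ} (m : Finset (Fin t) → ℕ) (d : ℕ) : Prop :=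
  m ∅ = 0 ∧ ∀ i, ∑ S ∈ Finset.univ.filter (fun S : Finset (Fin t) => i ∈ S), m S = d

theorem card_inter_eq {t : ℕ} (A : Fin t → Finset ℕ) (P : Finset ℕ) (i : Fin t) :
    (A i ∩ P).card = ∑ S ∈ Finset.univ.filter (fun S : Finset (Fin t) => i ∈ S),
      (((Finset.univ.biUnion A).filter (fun c => ctype A c = S)) ∩ P).card := by
  classical
  rw [← Finset.card_biUnion]
  · congr 1
    ext c
    simp only [Finset.mem_inter, Finset.mem_biUnion, Finset.mem_filter, Finset.mem_univ, true_and]
    constructor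
    · rintro ⟨h1, h2⟩
      exact ⟨ctype A c, by simp [ctype, h1], ⟨⟨i, h1⟩, rfl⟩, h2⟩
    · rintro ⟨S, hS, ⟨-, rfl⟩, h2⟩
      exact ⟨by simpa [ctype] using hS, h2⟩
  · intro S _ T _ hST
    rw [Function.onFun, Finset.disjoint_left]
    intro c hc hc'
    simp only [Finset.mem_inter, Finset.mem_filter] at hc hc'
    exact hST (hc.1.2.symm.trans hc'.1.2)

theorem regular_mult {t k : ℕ} (A : Fin t → Finset ℕ) (hA : ∀ i, (A i).card = k) :
    Regular (mult A) k := by
  classical
  constructor
  · rw [mult, Finset.card_eq_zero, Finset.filter_eq_empty_iff]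
    intro c hc h
    obtain ⟨i, -, hi⟩ := Finset.mem_biUnion.1 hc
    have : i ∈ ctype A c := by simp [ctype, hi]
    rw [h] at this
    simp at this
  · intro i
    have h := card_inter_eq A (A i) i
    rw [Finset.inter_self, hA] at h
    rw [h]
    apply Finset.sum_congr rfl
    intro S hS
    rw [mult]
    congr 1
    ext c
    simp only [Finset.mem_filter, Finset.mem_inter, iff_self_and, and_imp]
    rintro - rfl
    simpa [ctype] using hS

/-- Every `m ≤ mult A` is realised by a set of colours. -/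
theorem exists_part {t : ℕ} (A : Fin t → Finset ℕ) (m : Finset (Fin t) → ℕ)
    (hm : ∀ S, m S ≤ mult A S) (d : ℕ) (hd : Regular m d) :
    ∃ P : Finset ℕ, ∀ i, (A i ∩ P).card = d := by
  classical
  have h : ∀ S, ∃ Q ⊆ ((Finset.univ.biUnion A).filter (fun c => ctype A c = S)), Q.card = m S :=
    fun S => Finset.exists_subset_card_eq (hm S)
  choose Q hQ hQc using h
  refine ⟨Finset.univ.biUnion Q, fun i => ?_⟩
  rw [card_inter_eq, ← hd.2 i]
  apply Finset.sum_congr rfl
  intro S hS
  rw [← hQc S]
  congr 1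
  ext c
  simp only [Finset.mem_inter, Finset.mem_biUnion, Finset.mem_univ, true_and]
  constructor
  · rintro ⟨h1, T, hT⟩
    have h2 := hQ T hT
    rw [Finset.mem_filter] at h1 h2
    rw [← h1.2, h2.2]
    exact hT
  · intro h1
    exact ⟨hQ S h1, S, h1⟩

/-- The main induction: if every nonzero regular `n` is at least some nonzero regular `m` of degree
at most `D`, the cases `k ≤ D` imply all the cases. -/
theorem case_of_decomposition (C : (V : Type) → SimpleGraph V → Prop) (hC : Hereditary C)
    (t D : ℕ) (hD : ∀ (n : Finset (Fin t) → ℕ) (k : ℕ), 0 < k → Regular n k →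
      ∃ (m : Finset (Fin t) → ℕ) (d : ℕ), 0 < d ∧ d ≤ D ∧ Regular m d ∧ ∀ S, m S ≤ n S)
    (hcase : ∀ k ≤ D, Case C t k) : ∀ k, Case C t k := by
  classical
  intro k
  induction k using Nat.strong_induction_on with
  | _ k ih =>
    intro V _ G hG hcol A hA
    rcases Nat.eq_zero_or_pos k with rfl | hk
    · exact hcase 0 (Nat.zero_le _) V G hG hcol A hA
    -- shrink the lists
    have hsh : ∀ i, ∃ B ⊆ A i, B.card = k := fun i => Finset.exists_subset_card_eq (hA i)
    choose B hB hBc using hsh
    obtain ⟨m, d, hd0, hdD, hmd, hmn⟩ := hD (mult B) k hk (regular_mult B hBc)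
    by_cases hdk : d ≤ k
    · obtain ⟨P, hP⟩ := exists_part B m hmn d hmd
      obtain ⟨S, hS1, hS2⟩ := exists_split G k d hdk hcol
      refine fromSystem_split G S A (fun i => B i ∩ P) (fun i => B i \ P) ?_ ?_ ?_ ?_ ?_
      · intro i; exact Finset.inter_subset_left.trans (hB i)
      · intro i; exact Finset.sdiff_subset.trans (hB i)
      · intro i j
        rw [Finset.disjoint_left]
        intro c hc hc'
        rw [Finset.mem_inter] at hc
        rw [Finset.mem_sdiff] at hc'
        exact hc'.2 hc.2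
      · exact hcase d hdD _ _ (hC V G S hG) hS1 _ (fun i => (hP i).ge)
      · refine ih (k - d) (by omega) _ _ (hC V G Sᶜ hG) hS2 _ (fun i => ?_)
        have h1 := Finset.card_sdiff_add_card_inter (B i) P
        have h2 := hP i
        have h3 := hBc i
        omega
    · exact hcase k (by omega) V G hG hcol A hA

/-- Finiteness: for every `t` finitely many regular `m` suffice (Dickson's lemma). -/
theorem exists_bound (t : ℕ) : ∃ D : ℕ, ∀ (n : Finset (Fin t) → ℕ) (k : ℕ), 0 < k →
    Regular n k → ∃ (m : Finset (Fin t) → ℕ) (d : ℕ), 0 < d ∧ d ≤ D ∧ Regular m d ∧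
      ∀ S, m S ≤ n S := by
  classical
  set R : Set (Finset (Fin t) → ℕ) := {m | ∃ d, 0 < d ∧ Regular m d} with hR
  have hpwo : R.IsPWO := Set.isPWO_of_wellQuasiOrderedLE R
  have hfin : {m | Minimal (· ∈ R) m}.Finite := by
    have hanti : IsAntichain (· ≤ ·) {m | Minimal (· ∈ R) m} := by
      intro a ha b hb hab hle
      exact hab (le_antisymm hle (hb.2 ha.1 hle))
    exact hanti.finite_of_partiallyWellOrderedOn (Set.isPWO_of_wellQuasiOrderedLE _)
  choose! dg hdg using (fun (m : Finset (Fin t) → ℕ) (hm : m ∈ R) => hm)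
  refine ⟨hfin.toFinset.sup dg, ?_⟩
  intro n k hk hn
  have hnR : n ∈ R := ⟨k, hk, hn⟩
  obtain ⟨m, hmn, hm⟩ := hpwo.exists_le_minimal hnR
  refine ⟨m, dg m, (hdg m hm.1).1, ?_, (hdg m hm.1).2, hmn⟩
  exact Finset.le_sup (f := dg) (hfin.mem_toFinset.2 hm)

end Pool.Agent.H29.FewLists
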