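import Pool.Agent.H29.FewLists.Systems

/-!
# Indecomposable regular multihypergraphs on three points
(generated)
-/

namespace Pool.Agent.H29.FewLists

/-- Sums over the sets which contain a given element, `t = 3`. -/
theorem sum3 (n : Finset (Fin 3) → ℕ) :
    (∑ S ∈ Finset.univ.filter (fun S : Finset (Fin 3) => (0 : Fin 3) ∈ S), n S = n {0} + n {0, 1} + n {0, 2} + n {0, 1, 2}) ∧
    (∑ S ∈ Finset.univ.filter (fun S : Finset (Fin 3) => (1 : Fin 3) ∈ S), n S = n {1} + n {0, 1} + n {1, 2} + n {0, 1, 2}) ∧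
    (∑ S ∈ Finset.univ.filter (fun S : Finset (Fin 3) => (2 : Fin 3) ∈ S), n S = n {2} + n {0, 2} + n {1, 2} + n {0, 1, 2}) := by
  refine ⟨?_, ?_, ?_⟩
  · rw [show Finset.univ.filter (fun S : Finset (Fin 3) => (0 : Fin 3) ∈ S) = {{0}, {0, 1}, {0, 2}, {0, 1, 2}} by decide +kernel]
    rw [Finset.sum_insert (by decide +kernel), Finset.sum_insert (by decide +kernel), Finset.sum_insert (by decide +kernel), Finset.sum_singleton]
    ring
  · rw [show Finset.univ.filter (fun S : Finset (Fin 3) => (1 : Fin 3) ∈ S) = {{1}, {0, 1}, {1, 2}, {0, 1, 2}} by decide +kernel]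
    rw [Finset.sum_insert (by decide +kernel), Finset.sum_insert (by decide +kernel), Finset.sum_insert (by decide +kernel), Finset.sum_singleton]
    ring
  · rw [show Finset.univ.filter (fun S : Finset (Fin 3) => (2 : Fin 3) ∈ S) = {{2}, {0, 2}, {1, 2}, {0, 1, 2}} by decide +kernel]
    rw [Finset.sum_insert (by decide +kernel), Finset.sum_insert (by decide +kernel), Finset.sum_insert (by decide +kernel), Finset.sum_singleton]
    ring

theorem pat3 (n : Finset (Fin 3) → ℕ) (ℓ : List (Finset (Fin 3))) (d : ℕ) (hd : 0 < d ∧ d ≤ 2)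
    (hr : (ℓ.count ∅ = 0) ∧ ∀ i : Fin 3, ∑ S ∈ Finset.univ.filter (fun S : Finset (Fin 3) => i ∈ S), ℓ.count S = d)
    (h : ∀ S ∈ ℓ, ℓ.count S ≤ n S) :
    ∃ (m : Finset (Fin 3) → ℕ) (d : ℕ), 0 < d ∧ d ≤ 2 ∧ Regular m d ∧ ∀ S, m S ≤ n S := by
  refine ⟨fun S => ℓ.count S, d, hd.1, hd.2, hr, fun S => ?_⟩
  by_cases hS : S ∈ ℓ
  · exact h S hS
  · show ℓ.count S ≤ n S
    rw [List.count_eq_zero_of_not_mem hS]
    exact Nat.zero_le _

theorem pat3_0 (n : Finset (Fin 3) → ℕ) (h3 : 1 ≤ n {0, 1}) (h4 : 1 ≤ n {2}) :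
    ∃ (m : Finset (Fin 3) → ℕ) (d : ℕ), 0 < d ∧ d ≤ 2 ∧ Regular m d ∧ ∀ S, m S ≤ n S := by
  apply pat3 n [{0, 1}, {2}] 1 (by decide) (by decide +kernel)
  intro S hS
  simp only [List.mem_cons, List.not_mem_nil, or_false] at hS
  rcases hS with rfl | rfl
  · exact le_of_eq_of_le (by decide +kernel) h3
  · exact le_of_eq_of_le (by decide +kernel) h4

theorem pat3_1 (n : Finset (Fin 3) → ℕ) (h7 : 1 ≤ n {0, 1, 2}) :
    ∃ (m : Finset (Fin 3) → ℕ) (d : ℕ), 0 < d ∧ d ≤ 2 ∧ Regular m d ∧ ∀ S, m S ≤ n S := by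
  apply pat3 n [{0, 1, 2}] 1 (by decide) (by decide +kernel)
  intro S hS
  simp only [List.mem_cons, List.not_mem_nil, or_false] at hS
  subst hS
  · exact le_of_eq_of_le (by decide +kernel) h7

theorem pat3_2 (n : Finset (Fin 3) → ℕ) (h1 : 1 ≤ n {0}) (h6 : 1 ≤ n {1, 2}) :
    ∃ (m : Finset (Fin 3) → ℕ) (d : ℕ), 0 < d ∧ d ≤ 2 ∧ Regular m d ∧ ∀ S, m S ≤ n S := by
  apply pat3 n [{0}, {1, 2}] 1 (by decide) (by decide +kernel)
  intro S hS
  simp only [List.mem_cons, List.not_mem_nil, or_false] at hS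
  rcases hS with rfl | rfl
  · exact le_of_eq_of_le (by decide +kernel) h1
  · exact le_of_eq_of_le (by decide +kernel) h6

theorem pat3_3 (n : Finset (Fin 3) → ℕ) (h2 : 1 ≤ n {1}) (h5 : 1 ≤ n {0, 2}) :
    ∃ (m : Finset (Fin 3) → ℕ) (d : ℕ), 0 < d ∧ d ≤ 2 ∧ Regular m d ∧ ∀ S, m S ≤ n S := by
  apply pat3 n [{1}, {0, 2}] 1 (by decide) (by decide +kernel)
  intro S hS
  simp only [List.mem_cons, List.not_mem_nil, or_false] at hS
  rcases hS with rfl | rfl
  · exact le_of_eq_of_le (by decide +kernel) h2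
  · exact le_of_eq_of_le (by decide +kernel) h5

theorem pat3_4 (n : Finset (Fin 3) → ℕ) (h1 : 1 ≤ n {0}) (h2 : 1 ≤ n {1}) (h4 : 1 ≤ n {2}) :
    ∃ (m : Finset (Fin 3) → ℕ) (d : ℕ), 0 < d ∧ d ≤ 2 ∧ Regular m d ∧ ∀ S, m S ≤ n S := by
  apply pat3 n [{0}, {1}, {2}] 1 (by decide) (by decide +kernel)
  intro S hS
  simp only [List.mem_cons, List.not_mem_nil, or_false] at hS
  rcases hS with rfl | rfl | rfl
  · exact le_of_eq_of_le (by decide +kernel) h1
  · exact le_of_eq_of_le (by decide +kernel) h2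
  · exact le_of_eq_of_le (by decide +kernel) h4

theorem pat3_5 (n : Finset (Fin 3) → ℕ) (h3 : 1 ≤ n {0, 1}) (h5 : 1 ≤ n {0, 2}) (h6 : 1 ≤ n {1, 2}) :
    ∃ (m : Finset (Fin 3) → ℕ) (d : ℕ), 0 < d ∧ d ≤ 2 ∧ Regular m d ∧ ∀ S, m S ≤ n S := by
  apply pat3 n [{0, 1}, {0, 2}, {1, 2}] 2 (by decide) (by decide +kernel)
  intro S hS
  simp only [List.mem_cons, List.not_mem_nil, or_false] at hS
  rcases hS with rfl | rfl | rfl
  · exact le_of_eq_of_le (by decide +kernel) h3
  · exact le_of_eq_of_le (by decide +kernel) h5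
  · exact le_of_eq_of_le (by decide +kernel) h6

theorem decomp3 (n : Finset (Fin 3) → ℕ) (k : ℕ) (hk : 0 < k) (hn : Regular n k) :
    ∃ (m : Finset (Fin 3) → ℕ) (d : ℕ), 0 < d ∧ d ≤ 2 ∧ Regular m d ∧ ∀ S, m S ≤ n S := by
  obtain ⟨e0, e1, e2⟩ := sum3 n
  have f0 := hn.2 0
  rw [e0] at f0
  clear e0
  have f1 := hn.2 1
  rw [e1] at f1
  clear e1
  have f2 := hn.2 2
  rw [e2] at f2
  clear e2
  generalize hx1 : n {0} = x1 at *
  generalize hx2 : n {1} = x2 at *
  generalize hx3 : n {0, 1} = x3 at *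
  generalize hx4 : n {2} = x4 at *
  generalize hx5 : n {0, 2} = x5 at *
  generalize hx6 : n {1, 2} = x6 at *
  generalize hx7 : n {0, 1, 2} = x7 at *
  rcases Nat.eq_zero_or_pos x7 with z7 | p7
  · rcases Nat.eq_zero_or_pos x1 with z1 | p1
    · rcases Nat.eq_zero_or_pos x3 with z3 | p3
      · rcases Nat.eq_zero_or_pos x2 with z2 | p2
        · exact absurd hk (by omega)
        · rcases Nat.eq_zero_or_pos x5 with z5 | p5
          · exact absurd hk (by omega)
          · exact pat3_3 n (by omega) (by omega)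
      · rcases Nat.eq_zero_or_pos x4 with z4 | p4
        · rcases Nat.eq_zero_or_pos x5 with z5 | p5
          · exact absurd hk (by omega)
          · rcases Nat.eq_zero_or_pos x2 with z2 | p2
            · rcases Nat.eq_zero_or_pos x6 with z6 | p6
              · exact absurd hk (by omega)
              · exact pat3_5 n (by omega) (by omega) (by omega)
            · exact pat3_3 n (by omega) (by omega)
        · exact pat3_0 n (by omega) (by omega)
    · rcases Nat.eq_zero_or_pos x6 with z6 | p6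
      · rcases Nat.eq_zero_or_pos x2 with z2 | p2
        · exact absurd hk (by omega)
        · rcases Nat.eq_zero_or_pos x4 with z4 | p4
          · exact absurd hk (by omega)
          · exact pat3_4 n (by omega) (by omega) (by omega)
      · exact pat3_2 n (by omega) (by omega)
  · exact pat3_1 n (by omega)

end Pool.Agent.H29.FewLists
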