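import Pool.Agent.H29.FewLists.Sparse
import Mathlib.Combinatorics.SimpleGraph.Tutte

/-!
# Sets of colours which contain exactly one colour of every list (Tutte's theorem)
-/

namespace Pool.Agent.H29.FewLists

open Finset

/-- The colours which belong to exactly one of the lists `A i`, `i ∈ D`. -/
def cut {T : Type} [DecidableEq T] (A : T → Finset ℕ) (D : Finset T) : Finset ℕ :=
  (D.biUnion A).filter (fun c => (D.filter (fun i => c ∈ A i)).card = 1)

theorem mem_cut {T : Type} [DecidableEq T] (A : T → Finset ℕ) (D : Finset T) (c : ℕ) :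
    c ∈ cut A D ↔ ∃ i ∈ D, c ∈ A i ∧ ∀ j ∈ D, c ∈ A j → j = i := by
  rw [cut, mem_filter, mem_biUnion]
  constructor
  · rintro ⟨-, h⟩
    obtain ⟨i, hi⟩ := card_eq_one.1 h
    have h1 : i ∈ D.filter (fun i => c ∈ A i) := by rw [hi]; simp
    rw [mem_filter] at h1
    refine ⟨i, h1.1, h1.2, fun j hj hjc => ?_⟩
    have h2 : j ∈ D.filter (fun i => c ∈ A i) := mem_filter.2 ⟨hj, hjc⟩
    rw [hi] at h2
    exact mem_singleton.1 h2
  · rintro ⟨i, hi, hic, huniq⟩
    refine ⟨⟨i, hi, hic⟩, card_eq_one.2 ⟨i, ?_⟩⟩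
    ext j
    rw [mem_filter, mem_singleton]
    constructor
    · rintro ⟨hj, hjc⟩
      exact huniq j hj hjc
    · rintro rfl
      exact ⟨hi, hic⟩

theorem deg_three {T : Type} [Fintype T] [DecidableEq T] (A : T → Finset ℕ)
    (hdeg : ∀ c, (univ.filter (fun i => c ∈ A i)).card ≤ 2) (c : ℕ) (i j l : T)
    (hi : c ∈ A i) (hj : c ∈ A j) (hl : c ∈ A l) : i = j ∨ i = l ∨ j = l := by
  by_contra h
  push Not at h
  obtain ⟨h1, h2, h3⟩ := h
  have h4 : ({i, j, l} : Finset T) ⊆ univ.filter (fun i => c ∈ A i) := by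
    intro x hx
    simp only [mem_insert, mem_singleton] at hx
    rw [mem_filter]
    rcases hx with rfl | rfl | rfl <;> simp [*]
  have h5 := Finset.card_le_card h4
  rw [Finset.card_eq_three.2 ⟨i, j, l, h1, h2, h3, rfl⟩] at h5
  have := hdeg c
  omega

/-- The number of the colours in exactly one list has the right parity. -/
theorem cut_parity {T : Type} [Fintype T] [DecidableEq T] (k : ℕ) (A : T → Finset ℕ)
    (hA : ∀ i, (A i).card = k) (hdeg : ∀ c, (univ.filter (fun i => c ∈ A i)).card ≤ 2)
    (hk : Odd k) (D : Finset T) (hD : Odd D.card) : Odd (cut A D).card := by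
  have h1 : ∑ i ∈ D, (A i).card = ∑ c ∈ D.biUnion A, (D.filter (fun i => c ∈ A i)).card := by
    have h2 : ∀ i ∈ D, (A i).card = ∑ c ∈ D.biUnion A, if c ∈ A i then 1 else 0 := by
      intro i hi
      rw [← Finset.sum_filter, Finset.sum_const, smul_eq_mul, mul_one]
      congr 1
      ext c
      rw [mem_filter, mem_biUnion]
      constructor
      · intro h; exact ⟨⟨i, hi, h⟩, h⟩
      · exact fun h => h.2
    rw [Finset.sum_congr rfl h2, Finset.sum_comm]
    refine Finset.sum_congr rfl (fun c _ => ?_)
    rw [Finset.card_filter]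
  rw [Finset.sum_congr rfl (fun i _ => hA i), Finset.sum_const, smul_eq_mul] at h1
  have h3 : ∀ c ∈ D.biUnion A, (D.filter (fun i => c ∈ A i)).card =
      (if (D.filter (fun i => c ∈ A i)).card = 1 then 1 else 0) +
        2 * (if (D.filter (fun i => c ∈ A i)).card = 1 then 0 else 1) := by
    intro c hc
    obtain ⟨i, hi, hic⟩ := mem_biUnion.1 hc
    have h4 : 0 < (D.filter (fun i => c ∈ A i)).card := card_pos.2 ⟨i, mem_filter.2 ⟨hi, hic⟩⟩
    have h5 : (D.filter (fun i => c ∈ A i)).card ≤ 2 :=
      le_trans (Finset.card_le_card (Finset.filter_subset_filter _ (subset_univ _))) (hdeg c)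
    split_ifs <;> omega
  rw [Finset.sum_congr rfl h3, Finset.sum_add_distrib, ← Finset.mul_sum] at h1
  have h6 : (cut A D).card = ∑ c ∈ D.biUnion A,
      (if (D.filter (fun i => c ∈ A i)).card = 1 then 1 else 0) := by
    rw [cut, Finset.card_filter]
  rw [← h6] at h1
  have h7 : Odd (D.card * k) := hD.mul hk
  rw [h1] at h7
  by_contra h8
  rw [Nat.not_odd_iff_even] at h8
  exact (Nat.not_odd_iff_even.2 (h8.add (even_two_mul _))) h7

/-- The graph to which Tutte's theorem is applied. -/
def tg {T : Type} [DecidableEq T] (A : T → Finset ℕ) (D : Finset T) : SimpleGraph (T ⊕ T) where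
  Adj x y := match x, y with
    | .inl i, .inl j => i ≠ j ∧ i ∈ D ∧ j ∈ D ∧ ∃ c, c ∈ A i ∧ c ∈ A j
    | .inl i, .inr _ => i ∉ D ∨ ∃ c ∈ A i, ∀ j ∈ D, j ≠ i → c ∉ A j
    | .inr _, .inl i => i ∉ D ∨ ∃ c ∈ A i, ∀ j ∈ D, j ≠ i → c ∉ A j
    | .inr i, .inr j => i ≠ j
  symm := by
    constructor
    rintro (i | i) (j | j) h
    · exact ⟨h.1.symm, h.2.2.1, h.2.1, h.2.2.2.imp (fun c hc => hc.symm)⟩
    · exact h
    · exact h
    · exact h.symm
  loopless := by
    constructor
    rintro (i | i) h
    · exact h.1 rfl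
    · exact h rfl

theorem transversal {T : Type} [Fintype T] [DecidableEq T] (k : ℕ) (hk : 0 < k)
    (A : T → Finset ℕ) (hA : ∀ i, (A i).card = k)
    (hdeg : ∀ c, (univ.filter (fun i => c ∈ A i)).card ≤ 2) (D : Finset T)
    (hcut : ∀ E ⊆ D, Odd E.card → (∀ i ∈ E, ∀ c ∈ A i, ∃ j ∈ D, j ≠ i ∧ c ∈ A j) →
      k ≤ (cut A E).card) :
    ∃ n : T → ℕ, (∀ i ∈ D, n i ∈ A i) ∧ ∀ i ∈ D, ∀ j ∈ D, n i ∈ A j → n j = n i := by
  classical
  by_cases hM : ∃ M : (tg A D).Subgraph, M.IsPerfectMatching
  · obtain ⟨M, hM⟩ := hM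
    rw [SimpleGraph.Subgraph.isPerfectMatching_iff] at hM
    choose p hp hp' using hM
    have hadj : ∀ v, (tg A D).Adj v (p v) := fun v => (hp v).adj_sub
    refine ⟨fun i => match p (.inl i) with
      | .inl j => sInf {c | c ∈ A i ∧ c ∈ A j}
      | .inr _ => sInf {c | c ∈ A i ∧ ∀ j ∈ D, j ≠ i → c ∉ A j}, ?_, ?_⟩
    · intro i hi
      have h1 := hadj (.inl i)
      beta_reduce
      rcases h : p (.inl i) with l | l
      · rw [h] at h1
        simp only
        obtain ⟨-, -, -, c, hc⟩ := h1
        exact (Nat.sInf_mem (s := {c | c ∈ A i ∧ c ∈ A l}) ⟨c, hc⟩).1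
      · rw [h] at h1
        simp only
        rcases h1 with h1 | ⟨c, hc, hc'⟩
        · exact absurd hi h1
        · exact (Nat.sInf_mem (s := {c | c ∈ A i ∧ ∀ j ∈ D, j ≠ i → c ∉ A j}) ⟨c, hc, hc'⟩).1
    · intro i hi j hj hij
      by_cases hne : j = i
      · rw [hne]
      have h1 := hadj (.inl i)
      beta_reduce at hij ⊢
      rcases h : p (.inl i) with l | l
      · rw [h] at h1 hij
        simp only at hij
        obtain ⟨hil, -, -, c, hc⟩ := h1
        have h2 := Nat.sInf_mem (s := {c | c ∈ A i ∧ c ∈ A l}) ⟨c, hc⟩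
        have h3 : j = l := by
          rcases deg_three A hdeg _ i j l h2.1 hij h2.2 with h | h | h
          · exact absurd h.symm hne
          · exact absurd h hil
          · exact h
        subst h3
        have h4 : p (.inl j) = .inl i := by
          refine (hp' _ _ ?_).symm
          have := hp (.inl i)
          rw [h] at this
          exact this.symm
        rw [h4]
        simp only
        congr 1
        ext c
        exact and_comm
      · exfalso
        rw [h] at h1 hij
        simp only at hij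
        rcases h1 with h1 | ⟨c, hc, hc'⟩
        · exact h1 hi
        · exact (Nat.sInf_mem (s := {c | c ∈ A i ∧ ∀ j ∈ D, j ≠ i → c ∉ A j})
            ⟨c, hc, hc'⟩).2 j hj hne hij
  · exfalso
    rw [SimpleGraph.tutte] at hM
    push Not at hM
    obtain ⟨U, hU⟩ := hM
    rw [SimpleGraph.IsTutteViolator] at hU
    set H := ((⊤ : (tg A D).Subgraph).deleteVerts U) with hH
    have hverts : ∀ v, v ∈ H.verts ↔ v ∉ U := by
      intro v
      rw [hH, SimpleGraph.Subgraph.deleteVerts_verts]
      simp
    have hHadj : ∀ x y, H.Adj x y ↔ x ∉ U ∧ y ∉ U ∧ (tg A D).Adj x y := by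
      intro x y
      rw [hH, SimpleGraph.Subgraph.deleteVerts_adj]
      simp
    have hadjH : ∀ (x y : T ⊕ T) (hx : x ∈ H.verts) (hy : y ∈ H.verts), (tg A D).Adj x y →
        H.coe.connectedComponentMk ⟨x, hx⟩ = H.coe.connectedComponentMk ⟨y, hy⟩ := by
      intro x y hx hy hxy
      rw [SimpleGraph.ConnectedComponent.eq]
      refine SimpleGraph.Adj.reachable ?_
      rw [SimpleGraph.Subgraph.coe_adj, hHadj]
      exact ⟨(hverts _).1 hx, (hverts _).1 hy, hxy⟩
    have hcardV : Nat.card H.verts + U.ncard = 2 * Fintype.card T := by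
      have h1 : H.verts = Uᶜ := by
        ext v
        rw [hverts]
        rfl
      rw [h1, Nat.card_coe_set_eq, Set.ncard_compl_add_ncard, Nat.card_eq_fintype_card,
        Fintype.card_sum]
      omega
    have hpar := SimpleGraph.odd_ncard_oddComponents (G := H.coe)
    have hge : U.ncard + 2 ≤ H.coe.oddComponents.ncard := by
      rcases Nat.even_or_odd (Nat.card H.verts) with h | h
      · have h1 : ¬ Odd H.coe.oddComponents.ncard := by
          rw [hpar]
          exact Nat.not_odd_iff_even.2 h
        rw [Nat.not_odd_iff_even] at h1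
        rw [Nat.even_iff] at h h1
        omega
      · have h1 := hpar.2 h
        rw [Nat.odd_iff] at h h1
        omega
    by_cases hw : ∃ j, Sum.inr j ∉ U
    · obtain ⟨j0, hj0⟩ := hw
      have hne : Nonempty T := ⟨j0⟩
      have hj0' := (hverts _).2 hj0
      set 𝒬 : Finset H.coe.ConnectedComponent :=
        (Set.toFinite H.coe.oddComponents).toFinset.erase
          (H.coe.connectedComponentMk ⟨.inr j0, hj0'⟩) with h𝒬
      have h𝒬c : U.ncard + 1 ≤ 𝒬.card := by
        have h1 := Finset.pred_card_le_card_erase (s := (Set.toFinite H.coe.oddComponents).toFinset)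
          (a := H.coe.connectedComponentMk ⟨.inr j0, hj0'⟩)
        rw [← Set.ncard_eq_toFinset_card] at h1
        rw [h𝒬]
        omega
      set E : H.coe.ConnectedComponent → Finset T := fun Q => univ.filter
        (fun i => ∃ h : Sum.inl i ∈ H.verts, H.coe.connectedComponentMk ⟨.inl i, h⟩ = Q) with hE
      have hEm : ∀ Q i, i ∈ E Q ↔
          ∃ h : Sum.inl i ∈ H.verts, H.coe.connectedComponentMk ⟨.inl i, h⟩ = Q := by
        intro Q i
        rw [hE]
        simp
      have hnf : ∀ Q ∈ 𝒬, ∀ (v : T ⊕ T) (hv : v ∈ H.verts),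
          H.coe.connectedComponentMk ⟨v, hv⟩ = Q → ¬ (tg A D).Adj v (.inr j0) ∧ v ≠ .inr j0 := by
        intro Q hQ v hv hvQ
        rw [h𝒬, Finset.mem_erase] at hQ
        constructor
        · intro h
          exact hQ.1 (hvQ.symm.trans (hadjH _ _ hv hj0' h))
        · rintro rfl
          exact hQ.1 hvQ.symm
      have hinl : ∀ Q ∈ 𝒬, ∀ (v : T ⊕ T) (hv : v ∈ H.verts),
          H.coe.connectedComponentMk ⟨v, hv⟩ = Q → ∃ i, v = .inl i ∧ i ∈ D ∧
            ∀ c ∈ A i, ∃ j ∈ D, j ≠ i ∧ c ∈ A j := by
        intro Q hQ v hv hvQ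
        obtain ⟨h1, h2⟩ := hnf Q hQ v hv hvQ
        rcases v with i | i
        · refine ⟨i, rfl, ?_, ?_⟩
          · by_contra h
            exact h1 (Or.inl h)
          · intro c hc
            by_contra h
            push Not at h
            exact h1 (Or.inr ⟨c, hc, h⟩)
        · exfalso
          apply h1
          intro h
          exact h2 (by rw [h])
      have hEodd : ∀ Q ∈ 𝒬, Odd (E Q).card := by
        intro Q hQ
        have h1 : Odd Q.supp.ncard := by
          have := (Finset.mem_erase.1 hQ).2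
          rw [Set.Finite.mem_toFinset] at this
          exact this
        have h2 : ((↑) '' Q.supp : Set (T ⊕ T)) = Sum.inl '' (E Q : Set T) := by
          ext v
          constructor
          · rintro ⟨⟨v, hv⟩, hvQ, rfl⟩
            rw [SimpleGraph.ConnectedComponent.mem_supp_iff] at hvQ
            obtain ⟨i, rfl, -, -⟩ := hinl Q hQ v hv hvQ
            exact ⟨i, by rw [Finset.mem_coe, hEm]; exact ⟨hv, hvQ⟩, rfl⟩
          · rintro ⟨i, hi, rfl⟩
            rw [Finset.mem_coe, hEm] at hi
            obtain ⟨h, h'⟩ := hi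
            exact ⟨⟨_, h⟩, (SimpleGraph.ConnectedComponent.mem_supp_iff _ _).2 h', rfl⟩
        have h3 := congrArg Set.ncard h2
        rw [Set.ncard_image_of_injective _ Subtype.val_injective,
          Set.ncard_image_of_injective _ Sum.inl_injective, Set.ncard_coe_finset] at h3
        rw [← h3]
        exact h1
      -- the slots
      set S0 : Finset (Σ _ : T, ℕ) := (univ.filter (fun u => Sum.inl u ∈ U)).sigma A with hS0
      set sl : H.coe.ConnectedComponent → Finset (Σ _ : T, ℕ) := fun Q =>
        S0.filter (fun x => ∃ i ∈ E Q, x.2 ∈ A i) with hsl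
      have hslm : ∀ Q x, x ∈ sl Q ↔ (Sum.inl x.1 ∈ U ∧ x.2 ∈ A x.1) ∧ ∃ i ∈ E Q, x.2 ∈ A i := by
        intro Q x
        rw [hsl, hS0]
        simp
      have hge2 : ∀ Q ∈ 𝒬, k ≤ (sl Q).card := by
        intro Q hQ
        have h1 : k ≤ (cut A (E Q)).card := by
          refine hcut (E Q) ?_ (hEodd Q hQ) ?_
          · intro i hi
            rw [hEm] at hi
            obtain ⟨h, h'⟩ := hi
            obtain ⟨i', hi', hD, -⟩ := hinl Q hQ _ h h'
            rw [Sum.inl.injEq] at hi'
            rw [hi']
            exact hD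
          · intro i hi
            rw [hEm] at hi
            obtain ⟨h, h'⟩ := hi
            obtain ⟨i', hi', -, hD⟩ := hinl Q hQ _ h h'
            rw [Sum.inl.injEq] at hi'
            rw [hi']
            exact hD
        refine h1.trans ?_
        have h2 : ∀ c ∈ cut A (E Q), ∃ j, (⟨j, c⟩ : Σ _ : T, ℕ) ∈ sl Q := by
          intro c hc
          rw [mem_cut] at hc
          obtain ⟨i, hi, hic, huniq⟩ := hc
          have hi0 := hi
          rw [hEm] at hi
          obtain ⟨h, h'⟩ := hi
          obtain ⟨i', hi', hiD, hD⟩ := hinl Q hQ _ h h'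
          rw [Sum.inl.injEq] at hi'
          subst hi'
          obtain ⟨j, hjD, hji, hjc⟩ := hD c hic
          refine ⟨j, ?_⟩
          rw [hslm]
          refine ⟨⟨?_, hjc⟩, i, hi0, hic⟩
          by_contra hjU
          have h3 := (hverts _).2 hjU
          have h4 : j ∈ E Q := by
            rw [hEm]
            refine ⟨h3, ?_⟩
            rw [← h']
            exact hadjH _ _ h3 h ⟨hji, hjD, hiD, c, hjc, hic⟩
          exact hji (huniq j h4 hjc)
        choose! g hg using h2
        refine Finset.card_le_card_of_injOn (fun c => (⟨g c, c⟩ : Σ _ : T, ℕ)) ?_ ?_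
        · intro c hc
          exact hg c hc
        · intro c _ c' _ hcc
          simp only [Sigma.mk.injEq] at hcc
          exact eq_of_heq hcc.2
      have hdisj : ∀ Q ∈ 𝒬, ∀ Q' ∈ 𝒬, Q ≠ Q' → Disjoint (sl Q) (sl Q') := by
        intro Q _ Q' _ hne
        rw [Finset.disjoint_left]
        intro x hx hx'
        rw [hslm] at hx hx'
        obtain ⟨⟨hxU, hxA⟩, i, hi, hic⟩ := hx
        obtain ⟨-, i', hi', hic'⟩ := hx'
        rw [hEm] at hi hi'
        obtain ⟨h1, h2⟩ := hi
        obtain ⟨h3, h4⟩ := hi'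
        apply hne
        rcases deg_three A hdeg _ x.1 i i' hxA hic hic' with h | h | h
        · exact absurd (h ▸ hxU) ((hverts _).1 h1)
        · exact absurd (h ▸ hxU) ((hverts _).1 h3)
        · subst h
          rw [← h2, ← h4]
      have h1 : k * 𝒬.card ≤ S0.card := by
        calc k * 𝒬.card = ∑ _Q ∈ 𝒬, k := by rw [Finset.sum_const, smul_eq_mul, mul_comm]
          _ ≤ ∑ Q ∈ 𝒬, (sl Q).card := Finset.sum_le_sum hge2
          _ = (𝒬.biUnion sl).card := (Finset.card_biUnion hdisj).symm
          _ ≤ S0.card := Finset.card_le_card (by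
              intro x hx
              rw [mem_biUnion] at hx
              obtain ⟨Q, -, hxQ⟩ := hx
              exact (Finset.mem_filter.1 hxQ).1)
      have h2 : S0.card ≤ k * U.ncard := by
        rw [hS0, Finset.card_sigma, Finset.sum_congr rfl (fun i _ => hA i), Finset.sum_const,
          smul_eq_mul, mul_comm]
        refine Nat.mul_le_mul_left _ ?_
        have h3 : (Sum.inl '' ((univ.filter (fun u => Sum.inl u ∈ U) : Finset T) : Set T)) ⊆ U := by
          rintro _ ⟨u, hu, rfl⟩
          rw [Finset.mem_coe, Finset.mem_filter] at hu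
          exact hu.2
        have h4 := Set.ncard_le_ncard h3 (Set.toFinite _)
        rw [Set.ncard_image_of_injective _ Sum.inl_injective, Set.ncard_coe_finset] at h4
        exact h4
      have h3 := h1.trans h2
      have h4 := Nat.le_of_mul_le_mul_left h3 hk
      omega
    · push Not at hw
      have h1 : Fintype.card T ≤ U.ncard := by
        have h3 : (Sum.inr '' (Set.univ : Set T)) ⊆ U := by
          rintro _ ⟨u, -, rfl⟩
          exact hw u
        have h4 := Set.ncard_le_ncard h3 (Set.toFinite _)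
        rw [Set.ncard_image_of_injective _ Sum.inr_injective, Set.ncard_univ,
          Nat.card_eq_fintype_card] at h4
        exact h4
      have h2 : H.coe.oddComponents.ncard ≤ Nat.card H.verts := by
        have h3 : H.coe.oddComponents.ncard ≤ Nat.card H.coe.ConnectedComponent := by
          rw [← Set.ncard_univ]
          exact Set.ncard_le_ncard (Set.subset_univ _) (Set.toFinite _)
        refine h3.trans ?_
        exact Nat.card_le_card_of_surjective (fun v => H.coe.connectedComponentMk v)
          (fun Q => Q.exists_rep)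
      omega

end Pool.Agent.H29.FewLists
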