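import Mathlib

/-!
# Two colour classes

A finite graph with all degrees at most two and a proper colouring with two colours
is colourable from all lists with at least two colours.
-/

namespace Pool.Agent.H29.FewLists

open Finset

/-- In a graph with a proper 2-colouring `c` every finite set `S` of vertices has, for every
orientation `D`, a kernel. -/
theorem exists_kernel {V : Type*} (G : SimpleGraph V) (D : V → V → Prop)
    (hD : ∀ u v, D u v → G.Adj u v) (hor : ∀ u v, G.Adj u v → D u v ∨ D v u)
    (c : V → Bool) (hc : ∀ u v, G.Adj u v → c u ≠ c v) :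
    ∀ (n : ℕ) (S : Finset V), S.card = n →
      ∃ K : Finset V, K ⊆ S ∧ (∀ u ∈ K, ∀ v ∈ K, ¬ G.Adj u v) ∧
        ∀ v ∈ S, v ∉ K → ∃ w ∈ K, D v w := by
  classical
  intro n
  induction n using Nat.strong_induction_on with
  | _ n ih =>
    intro S hS
    by_cases hs : ∃ s ∈ S, ∀ w ∈ S, ¬ D s w
    · obtain ⟨s, hsS, hsink⟩ := hs
      set S' := S.filter (fun v => v ≠ s ∧ ¬ D v s) with hS'
      have hlt : S'.card < n := by
        rw [← hS]
        apply Finset.card_lt_card
        rw [Finset.ssubset_iff_of_subset (Finset.filter_subset _ _)]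
        exact ⟨s, hsS, by simp⟩
      obtain ⟨K, hKS, hKi, hKd⟩ := ih _ hlt S' rfl
      refine ⟨insert s K, ?_, ?_, ?_⟩
      · intro x hx
        rcases Finset.mem_insert.1 hx with rfl | hx
        · exact hsS
        · exact (Finset.mem_filter.1 (hKS hx)).1
      · have key : ∀ v ∈ K, ¬ G.Adj s v := by
          intro v hv hadj
          have hv' := Finset.mem_filter.1 (hKS hv)
          rcases hor s v hadj with h | h
          · exact hsink v hv'.1 h
          · exact hv'.2.2 h
        intro u hu v hv
        rcases Finset.mem_insert.1 hu with hu | hu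
        · rcases Finset.mem_insert.1 hv with hv | hv
          · rw [hu, hv]; exact G.loopless.irrefl _
          · rw [hu]; exact key v hv
        · rcases Finset.mem_insert.1 hv with hv | hv
          · rw [hv]; exact fun h => key u hu h.symm
          · exact hKi u hu v hv
      · intro v hv hvK
        by_cases hvs : v = s
        · exact absurd (Finset.mem_insert.2 (Or.inl hvs)) hvK
        by_cases hDvs : D v s
        · exact ⟨s, Finset.mem_insert_self _ _, hDvs⟩
        · have hvS' : v ∈ S' := Finset.mem_filter.2 ⟨hv, hvs, hDvs⟩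
          obtain ⟨w, hw, hDw⟩ := hKd v hvS' (fun h => hvK (Finset.mem_insert_of_mem h))
          exact ⟨w, Finset.mem_insert_of_mem hw, hDw⟩
    · push Not at hs
      refine ⟨S.filter (fun v => c v = true), Finset.filter_subset _ _, ?_, ?_⟩
      · intro u hu v hv h
        exact hc u v h ((Finset.mem_filter.1 hu).2.trans (Finset.mem_filter.1 hv).2.symm)
      · intro v hv hvK
        obtain ⟨w, hw, hDw⟩ := hs v hv
        refine ⟨w, Finset.mem_filter.2 ⟨hw, ?_⟩, hDw⟩
        have h1 : c v ≠ c w := hc v w (hD v w hDw)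
        have h2 : c v ≠ true := fun h => hvK (Finset.mem_filter.2 ⟨hv, h⟩)
        cases hcv : c v <;> cases hcw : c w <;> simp_all

/-- List colouring from an orientation with out-degrees at most one. -/
theorem colour_of_orientation {V : Type*} [DecidableEq V] (G : SimpleGraph V) (D : V → V → Prop)
    (hD : ∀ u v, D u v → G.Adj u v) (hor : ∀ u v, G.Adj u v → D u v ∨ D v u)
    (hout : ∀ u v w, D u v → D u w → v = w)
    (c : V → Bool) (hc : ∀ u v, G.Adj u v → c u ≠ c v) :
    ∀ (n : ℕ) (S : Finset V), S.card = n → ∀ L : V → Finset ℕ,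
      (∀ v ∈ S, 1 ≤ (L v).card) → (∀ v ∈ S, (∃ w ∈ S, D v w) → 2 ≤ (L v).card) →
      ∃ f : V → ℕ, (∀ v ∈ S, f v ∈ L v) ∧ ∀ u ∈ S, ∀ v ∈ S, G.Adj u v → f u ≠ f v := by
  classical
  intro n
  induction n using Nat.strong_induction_on with
  | _ n ih =>
    intro S hS L h1 h2
    rcases S.eq_empty_or_nonempty with rfl | ⟨x, hx⟩
    · exact ⟨fun _ => 0, by simp, by simp⟩
    obtain ⟨a, ha⟩ := Finset.card_pos.1 (h1 x hx)
    set T := S.filter (fun v => a ∈ L v) with hT
    obtain ⟨K, hKT, hKi, hKd⟩ := exists_kernel G D hD hor c hc _ T rfl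
    have hxT : x ∈ T := Finset.mem_filter.2 ⟨hx, ha⟩
    have hKne : K.Nonempty := by
      by_contra h
      rw [Finset.not_nonempty_iff_eq_empty] at h
      obtain ⟨w, hw, -⟩ := hKd x hxT (by simp [h])
      simp [h] at hw
    have hlt : (S \ K).card < n := by
      rw [← hS]
      apply Finset.card_lt_card
      obtain ⟨y, hy⟩ := hKne
      rw [Finset.ssubset_iff_of_subset Finset.sdiff_subset]
      exact ⟨y, (Finset.mem_filter.1 (hKT hy)).1, by simp [hy]⟩
    obtain ⟨f, hf, hfp⟩ := ih _ hlt (S \ K) rfl (fun v => (L v).erase a) (by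
      intro v hv
      rw [Finset.mem_sdiff] at hv
      by_cases hav : a ∈ L v
      · obtain ⟨w, hw, hDw⟩ := hKd v (Finset.mem_filter.2 ⟨hv.1, hav⟩) hv.2
        have := h2 v hv.1 ⟨w, (Finset.mem_filter.1 (hKT hw)).1, hDw⟩
        rw [Finset.card_erase_of_mem hav]
        omega
      · rw [Finset.erase_eq_of_notMem hav]
        exact h1 v hv.1) (by
      rintro v hv ⟨w, hw, hDw⟩
      rw [Finset.mem_sdiff] at hv hw
      by_cases hav : a ∈ L v
      · obtain ⟨w', hw', hDw'⟩ := hKd v (Finset.mem_filter.2 ⟨hv.1, hav⟩) hv.2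
        have := hout v w w' hDw hDw'
        subst this
        exact absurd hw' hw.2
      · rw [Finset.erase_eq_of_notMem hav]
        exact h2 v hv.1 ⟨w, hw.1, hDw⟩)
    refine ⟨fun v => if v ∈ K then a else f v, ?_, ?_⟩
    · intro v hv
      by_cases hvK : v ∈ K
      · simp only [hvK, if_true]
        exact (Finset.mem_filter.1 (hKT hvK)).2
      · simp only [hvK, if_false]
        exact Finset.mem_of_mem_erase (hf v (Finset.mem_sdiff.2 ⟨hv, hvK⟩))
    · intro u hu v hv huv
      by_cases huK : u ∈ K <;> by_cases hvK : v ∈ K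
      · exact absurd huv (hKi u huK v hvK)
      · simp only [huK, hvK, if_true, if_false]
        exact (Finset.ne_of_mem_erase (hf v (Finset.mem_sdiff.2 ⟨hv, hvK⟩))).symm
      · simp only [huK, hvK, if_true, if_false]
        exact Finset.ne_of_mem_erase (hf u (Finset.mem_sdiff.2 ⟨hu, huK⟩))
      · simp only [huK, hvK, if_false]
        exact hfp u (Finset.mem_sdiff.2 ⟨hu, huK⟩) v (Finset.mem_sdiff.2 ⟨hv, hvK⟩) huv

/-- A finite graph with all degrees at most two has an orientation with all out-degrees
at most one. -/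
theorem exists_orientation {V : Type*} [Finite V] (G : SimpleGraph V)
    (hG : ∀ v, (G.neighborSet v).ncard ≤ 2) :
    ∃ D : V → V → Prop, (∀ u v, D u v → G.Adj u v) ∧ (∀ u v, G.Adj u v → D u v ∨ D v u) ∧
      ∀ u v w, D u v → D u w → v = w := by
  classical
  have := Fintype.ofFinite V
  have hall := (Finset.all_card_le_biUnion_card_iff_exists_injective
    (fun e : G.edgeSet => (Finset.univ.filter (fun v : V => v ∈ (e : Sym2 V))))).1 (by
    intro s
    -- double counting
    set B := s.biUnion (fun e : G.edgeSet => (Finset.univ.filter (fun v : V => v ∈ (e : Sym2 V))))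
      with hB
    have hdc := Finset.sum_card_bipartiteAbove_eq_sum_card_bipartiteBelow
      (s := s) (t := B) (fun (e : G.edgeSet) (v : V) => v ∈ (e : Sym2 V))
    have hl : ∀ e ∈ s, (Finset.bipartiteAbove (fun (e : G.edgeSet) (v : V) => v ∈ (e : Sym2 V)) B e).card = 2 := by
      rintro ⟨e, he⟩ hes
      induction e with
      | _ x y =>
        have hxy : G.Adj x y := he
        have : Finset.bipartiteAbove (fun (e : G.edgeSet) (v : V) => v ∈ (e : Sym2 V)) B ⟨s(x, y), he⟩
            = {x, y} := by
          ext v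
          simp only [Finset.mem_bipartiteAbove, Sym2.mem_iff, Finset.mem_insert,
            Finset.mem_singleton, and_iff_right_iff_imp]
          intro hv
          rw [hB, Finset.mem_biUnion]
          exact ⟨⟨s(x, y), he⟩, hes, by simpa using hv⟩
        rw [this, Finset.card_pair hxy.ne]
    have hr : ∀ v ∈ B, (Finset.bipartiteBelow (fun (e : G.edgeSet) (v : V) => v ∈ (e : Sym2 V)) s v).card ≤ 2 := by
      intro v _
      have h2 := hG v
      rw [Set.ncard_eq_toFinset_card'] at h2
      refine le_trans ?_ h2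
      apply Finset.card_le_card_of_injOn
        (fun e : G.edgeSet => if h : v ∈ (e : Sym2 V) then Sym2.Mem.other h else v)
      · intro e he
        have he' : v ∈ (e : Sym2 V) := by
          have := (Finset.mem_bipartiteBelow _).1 he
          exact this.2
        simp only [he', dite_true, Set.coe_toFinset, SimpleGraph.mem_neighborSet]
        have h3 := Sym2.other_spec he'
        have h4 := e.2
        rw [← h3, SimpleGraph.mem_edgeSet] at h4
        exact h4
      · intro e he e' he' hee
        have h1 : v ∈ (e : Sym2 V) := by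
          have := (Finset.mem_bipartiteBelow _).1 he
          exact this.2
        have h2 : v ∈ (e' : Sym2 V) := by
          have := (Finset.mem_bipartiteBelow _).1 he'
          exact this.2
        simp only [h1, h2, dite_true] at hee
        apply Subtype.ext
        rw [← Sym2.other_spec h1, ← Sym2.other_spec h2, hee]
    have e1 : ∑ e ∈ s, (Finset.bipartiteAbove (fun (e : G.edgeSet) (v : V) => v ∈ (e : Sym2 V)) B e).card
        = 2 * s.card := by
      rw [Finset.sum_congr rfl hl]; simp [mul_comm]
    have e2 : ∑ v ∈ B, (Finset.bipartiteBelow (fun (e : G.edgeSet) (v : V) => v ∈ (e : Sym2 V)) s v).card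
        ≤ 2 * B.card := by
      refine le_trans (Finset.sum_le_sum hr) ?_
      simp [mul_comm]
    omega)
  obtain ⟨τ, hτi, hτ⟩ := hall
  have hτ' : ∀ e : G.edgeSet, τ e ∈ (e : Sym2 V) := fun e => by simpa using hτ e
  refine ⟨fun u v => ∃ h : G.Adj u v, τ ⟨s(u, v), h⟩ = u, ?_, ?_, ?_⟩
  · rintro u v ⟨h, -⟩; exact h
  · intro u v h
    have := hτ' ⟨s(u, v), h⟩
    rw [Sym2.mem_iff] at this
    rcases this with h1 | h1
    · exact Or.inl ⟨h, h1⟩
    · right
      refine ⟨h.symm, ?_⟩
      have h2 : (⟨s(v, u), h.symm⟩ : G.edgeSet) = ⟨s(u, v), h⟩ := Subtype.ext Sym2.eq_swap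
      exact (congrArg τ h2).trans h1
  · rintro u v w ⟨h, h1⟩ ⟨h', h2⟩
    have := hτi (h1.trans h2.symm)
    have h3 : s(u, v) = s(u, w) := congrArg Subtype.val this
    exact Sym2.congr_right.1 h3

/-- A finite graph with all degrees at most two and a proper colouring with two colours
is colourable from all lists with at least two colours. -/
theorem two_choosable {V : Type*} [Finite V] (G : SimpleGraph V)
    (hG : ∀ v, (G.neighborSet v).ncard ≤ 2)
    (c : V → Bool) (hc : ∀ u v, G.Adj u v → c u ≠ c v) (L : V → Finset ℕ)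
    (hL : ∀ v, 2 ≤ (L v).card) :
    ∃ f : V → ℕ, (∀ v, f v ∈ L v) ∧ ∀ u v, G.Adj u v → f u ≠ f v := by
  classical
  have := Fintype.ofFinite V
  obtain ⟨D, hD, hor, hout⟩ := exists_orientation G hG
  obtain ⟨f, hf, hf'⟩ := colour_of_orientation G D hD hor hout c hc _ Finset.univ rfl L
    (fun v _ => le_trans (by norm_num) (hL v)) (fun v _ _ => hL v)
  exact ⟨f, fun v => hf v (Finset.mem_univ _), fun u v => hf' u (Finset.mem_univ _) v (Finset.mem_univ _)⟩

end Pool.Agent.H29.FewLists
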