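import Pool.Agent.H29.FewLists.Transversal

/-!
# Sets of colours with exactly two colours of every list (2-factors of regular multigraphs of odd
degree, by Tutte's theorem)
-/

namespace Pool.Agent.H29.FewLists

open Finset

theorem g_small (l a c a' c' : ℕ) (hl : 1 ≤ l) (ha : a + a' = l + 2) (hc : c + c' = l)
    (h : a * c' + a' * c ≤ l) : (c = 0 ∧ a ≤ 1) ∨ (c' = 0 ∧ a' ≤ 1) := by
  rcases Nat.eq_zero_or_pos c with h1 | h1
  · left
    refine ⟨h1, ?_⟩
    subst h1
    have h2 : c' = l := by omega
    subst h2
    by_contra h3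
    rw [not_le] at h3
    nlinarith
  · rcases Nat.eq_zero_or_pos c' with h2 | h2
    · right
      refine ⟨h2, ?_⟩
      subst h2
      have h3 : c = l := by omega
      subst h3
      by_contra h4
      rw [not_le] at h4
      nlinarith
    · exfalso
      have h3 : a ≤ a * c' := Nat.le_mul_of_pos_right _ h2
      have h4 : a' ≤ a' * c := Nat.le_mul_of_pos_right _ h1
      omega

theorem g_parity (l a c a' c' : ℕ) (hl : l % 2 = 1) (ha : a + a' = l + 2) (hc : c + c' = l) :
    (a * c' + a' * c) % 2 = (a + c) % 2 := by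
  rcases Nat.mod_two_eq_zero_or_one a with h1 | h1 <;>
    rcases Nat.mod_two_eq_zero_or_one c with h2 | h2
  · have h3 : a' % 2 = 1 := by omega
    have h4 : c' % 2 = 1 := by omega
    simp [Nat.add_mod, Nat.mul_mod, h1, h2, h3, h4]
  · have h3 : a' % 2 = 1 := by omega
    have h4 : c' % 2 = 0 := by omega
    simp [Nat.add_mod, Nat.mul_mod, h1, h2, h3, h4]
  · have h3 : a' % 2 = 0 := by omega
    have h4 : c' % 2 = 1 := by omega
    simp [Nat.add_mod, Nat.mul_mod, h1, h2, h3, h4]
  · have h3 : a' % 2 = 0 := by omega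
    have h4 : c' % 2 = 0 := by omega
    simp [Nat.add_mod, Nat.mul_mod, h1, h2, h3, h4]

theorem card_X {T : Type} [Fintype T] (k l : ℕ) (p : T × (Fin k ⊕ Fin l) → Prop)
    [DecidablePred p] : (univ.filter p).card =
      ∑ i, ((univ.filter (fun s => p (i, Sum.inl s))).card +
        (univ.filter (fun t => p (i, Sum.inr t))).card) := by
  simp only [Finset.card_filter, Fintype.sum_prod_type, Fintype.sum_sum_type]

/-- The number of the colours in exactly one list has the parity of the number of the lists. -/
theorem cut_mod {T : Type} [Fintype T] [DecidableEq T] (k : ℕ) (A : T → Finset ℕ)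
    (hA : ∀ i, (A i).card = k) (hdeg : ∀ c, (univ.filter (fun i => c ∈ A i)).card ≤ 2)
    (hk : k % 2 = 1) (D : Finset T) : (cut A D).card % 2 = D.card % 2 := by
  have h1 : ∑ i ∈ D, (A i).card = ∑ c ∈ D.biUnion A, (D.filter (fun i => c ∈ A i)).card := by
    have h2 : ∀ i ∈ D, (A i).card = ∑ c ∈ D.biUnion A, if c ∈ A i then 1 else 0 := by
      intro i hi
      rw [← Finset.sum_filter, Finset.sum_const, smul_eq_mul, mul_one]
      congr 1
      ext c
      rw [mem_filter, mem_biUnion]
      constructor
      · intro h; exact ⟨⟨i, hi, h⟩, h⟩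
      · exact fun h => h.2
    rw [Finset.sum_congr rfl h2, Finset.sum_comm]
    refine Finset.sum_congr rfl (fun c _ => ?_)
    rw [Finset.card_filter]
  rw [Finset.sum_congr rfl (fun i _ => hA i), Finset.sum_const, smul_eq_mul] at h1
  have h3 : ∀ c ∈ D.biUnion A, (D.filter (fun i => c ∈ A i)).card =
      (if (D.filter (fun i => c ∈ A i)).card = 1 then 1 else 0) +
        2 * (if (D.filter (fun i => c ∈ A i)).card = 1 then 0 else 1) := by
    intro c hc
    obtain ⟨i, hi, hic⟩ := mem_biUnion.1 hc
    have h4 : 0 < (D.filter (fun i => c ∈ A i)).card := card_pos.2 ⟨i, mem_filter.2 ⟨hi, hic⟩⟩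
    have h5 : (D.filter (fun i => c ∈ A i)).card ≤ 2 :=
      le_trans (Finset.card_le_card (Finset.filter_subset_filter _ (subset_univ _))) (hdeg c)
    split_ifs <;> omega
  rw [Finset.sum_congr rfl h3, Finset.sum_add_distrib, ← Finset.mul_sum] at h1
  have h6 : (cut A D).card = ∑ c ∈ D.biUnion A,
      (if (D.filter (fun i => c ∈ A i)).card = 1 then 1 else 0) := by
    rw [cut, Finset.card_filter]
  rw [← h6] at h1
  have h7 : (D.card * k) % 2 = D.card % 2 := by
    rw [Nat.mul_mod, hk, mul_one, Nat.mod_mod]
  rw [h1] at h7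
  omega

/-- The graph to which Tutte's theorem is applied: `T × Fin k` are the incidences of lists and
colours, there are `l` further vertices for every list, and a complete graph. -/
def fg {T : Type} {k l : ℕ} (col : T → Fin k → ℕ) (b : ℕ) :
    SimpleGraph ((T × (Fin k ⊕ Fin l)) ⊕ (T × (Fin k ⊕ Fin l))) where
  Adj x y := match x, y with
    | .inl (i, .inl s), .inl (j, .inl s') => i ≠ j ∧ col i s = col j s'
    | .inl (i, .inl _), .inl (j, .inr _) => i = j
    | .inl (i, .inr _), .inl (j, .inl _) => i = j
    | .inl (_, .inr _), .inl (_, .inr _) => False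
    | .inl (i, .inl s), .inr _ => col i s ≠ b ∧ ∀ j s', col j s' = col i s → j = i
    | .inr _, .inl (i, .inl s) => col i s ≠ b ∧ ∀ j s', col j s' = col i s → j = i
    | .inl (_, .inr _), .inr _ => False
    | .inr _, .inl (_, .inr _) => False
    | .inr x, .inr y => x ≠ y
  symm := by
    constructor
    rintro (⟨i, i' | i'⟩ | i) (⟨j, j' | j'⟩ | j) h
    · exact ⟨h.1.symm, h.2.symm⟩
    · exact Eq.symm h
    · exact h
    · exact Eq.symm h
    · exact h
    · exact h
    · exact h
    · exact h
    · exact Ne.symm h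
  loopless := by
    constructor
    rintro (⟨i, i' | i'⟩ | i) h
    · exact h.1 rfl
    · exact h
    · exact h rfl

end Pool.Agent.H29.FewLists
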