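import Pool.Agent.H29.FewLists.TwoFactorMain

/-!
# Sets of colours with exactly two colours of every list: counting
-/

namespace Pool.Agent.H29.FewLists

open Finset

theorem sum_card_le {α β : Type} [DecidableEq α] [Fintype β] [DecidableEq β] (𝒬 : Finset α)
    (R : α → β → Prop) [∀ a b, Decidable (R a b)]
    (h : ∀ Q ∈ 𝒬, ∀ Q' ∈ 𝒬, ∀ s, R Q s → R Q' s → Q = Q') (W : Finset β)
    (hW : ∀ Q ∈ 𝒬, ∀ s, R Q s → s ∈ W) : ∑ Q ∈ 𝒬, (univ.filter (R Q)).card ≤ W.card := by
  rw [← Finset.card_biUnion]
  · refine card_le_card ?_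
    intro x hx
    rw [mem_biUnion] at hx
    obtain ⟨Q, hQ, hxQ⟩ := hx
    exact hW Q hQ x (mem_filter.1 hxQ).2
  · intro Q hQ Q' hQ' hne
    rw [Function.onFun_apply, Finset.disjoint_left]
    intro x hx hx'
    exact hne (h Q hQ Q' hQ' x (mem_filter.1 hx).2 (mem_filter.1 hx').2)

theorem two_factor_col {T : Type} [Fintype T] [DecidableEq T] (l : ℕ) (hl : l % 2 = 1)
    (col : T → Fin (l + 2) → ℕ) (hinj : ∀ i, Function.Injective (col i))
    (hdeg : ∀ c, (univ.filter (fun i => c ∈ univ.image (col i))).card ≤ 2)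
    (b : ℕ) (hb : ∀ i s j s', col i s = b → col j s' = b → i = j)
    (hD : ∀ D : Finset T, Odd D.card → (cut (fun i => univ.image (col i)) D).card = 1 →
      D = univ) :
    ∃ F : Finset ℕ, b ∉ F ∧ ∀ i, (univ.image (col i) ∩ F).card = 2 := by
  classical
  have hd3 : ∀ i s j s' i' s'', col i s = col j s' → col i s = col i' s'' →
      i = j ∨ i = i' ∨ j = i' := by
    intro i s j s' i' s'' h1 h2
    exact deg_three _ hdeg (col i s) i j i' (mem_image.2 ⟨s, mem_univ _, rfl⟩)
      (mem_image.2 ⟨s', mem_univ _, h1.symm⟩) (mem_image.2 ⟨s'', mem_univ _, h2.symm⟩)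
  by_cases hM : ∃ M : (fg (l := l) col b).Subgraph, M.IsPerfectMatching
  · exact two_factor_of_matching l col hinj hd3 b hb hM
  · exfalso
    rw [SimpleGraph.tutte] at hM
    push Not at hM
    obtain ⟨U, hU⟩ := hM
    rw [SimpleGraph.IsTutteViolator] at hU
    set H := ((⊤ : (fg (l := l) col b).Subgraph).deleteVerts U) with hH
    have hverts : ∀ v, v ∈ H.verts ↔ v ∉ U := by
      intro v
      rw [hH, SimpleGraph.Subgraph.deleteVerts_verts]
      simp
    have hHadj : ∀ x y, H.Adj x y ↔ x ∉ U ∧ y ∉ U ∧ (fg (l := l) col b).Adj x y := by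
      intro x y
      rw [hH, SimpleGraph.Subgraph.deleteVerts_adj]
      simp
    have hadjH : ∀ x y (hx : x ∈ H.verts) (hy : y ∈ H.verts), (fg (l := l) col b).Adj x y →
        H.coe.connectedComponentMk ⟨x, hx⟩ = H.coe.connectedComponentMk ⟨y, hy⟩ := by
      intro x y hx hy hxy
      rw [SimpleGraph.ConnectedComponent.eq]
      refine SimpleGraph.Adj.reachable ?_
      rw [SimpleGraph.Subgraph.coe_adj, hHadj]
      exact ⟨(hverts _).1 hx, (hverts _).1 hy, hxy⟩
    have hcardV : Nat.card H.verts + U.ncard =
        2 * Fintype.card (T × (Fin (l + 2) ⊕ Fin l)) := by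
      have h1 : H.verts = Uᶜ := by
        ext v
        rw [hverts]
        rfl
      rw [h1, Nat.card_coe_set_eq, Set.ncard_compl_add_ncard, Nat.card_eq_fintype_card,
        Fintype.card_sum]
      omega
    have hpar := SimpleGraph.odd_ncard_oddComponents (G := H.coe)
    have hge : U.ncard + 2 ≤ H.coe.oddComponents.ncard := by
      rcases Nat.even_or_odd (Nat.card H.verts) with h | h
      · have h1 : ¬ Odd H.coe.oddComponents.ncard := by
          rw [hpar]
          exact Nat.not_odd_iff_even.2 h
        rw [Nat.not_odd_iff_even] at h1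
        rw [Nat.even_iff] at h h1
        omega
      · have h1 := hpar.2 h
        rw [Nat.odd_iff] at h h1
        omega
    by_cases hw : ∃ x, Sum.inr x ∉ U
    · obtain ⟨x0, hx0⟩ := hw
      have hx0' := (hverts _).2 hx0
      have ht0 : 0 < l := by omega
      set 𝒬 : Finset H.coe.ConnectedComponent :=
        (Set.toFinite H.coe.oddComponents).toFinset.erase
          (H.coe.connectedComponentMk ⟨.inr x0, hx0'⟩) with h𝒬
      have h𝒬c : U.ncard + 1 ≤ 𝒬.card := by
        have h1 := Finset.pred_card_le_card_erase (s := (Set.toFinite H.coe.oddComponents).toFinset)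
          (a := H.coe.connectedComponentMk ⟨.inr x0, hx0'⟩)
        rw [← Set.ncard_eq_toFinset_card] at h1
        rw [h𝒬]
        omega
      set inQ : H.coe.ConnectedComponent → T × (Fin (l + 2) ⊕ Fin l) → Prop := fun Q x =>
        ∃ h : Sum.inl x ∈ H.verts, H.coe.connectedComponentMk ⟨.inl x, h⟩ = Q with hinQ
      have hQU : ∀ Q x, inQ Q x → Sum.inl x ∉ U := by
        rintro Q x ⟨h, -⟩
        exact (hverts _).1 h
      have hstep : ∀ Q x y, inQ Q x → (fg (l := l) col b).Adj (.inl x) (.inl y) →
          Sum.inl y ∉ U → inQ Q y := by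
        rintro Q x y ⟨h, h'⟩ hxy hy
        have hy' := (hverts _).2 hy
        refine ⟨hy', ?_⟩
        rw [← h']
        exact (hadjH _ _ h hy' hxy).symm
      have huniq : ∀ Q Q' x, inQ Q x → inQ Q' x → Q = Q' := by
        rintro Q Q' x ⟨h, h'⟩ ⟨h2, h2'⟩
        rw [← h', ← h2']
      have hnK : ∀ Q ∈ 𝒬, ∀ x, inQ Q x → ¬ (fg (l := l) col b).Adj (.inl x) (.inr x0) := by
        rintro Q hQ x ⟨h, h'⟩ hadj
        rw [h𝒬, Finset.mem_erase] at hQ
        exact hQ.1 (h'.symm.trans (hadjH _ _ h hx0' hadj))
      have hinl : ∀ Q ∈ 𝒬, ∀ v (hv : v ∈ H.verts),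
          H.coe.connectedComponentMk ⟨v, hv⟩ = Q → ∃ x, v = .inl x := by
        intro Q hQ v hv hvQ
        rw [h𝒬, Finset.mem_erase] at hQ
        rcases v with x | x
        · exact ⟨x, rfl⟩
        · exfalso
          by_cases hx : x = x0
          · subst hx
            exact hQ.1 hvQ.symm
          · exact hQ.1 (hvQ.symm.trans (hadjH _ _ hv hx0' hx))
      have hodd : ∀ Q ∈ 𝒬, (univ.filter (inQ Q)).card % 2 = 1 := by
        intro Q hQ
        have h1 : Odd Q.supp.ncard := by
          have := (Finset.mem_erase.1 hQ).2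
          rw [Set.Finite.mem_toFinset] at this
          exact this
        have h2 : ((↑) '' Q.supp : Set ((T × (Fin (l + 2) ⊕ Fin l)) ⊕
            (T × (Fin (l + 2) ⊕ Fin l)))) = Sum.inl '' ((univ.filter (inQ Q) :
              Finset (T × (Fin (l + 2) ⊕ Fin l))) : Set (T × (Fin (l + 2) ⊕ Fin l))) := by
          ext v
          constructor
          · rintro ⟨⟨v, hv⟩, hvQ, rfl⟩
            rw [SimpleGraph.ConnectedComponent.mem_supp_iff] at hvQ
            obtain ⟨x, rfl⟩ := hinl Q hQ v hv hvQ
            exact ⟨x, by rw [Finset.mem_coe, mem_filter]; exact ⟨mem_univ _, hv, hvQ⟩, rfl⟩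
          · rintro ⟨x, hx, rfl⟩
            rw [Finset.mem_coe, mem_filter] at hx
            obtain ⟨-, h, h'⟩ := hx
            exact ⟨⟨_, h⟩, (SimpleGraph.ConnectedComponent.mem_supp_iff _ _).2 h', rfl⟩
        have h3 := congrArg Set.ncard h2
        rw [Set.ncard_image_of_injective _ Subtype.val_injective,
          Set.ncard_image_of_injective _ Sum.inl_injective, Set.ncard_coe_finset] at h3
        rw [← h3]
        exact Nat.odd_iff.1 h1
      -- numbers
      set R3 : H.coe.ConnectedComponent → T × Fin (l + 2) → Prop := fun Q y =>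
        Sum.inl (y.1, .inl y.2) ∈ U ∧ ∃ i s, i ≠ y.1 ∧ col i s = col y.1 y.2 ∧
          inQ Q (i, .inl s) with hR3
      set a : H.coe.ConnectedComponent → T → ℕ := fun Q i =>
        (univ.filter (fun s => inQ Q (i, .inl s))).card with ha
      set c : H.coe.ConnectedComponent → T → ℕ := fun Q i =>
        (univ.filter (fun t => inQ Q (i, .inr t))).card with hc
      set e : H.coe.ConnectedComponent → ℕ := fun Q => (univ.filter (R3 Q)).card with he
      set tt : H.coe.ConnectedComponent → ℕ := fun Q =>
        (∑ i, (a Q i * (l - c Q i) + (l + 2 - a Q i) * c Q i)) + 2 * e Q with htt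
      set UI : T → ℕ := fun i => (univ.filter (fun t => Sum.inl (i, Sum.inr t) ∈ U)).card with hUI
      set UO : T → ℕ := fun i => (univ.filter (fun s => Sum.inl (i, Sum.inl s) ∈ U)).card with hUO
      have hanal : ∀ Q ∈ 𝒬, tt Q < l + 2 → l ≤ tt Q ∧
          ((∃ i s, col i s = b ∧ inQ Q (i, .inl s)) ∨ ∀ i t, inQ Q (i, .inr t)) := by
        intro Q hQ hlt
        have h1 := comp_analysis l hl col hinj hdeg b hD (inQ Q) (fun x => Sum.inl x ∈ U)
          (hodd Q hQ) (e Q) (by
            intro he0 j s' i s hjU hij hcol hq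
            have h2 : univ.filter (R3 Q) = ∅ := card_eq_zero.1 he0
            have h3 : (j, s') ∈ univ.filter (R3 Q) :=
              mem_filter.2 ⟨mem_univ _, hjU, i, s, hij, hcol, hq⟩
            rw [h2] at h3
            exact absurd h3 (notMem_empty _)) (by
            intro i s j s' hq hij hcol hjU
            exact hstep Q _ _ hq ⟨hij, hcol⟩ hjU) (by
            intro i s hq hne hpriv
            exact hnK Q hQ _ hq ⟨hne, hpriv⟩) (hQU Q) hlt
        refine ⟨?_, h1.2⟩
        have h2 := h1.1
        rw [htt]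
        exact h2.trans (Nat.le_add_right _ _)
      -- upper bound
      have hale : ∀ i, ∑ Q ∈ 𝒬, a Q i ≤ l + 2 := by
        intro i
        have h1 := sum_card_le 𝒬 (fun Q (s : Fin (l + 2)) => inQ Q (i, .inl s))
          (fun Q _ Q' _ s h h' => huniq Q Q' _ h h') univ (fun _ _ _ _ => mem_univ _)
        simpa using h1
      have hcle : ∀ i, ∑ Q ∈ 𝒬, c Q i ≤ l := by
        intro i
        have h1 := sum_card_le 𝒬 (fun Q (s : Fin l) => inQ Q (i, .inr s))
          (fun Q _ Q' _ s h h' => huniq Q Q' _ h h') univ (fun _ _ _ _ => mem_univ _)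
        simpa using h1
      have h1 : ∀ Q i, a Q i * (l - c Q i) ≤ a Q i * UI i := by
        intro Q i
        rcases Nat.eq_zero_or_pos (a Q i) with h | h
        · rw [h]; simp
        · refine Nat.mul_le_mul_left _ ?_
          obtain ⟨s, hs⟩ := card_pos.1 h
          have hs' := (mem_filter.1 hs).2
          have h2 : l - c Q i = (univ.filter (fun t => ¬ inQ Q (i, .inr t))).card := by
            have h10 := Finset.card_filter_add_card_filter_not (s := (univ : Finset (Fin l)))
              (fun t => inQ Q (i, .inr t))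
            simp only [card_univ, Fintype.card_fin] at h10
            have h11 : c Q i = (univ.filter (fun t => inQ Q (i, .inr t))).card := rfl
            omega
          rw [h2]
          refine card_le_card ?_
          intro t ht
          rw [mem_filter] at ht ⊢
          refine ⟨mem_univ _, ?_⟩
          by_contra htU
          exact ht.2 (hstep Q _ _ hs' rfl htU)
      have h2 : ∀ Q i, (l + 2 - a Q i) * c Q i ≤ UO i * c Q i := by
        intro Q i
        rcases Nat.eq_zero_or_pos (c Q i) with h | h
        · rw [h]; simp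
        · refine Nat.mul_le_mul_right _ ?_
          obtain ⟨s, hs⟩ := card_pos.1 h
          have hs' := (mem_filter.1 hs).2
          have h2 : l + 2 - a Q i = (univ.filter (fun t => ¬ inQ Q (i, .inl t))).card := by
            have h10 := Finset.card_filter_add_card_filter_not (s := (univ : Finset (Fin (l + 2))))
              (fun t => inQ Q (i, .inl t))
            simp only [card_univ, Fintype.card_fin] at h10
            have h11 : a Q i = (univ.filter (fun t => inQ Q (i, .inl t))).card := rfl
            omega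
          rw [h2]
          refine card_le_card ?_
          intro t ht
          rw [mem_filter] at ht ⊢
          refine ⟨mem_univ _, ?_⟩
          by_contra htU
          exact ht.2 (hstep Q _ _ hs' rfl htU)
      have h3 : ∑ Q ∈ 𝒬, e Q ≤ ∑ i, UO i := by
        have h4 := sum_card_le 𝒬 R3 (by
          rintro Q _ Q' _ y ⟨_, i, s, hi, hs, hq⟩ ⟨_, i', s', hi', hs', hq'⟩
          rcases hd3 y.1 y.2 i s i' s' hs.symm hs'.symm with h | h | h
          · exact absurd h.symm hi
          · exact absurd h.symm hi'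
          · subst h
            have h5 : s = s' := hinj i (hs.trans hs'.symm)
            subst h5
            exact huniq Q Q' _ hq hq')
          (univ.filter (fun y : T × Fin (l + 2) => Sum.inl (y.1, Sum.inl y.2) ∈ U))
          (fun Q _ y hy => mem_filter.2 ⟨mem_univ _, hy.1⟩)
        refine h4.trans (le_of_eq ?_)
        rw [hUO]
        simp only [Finset.card_filter, Fintype.sum_prod_type]
      have hUcard : ∑ i, (UO i + UI i) ≤ U.ncard := by
        have h5 := card_X (T := T) (l + 2) l (fun x => Sum.inl x ∈ U)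
        have h6 : ∑ i, (UO i + UI i) =
            (univ.filter (fun x : T × (Fin (l + 2) ⊕ Fin l) => Sum.inl x ∈ U)).card := h5.symm
        rw [h6]
        have h7 : (Sum.inl '' ((univ.filter (fun x : T × (Fin (l + 2) ⊕ Fin l) =>
            Sum.inl x ∈ U) : Finset _) : Set (T × (Fin (l + 2) ⊕ Fin l)))) ⊆ U := by
          rintro _ ⟨u, hu, rfl⟩
          rw [Finset.mem_coe, Finset.mem_filter] at hu
          exact hu.2
        have h8 := Set.ncard_le_ncard h7 (Set.toFinite _)
        rw [Set.ncard_image_of_injective _ Sum.inl_injective, Set.ncard_coe_finset] at h8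
        exact h8
      have hupper : ∑ Q ∈ 𝒬, tt Q ≤ (l + 2) * U.ncard := by
        have h5 : ∑ Q ∈ 𝒬, tt Q ≤ (∑ i, ((l + 2) * UI i + UO i * l)) + 2 * ∑ i, UO i := by
          rw [htt, Finset.sum_add_distrib, ← Finset.mul_sum, Finset.sum_comm]
          refine Nat.add_le_add (Finset.sum_le_sum (fun i _ => ?_)) (Nat.mul_le_mul_left _ h3)
          rw [Finset.sum_add_distrib]
          refine Nat.add_le_add ?_ ?_
          · refine (Finset.sum_le_sum (fun Q _ => h1 Q i)).trans ?_
            rw [← Finset.sum_mul]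
            exact Nat.mul_le_mul_right _ (hale i)
          · refine (Finset.sum_le_sum (fun Q _ => h2 Q i)).trans ?_
            rw [← Finset.mul_sum]
            exact Nat.mul_le_mul_left _ (hcle i)
        refine h5.trans ?_
        refine le_trans (le_of_eq ?_) (Nat.mul_le_mul_left _ hUcard)
        rw [Finset.mul_sum, Finset.mul_sum, ← Finset.sum_add_distrib]
        refine Finset.sum_congr rfl (fun i _ => ?_)
        ring
      have hexc : ∀ Q ∈ 𝒬, ∀ Q' ∈ 𝒬,
          ((∃ i s, col i s = b ∧ inQ Q (i, .inl s)) ∨ ∀ i t, inQ Q (i, .inr t)) →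
          ((∃ i s, col i s = b ∧ inQ Q' (i, .inl s)) ∨ ∀ i t, inQ Q' (i, .inr t)) → Q = Q' := by
        rintro Q hQ Q' hQ' (⟨i, s, hs, hq⟩ | hall) (⟨i', s', hs', hq'⟩ | hall')
        · have h5 := hb i s i' s' hs hs'
          subst h5
          have h6 : s = s' := hinj i (hs.trans hs'.symm)
          subst h6
          exact huniq Q Q' _ hq hq'
        · refine huniq Q Q' (i, .inl s) hq ?_
          exact hstep Q' (i, .inr ⟨0, ht0⟩) (i, .inl s) (hall' i ⟨0, ht0⟩) rfl (hQU Q _ hq)
        · refine huniq Q Q' (i', .inl s') ?_ hq'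
          exact hstep Q (i', .inr ⟨0, ht0⟩) (i', .inl s') (hall i' ⟨0, ht0⟩) rfl (hQU Q' _ hq')
        · exact huniq Q Q' (x0.1, .inr ⟨0, ht0⟩) (hall _ _) (hall' _ _)
      have hlower : (l + 2) * 𝒬.card ≤ (∑ Q ∈ 𝒬, tt Q) + 2 := by
        by_cases hall : ∀ Q ∈ 𝒬, l + 2 ≤ tt Q
        · have h5 : ∑ _Q ∈ 𝒬, (l + 2) ≤ ∑ Q ∈ 𝒬, tt Q := Finset.sum_le_sum hall
          rw [Finset.sum_const, smul_eq_mul, mul_comm] at h5
          omega
        · push Not at hall
          obtain ⟨Q0, hQ0, hlt⟩ := hall
          obtain ⟨h5, h6⟩ := hanal Q0 hQ0 hlt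
          have h7 : ∑ _Q ∈ 𝒬.erase Q0, (l + 2) ≤ ∑ Q ∈ 𝒬.erase Q0, tt Q := by
            refine Finset.sum_le_sum (fun Q hQ => ?_)
            rw [mem_erase] at hQ
            by_contra hlt'
            rw [not_le] at hlt'
            exact hQ.1 (hexc Q hQ.2 Q0 hQ0 (hanal Q hQ.2 hlt').2 h6)
          rw [Finset.sum_const, smul_eq_mul, card_erase_of_mem hQ0] at h7
          have h8 := Finset.add_sum_erase 𝒬 tt hQ0
          have h9 : 0 < 𝒬.card := card_pos.2 ⟨Q0, hQ0⟩
          obtain ⟨r, hr⟩ : ∃ r, 𝒬.card = r + 1 := ⟨𝒬.card - 1, by omega⟩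
          rw [hr] at h7 ⊢
          rw [Nat.add_sub_cancel] at h7
          have h10 : (l + 2) * (r + 1) = r * (l + 2) + (l + 2) := by ring
          omega
      have h11 : (l + 2) * (U.ncard + 1) ≤ (l + 2) * U.ncard + 2 :=
        le_trans (Nat.mul_le_mul_left _ h𝒬c) (hlower.trans (Nat.add_le_add_right hupper 2))
      have h12 : (l + 2) * (U.ncard + 1) = (l + 2) * U.ncard + (l + 2) := by ring
      omega
    · push Not at hw
      have h1 : Fintype.card (T × (Fin (l + 2) ⊕ Fin l)) ≤ U.ncard := by
        have h3 : (Sum.inr '' (Set.univ : Set (T × (Fin (l + 2) ⊕ Fin l)))) ⊆ U := by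
          rintro _ ⟨u, -, rfl⟩
          exact hw u
        have h4 := Set.ncard_le_ncard h3 (Set.toFinite _)
        rw [Set.ncard_image_of_injective _ Sum.inr_injective, Set.ncard_univ,
          Nat.card_eq_fintype_card] at h4
        exact h4
      have h2 : H.coe.oddComponents.ncard ≤ Nat.card H.verts := by
        have h3 : H.coe.oddComponents.ncard ≤ Nat.card H.coe.ConnectedComponent := by
          rw [← Set.ncard_univ]
          exact Set.ncard_le_ncard (Set.subset_univ _) (Set.toFinite _)
        refine h3.trans ?_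
        exact Nat.card_le_card_of_surjective (fun v => H.coe.connectedComponentMk v)
          (fun Q => Q.exists_rep)
      omega

/-- Odd lists: if no colour `c` is the only colour in exactly one list of a proper odd set of
lists, then some set of colours has exactly two colours in common with every list. It can be chosen
without a given colour which belongs to at most one list. -/
theorem two_part_odd {T : Type} [Fintype T] [DecidableEq T] (l : ℕ) (hl : l % 2 = 1)
    (A : T → Finset ℕ) (hA : ∀ i, (A i).card = l + 2)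
    (hdeg : ∀ c, (univ.filter (fun i => c ∈ A i)).card ≤ 2)
    (b : ℕ) (hb : (univ.filter (fun i => b ∈ A i)).card ≤ 1)
    (hD : ∀ D : Finset T, Odd D.card → (cut A D).card = 1 → D = univ) :
    ∃ F : Finset ℕ, b ∉ F ∧ ∀ i, (A i ∩ F).card = 2 := by
  classical
  have himg : ∀ i, univ.image (fun s => (A i).orderEmbOfFin (hA i) s) = A i := by
    intro i
    exact Finset.image_orderEmbOfFin_univ (A i) (hA i)
  have hfun : (fun i => univ.image (fun s => (A i).orderEmbOfFin (hA i) s)) = A := by
    funext i
    exact himg i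
  obtain ⟨F, hF1, hF2⟩ := two_factor_col l hl (fun i s => (A i).orderEmbOfFin (hA i) s)
    (fun i => ((A i).orderEmbOfFin (hA i)).injective) (by
      intro c
      simp only [himg]
      exact hdeg c) b (by
      intro i s j s' h1 h2
      have h3 : i ∈ univ.filter (fun i => b ∈ A i) := by
        rw [mem_filter]
        refine ⟨mem_univ _, ?_⟩
        rw [← h1]
        exact Finset.orderEmbOfFin_mem _ _ _
      have h4 : j ∈ univ.filter (fun i => b ∈ A i) := by
        rw [mem_filter]
        refine ⟨mem_univ _, ?_⟩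
        rw [← h2]
        exact Finset.orderEmbOfFin_mem _ _ _
      exact Finset.card_le_one.1 hb i h3 j h4) (by
      intro D hDo hDc
      refine hD D hDo ?_
      rw [← hDc]
      rw [← congrArg (fun B => cut B D) hfun])
  refine ⟨F, hF1, fun i => ?_⟩
  have := hF2 i
  rw [himg] at this
  exact this

end Pool.Agent.H29.FewLists
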