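import Pool.Agent.H29.FewLists.TwoFactor

/-!
# Sets of colours with exactly two colours of every list: proof
-/

namespace Pool.Agent.H29.FewLists

open Finset

theorem two_factor_of_matching {T : Type} [Fintype T] [DecidableEq T] (l : ℕ)
    (col : T → Fin (l + 2) → ℕ) (hinj : ∀ i, Function.Injective (col i))
    (hd3 : ∀ i s j s' i' s'', col i s = col j s' → col i s = col i' s'' → i = j ∨ i = i' ∨ j = i')
    (b : ℕ) (hb : ∀ i s j s', col i s = b → col j s' = b → i = j)
    (hM : ∃ M : (fg (l := l) col b).Subgraph, M.IsPerfectMatching) :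
    ∃ F : Finset ℕ, b ∉ F ∧ ∀ i, (univ.image (col i) ∩ F).card = 2 := by
  classical
  obtain ⟨M, hM⟩ := hM
  rw [SimpleGraph.Subgraph.isPerfectMatching_iff] at hM
  choose p hp hp' using hM
  have hadj : ∀ v, (fg (l := l) col b).Adj v (p v) := fun v => (hp v).adj_sub
  have hpp : ∀ v w, p v = w → p w = v := by
    intro v w h
    refine (hp' _ _ ?_).symm
    rw [← h]
    exact (hp v).symm
  have hin : ∀ i t, ∃ s, p (.inl (i, .inr t)) = .inl (i, .inl s) := by
    intro i t
    have h1 := hadj (.inl (i, .inr t))
    rcases h : p (.inl (i, .inr t)) with ⟨j, j' | j'⟩ | j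
    · rw [h] at h1
      have h2 : i = j := h1
      subst h2
      exact ⟨j', rfl⟩
    · rw [h] at h1
      exact False.elim h1
    · rw [h] at h1
      exact False.elim h1
  choose q hq using hin
  have hqinj : ∀ i, Function.Injective (q i) := by
    intro i t t' h
    have h1 := hpp _ _ (hq i t)
    have h2 := hpp _ _ (hq i t')
    rw [h] at h1
    rw [h1] at h2
    simpa using h2
  set N : T → Finset (Fin (l + 2)) := fun i => univ \ univ.image (q i) with hN
  have hNm : ∀ i s, s ∈ N i ↔ ∀ t, p (.inl (i, .inl s)) ≠ .inl (i, .inr t) := by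
    intro i s
    rw [hN]
    simp only [mem_sdiff, mem_univ, true_and, mem_image, not_exists]
    constructor
    · intro h t ht
      apply h t
      have h1 := hpp _ _ ht
      rw [hq] at h1
      simpa using h1
    · intro h t ht
      apply h t
      rw [← ht]
      exact hpp _ _ (hq i t)
  have hNc : ∀ i, (N i).card = 2 := by
    intro i
    rw [hN, card_sdiff_of_subset (subset_univ _), card_image_of_injective _ (hqinj i)]
    simp
  refine ⟨univ.biUnion (fun i => (N i).image (col i)), ?_, ?_⟩
  · intro hbF
    rw [mem_biUnion] at hbF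
    obtain ⟨j, -, hj⟩ := hbF
    obtain ⟨s, hs, hsb⟩ := mem_image.1 hj
    rw [hNm] at hs
    have h1 := hadj (.inl (j, .inl s))
    rcases h : p (.inl (j, .inl s)) with ⟨j', s' | t'⟩ | x
    · rw [h] at h1
      have h2 : j ≠ j' ∧ col j s = col j' s' := h1
      exact h2.1 (hb j s j' s' hsb (h2.2 ▸ hsb))
    · rw [h] at h1
      have h2 : j = j' := h1
      subst h2
      exact hs t' h
    · rw [h] at h1
      have h2 : col j s ≠ b ∧ ∀ j' s', col j' s' = col j s → j' = j := h1
      exact h2.1 hsb
  · intro i
    have h1 : univ.image (col i) ∩ univ.biUnion (fun i => (N i).image (col i)) =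
        (N i).image (col i) := by
      ext c
      rw [mem_inter, mem_biUnion]
      constructor
      · rintro ⟨hc, j, -, hj⟩
        obtain ⟨s, -, hs⟩ := mem_image.1 hc
        obtain ⟨s', hs', hsc⟩ := mem_image.1 hj
        by_cases hij : i = j
        · subst hij
          exact hj
        · rw [hNm] at hs'
          refine mem_image.2 ⟨s, ?_, hs⟩
          rw [hNm]
          intro t ht
          have h1 := hadj (.inl (j, .inl s'))
          rcases h : p (.inl (j, .inl s')) with ⟨j', s'' | t'⟩ | x
          · rw [h] at h1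
            have h2 : j ≠ j' ∧ col j s' = col j' s'' := h1
            rcases hd3 j s' i s j' s'' (hsc.trans hs.symm) h2.2 with h3 | h3 | h3
            · exact hij h3.symm
            · exact h2.1 h3
            · subst h3
              have h4 : s'' = s := hinj i (h2.2.symm.trans (hsc.trans hs.symm))
              rw [h4] at h
              have h5 := hpp _ _ h
              rw [h5] at ht
              simp at ht
          · rw [h] at h1
            have h2 : j = j' := h1
            subst h2
            exact hs' t' h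
          · rw [h] at h1
            have h2 : col j s' ≠ b ∧ ∀ j' s'', col j' s'' = col j s' → j' = j := h1
            exact hij (h2.2 i s (hs.trans hsc.symm))
      · intro hc
        obtain ⟨s, hs, hsc⟩ := mem_image.1 hc
        exact ⟨mem_image.2 ⟨s, mem_univ _, hsc⟩, i, mem_univ _, hc⟩
    rw [h1, card_image_of_injective _ (hinj i)]
    exact hNc i

/-- The analysis of a component with few outgoing edges. -/
theorem comp_analysis {T : Type} [Fintype T] [DecidableEq T] (l : ℕ) (hl : l % 2 = 1)
    (col : T → Fin (l + 2) → ℕ) (hinj : ∀ i, Function.Injective (col i))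
    (hdeg : ∀ c, (univ.filter (fun i => c ∈ univ.image (col i))).card ≤ 2)
    (b : ℕ)
    (hD : ∀ D : Finset T, Odd D.card → (cut (fun i => univ.image (col i)) D).card = 1 → D = univ)
    (Q U : T × (Fin (l + 2) ⊕ Fin l) → Prop) [DecidablePred Q] [DecidablePred U]
    (hodd : (univ.filter Q).card % 2 = 1) (e : ℕ)
    (he : e = 0 → ∀ j s' i s, U (j, .inl s') → i ≠ j → col i s = col j s' → ¬ Q (i, .inl s))
    (hQ2 : ∀ i s j s', Q (i, .inl s) → i ≠ j → col i s = col j s' → ¬ U (j, .inl s') →
      Q (j, .inl s'))
    (hQK : ∀ i s, Q (i, .inl s) → col i s ≠ b → (∀ j s', col j s' = col i s → j = i) → False)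
    (hQU : ∀ x, Q x → ¬ U x)
    (ht : (∑ i, ((univ.filter (fun s => Q (i, .inl s))).card *
        (l - (univ.filter (fun t => Q (i, .inr t))).card) +
        (l + 2 - (univ.filter (fun s => Q (i, .inl s))).card) *
        (univ.filter (fun t => Q (i, .inr t))).card)) + 2 * e < l + 2) :
    l ≤ (∑ i, ((univ.filter (fun s => Q (i, .inl s))).card *
        (l - (univ.filter (fun t => Q (i, .inr t))).card) +
        (l + 2 - (univ.filter (fun s => Q (i, .inl s))).card) *
        (univ.filter (fun t => Q (i, .inr t))).card)) ∧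
    ((∃ i s, col i s = b ∧ Q (i, .inl s)) ∨ ∀ i t, Q (i, .inr t)) := by
  classical
  set A : T → Finset ℕ := fun i => univ.image (col i) with hAdef
  have hAm : ∀ i c, c ∈ A i ↔ ∃ s, col i s = c := by intro i c; simp [hAdef]
  have hAc : ∀ i, (A i).card = l + 2 := by
    intro i
    rw [hAdef]
    simp [card_image_of_injective _ (hinj i)]
  have hl1 : 1 ≤ l := by omega
  set a : T → ℕ := fun i => (univ.filter (fun s => Q (i, .inl s))).card with ha
  set c : T → ℕ := fun i => (univ.filter (fun t => Q (i, .inr t))).card with hc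
  have hale : ∀ i, a i ≤ l + 2 := by
    intro i
    have := Finset.card_le_univ (univ.filter (fun s => Q (i, .inl s)))
    simpa using this
  have hcle : ∀ i, c i ≤ l := by
    intro i
    have := Finset.card_le_univ (univ.filter (fun t => Q (i, .inr t)))
    simpa using this
  set g : T → ℕ := fun i => a i * (l - c i) + (l + 2 - a i) * c i with hg
  have ht' : (∑ i, g i) + 2 * e < l + 2 := ht
  show l ≤ ∑ i, g i ∧ _
  have hgpar : ∀ i, g i % 2 = (a i + c i) % 2 := by
    intro i
    have h1 := hale i
    have h2 := hcle i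
    exact g_parity l (a i) (c i) (l + 2 - a i) (l - c i) hl (by omega) (by omega)
  have hsum : (∑ i, g i) % 2 = 1 := by
    rw [← hodd, card_X, Finset.sum_nat_mod]
    conv_rhs => rw [Finset.sum_nat_mod]
    rw [Finset.sum_congr rfl (fun i _ => hgpar i)]
  have hle : ∑ i, g i ≤ l := by omega
  have hgle : ∀ i, g i ≤ ∑ i, g i := fun i =>
    Finset.single_le_sum (f := g) (fun _ _ => Nat.zero_le _) (mem_univ i)
  have htype : ∀ i, (c i = 0 ∧ a i ≤ 1) ∨ (c i = l ∧ l + 1 ≤ a i) := by
    intro i
    have h1 := hale i
    have h2 := hcle i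
    rcases g_small l (a i) (c i) (l + 2 - a i) (l - c i) hl1 (by omega) (by omega)
      ((hgle i).trans hle) with h | h
    · left; exact h
    · right; omega
  -- a defect
  have hdef : ∃ i0, (c i0 = 0 ∧ a i0 = 1) ∨ (c i0 = l ∧ a i0 = l + 1) := by
    by_contra hno
    push Not at hno
    have h1 : ∀ i, g i = 0 := by
      intro i
      have h1 := hale i
      obtain ⟨h3, h4⟩ := hno i
      rcases htype i with ⟨h5, h6⟩ | ⟨h5, h6⟩
      · have h7 : a i = 0 := by
          have := h3 h5
          omega
        rw [hg]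
        simp [h5, h7]
      · have h7 : a i = l + 2 := by
          have := h4 h5
          omega
        rw [hg]
        simp [h5, h7]
    rw [Finset.sum_congr rfl (fun i _ => h1 i)] at hsum
    simp at hsum
  obtain ⟨i0, hi0⟩ := hdef
  have hg0 : g i0 = l := by
    rcases hi0 with ⟨h5, h6⟩ | ⟨h5, h6⟩
    · rw [hg]; simp [h5, h6]
    · have e1 : l + 2 - (l + 1) = 1 := by omega
      rw [hg]; simp [h5, h6, e1]
  have hlow : l ≤ ∑ i, g i := hg0 ▸ hgle i0
  refine ⟨hlow, ?_⟩
  have he0 : e = 0 := by omega
  have he' := he he0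
  have hothers : ∀ i, i ≠ i0 → g i = 0 := by
    intro i hi
    have h1 : g i + g i0 ≤ ∑ i, g i := by
      have h2 : ∑ j ∈ ({i, i0} : Finset T), g j ≤ ∑ j, g j :=
        Finset.sum_le_sum_of_subset (subset_univ _)
      rwa [Finset.sum_pair hi] at h2
    omega
  have hclean : ∀ i, i ≠ i0 → (c i = 0 ∧ a i = 0) ∨ (c i = l ∧ a i = l + 2) := by
    intro i hi
    have h1 := hothers i hi
    have h2 := hale i
    have h3 : a i * (l - c i) + (l + 2 - a i) * c i = 0 := h1
    rcases htype i with ⟨h5, h6⟩ | ⟨h5, h6⟩
    · left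
      refine ⟨h5, ?_⟩
      rw [h5] at h3
      simp only [Nat.sub_zero, Nat.mul_zero, Nat.add_zero, Nat.mul_eq_zero] at h3
      omega
    · right
      refine ⟨h5, ?_⟩
      rw [h5] at h3
      simp only [Nat.sub_self, Nat.mul_zero, Nat.zero_add, Nat.mul_eq_zero] at h3
      omega
  -- the full indices
  set D : Finset T := univ.filter (fun i => c i ≠ 0) with hDdef
  have hDm : ∀ i, i ∈ D ↔ c i ≠ 0 := by intro i; simp [hDdef]
  -- the special slot
  have hslot : ∃ s0, ∀ s, (Q (i0, .inl s) ↔ ((i0 ∈ D ∧ s ≠ s0) ∨ (i0 ∉ D ∧ s = s0))) := by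
    rcases hi0 with ⟨h5, h6⟩ | ⟨h5, h6⟩
    · have h7 : i0 ∉ D := by rw [hDm]; omega
      obtain ⟨s0, hs0⟩ := card_eq_one.1 h6
      refine ⟨s0, fun s => ?_⟩
      have h8 : s ∈ univ.filter (fun s => Q (i0, .inl s)) ↔ s ∈ ({s0} : Finset _) := by rw [hs0]
      rw [mem_filter, mem_singleton] at h8
      constructor
      · intro h
        exact Or.inr ⟨h7, h8.1 ⟨mem_univ _, h⟩⟩
      · rintro (⟨h, -⟩ | ⟨-, h⟩)
        · exact absurd h h7
        · exact (h8.2 h).2
    · have h7 : i0 ∈ D := by rw [hDm]; omega
      have h9 : (univ.filter (fun s => ¬ Q (i0, .inl s))).card = 1 := by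
        have h10 := Finset.card_filter_add_card_filter_not (s := (univ : Finset (Fin (l + 2))))
          (fun s => Q (i0, .inl s))
        have h11 : (univ.filter (fun s => Q (i0, .inl s))).card = l + 1 := h6
        rw [h11] at h10
        simp only [card_univ, Fintype.card_fin] at h10
        omega
      obtain ⟨s0, hs0⟩ := card_eq_one.1 h9
      refine ⟨s0, fun s => ?_⟩
      have h8 : s ∈ univ.filter (fun s => ¬ Q (i0, .inl s)) ↔ s ∈ ({s0} : Finset _) := by rw [hs0]
      rw [mem_filter, mem_singleton] at h8
      constructor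
      · intro h
        exact Or.inl ⟨h7, fun h' => (h8.2 h').2 h⟩
      · rintro (⟨-, h⟩ | ⟨h, -⟩)
        · by_contra h'
          exact h (h8.1 ⟨mem_univ _, h'⟩)
        · exact absurd h7 h
  obtain ⟨s0, hs0⟩ := hslot
  have hfull : ∀ i, i ≠ i0 → ∀ s, (Q (i, .inl s) ↔ i ∈ D) := by
    intro i hi s
    rcases hclean i hi with ⟨h5, h6⟩ | ⟨h5, h6⟩
    · have h7 : i ∉ D := by rw [hDm]; omega
      constructor
      · intro h
        exfalso
        have h8 : univ.filter (fun s => Q (i, .inl s)) = ∅ := card_eq_zero.1 h6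
        have h9 : s ∈ univ.filter (fun s => Q (i, .inl s)) := mem_filter.2 ⟨mem_univ _, h⟩
        rw [h8] at h9
        exact absurd h9 (notMem_empty _)
      · intro h; exact absurd h h7
    · have h7 : i ∈ D := by rw [hDm]; omega
      constructor
      · intro _; exact h7
      · intro _
        have h8 : univ.filter (fun s => Q (i, .inl s)) = univ := by
          apply Finset.eq_univ_of_card
          have h9 : (univ.filter (fun s => Q (i, .inl s))).card = l + 2 := h6
          rw [h9]; simp
        have h9 : s ∈ univ.filter (fun s => Q (i, .inl s)) := by rw [h8]; exact mem_univ _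
        exact (mem_filter.1 h9).2
  by_contra hno
  push Not at hno
  obtain ⟨hN1, i2, t2, hN2⟩ := hno
  have hDne : D ≠ univ := by
    intro h
    have h1 : i2 ∈ D := by rw [h]; exact mem_univ _
    rw [hDm] at h1
    have h2 : c i2 = l := by
      rcases htype i2 with h | h
      · exact absurd h.1 h1
      · exact h.1
    have h3 : univ.filter (fun t => Q (i2, .inr t)) = univ := by
      apply Finset.eq_univ_of_card
      have h9 : (univ.filter (fun t => Q (i2, .inr t))).card = l := h2
      rw [h9]; simp
    have h4 : t2 ∈ univ.filter (fun t => Q (i2, .inr t)) := by rw [h3]; exact mem_univ _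
    exact hN2 (mem_filter.1 h4).2
  apply hDne
  -- membership of the other slots
  have hmemD : ∀ i s, i ∈ D → ¬ (i = i0 ∧ s = s0) → Q (i, .inl s) := by
    intro i s hi hne
    by_cases h : i = i0
    · subst h
      exact (hs0 s).2 (Or.inl ⟨hi, fun h' => hne ⟨rfl, h'⟩⟩)
    · exact (hfull i h s).2 hi
  have hnotD : ∀ i s, i ∉ D → Q (i, .inl s) → i = i0 ∧ s = s0 := by
    intro i s hi hQ
    by_cases h : i = i0
    · subst h
      rcases (hs0 s).1 hQ with h' | h'
      · exact absurd h'.1 hi
      · exact ⟨rfl, h'.2⟩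
    · exact absurd ((hfull i h s).1 hQ) hi
  have hcut : cut A D = {col i0 s0} := by
    apply Finset.Subset.antisymm
    · intro x hx
      rw [mem_singleton]
      by_contra hne
      rw [mem_cut] at hx
      obtain ⟨i, hi, hix, hu⟩ := hx
      obtain ⟨s, hs⟩ := (hAm _ _).1 hix
      have h1 : Q (i, .inl s) := hmemD i s hi (by
        rintro ⟨rfl, rfl⟩
        exact hne hs.symm)
      by_cases hsh : ∃ j s', j ≠ i ∧ col j s' = x
      · obtain ⟨j, s', hji, hj⟩ := hsh
        have hjD : j ∉ D := fun h => hji (hu j h ((hAm _ _).2 ⟨s', hj⟩))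
        have h2 : ¬ U (j, .inl s') := by
          intro hU
          exact he' j s' i s hU (Ne.symm hji) (hs.trans hj.symm) h1
        have h3 := hQ2 i s j s' h1 (Ne.symm hji) (hs.trans hj.symm) h2
        obtain ⟨rfl, rfl⟩ := hnotD j s' hjD h3
        exact hne hj.symm
      · push Not at hsh
        by_cases hxb : x = b
        · exact hN1 i s (hs.trans hxb) h1
        · refine hQK i s h1 (by rw [hs]; exact hxb) (fun j s' h => ?_)
          by_contra hji
          exact hsh j s' hji (h.trans hs)
    · intro x hx
      rw [mem_singleton] at hx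
      subst hx
      rw [mem_cut]
      by_cases hi0D : i0 ∈ D
      · refine ⟨i0, hi0D, (hAm _ _).2 ⟨s0, rfl⟩, fun j hj hjc => ?_⟩
        by_contra hji
        obtain ⟨s', hs'⟩ := (hAm _ _).1 hjc
        have h1 : Q (j, .inl s') := hmemD j s' hj (fun h => hji h.1)
        have h2 : ¬ Q (i0, .inl s0) := by
          intro h
          rcases (hs0 s0).1 h with h' | h'
          · exact h'.2 rfl
          · exact h'.1 hi0D
        have h3 : U (i0, .inl s0) := by
          by_contra hU
          exact h2 (hQ2 j s' i0 s0 h1 hji hs' hU)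
        exact he' i0 s0 j s' h3 hji hs' h1
      · have h1 : Q (i0, .inl s0) := (hs0 s0).2 (Or.inr ⟨hi0D, rfl⟩)
        by_cases hsh : ∃ j s', j ≠ i0 ∧ col j s' = col i0 s0
        · obtain ⟨j, s', hji, hj⟩ := hsh
          have h2 : ¬ U (j, .inl s') := by
            intro hU
            exact he' j s' i0 s0 hU (Ne.symm hji) hj.symm h1
          have h3 := hQ2 i0 s0 j s' h1 (Ne.symm hji) hj.symm h2
          have hjD : j ∈ D := by
            by_contra h
            exact hji (hnotD j s' h h3).1
          refine ⟨j, hjD, (hAm _ _).2 ⟨s', hj⟩, fun j' hj' hjc' => ?_⟩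
          rcases deg_three A hdeg (col i0 s0) i0 j j' ((hAm _ _).2 ⟨s0, rfl⟩)
            ((hAm _ _).2 ⟨s', hj⟩) hjc' with h | h | h
          · exact absurd h.symm hji
          · exact absurd (h ▸ hj') hi0D
          · exact h.symm
        · push Not at hsh
          exfalso
          by_cases hxb : col i0 s0 = b
          · exact hN1 i0 s0 hxb h1
          · refine hQK i0 s0 h1 hxb (fun j s' h => ?_)
            by_contra hji
            exact hsh j s' hji h
  have hcard : (cut A D).card = 1 := by rw [hcut, card_singleton]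
  refine hD D ?_ hcard
  have h1 := cut_mod (l + 2) A hAc hdeg (by omega) D
  rw [hcard] at h1
  rw [Nat.odd_iff]
  omega

end Pool.Agent.H29.FewLists
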